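import Pool.Agent.Y503.RB.GapAll

/-!
Change of variables with multiplicities (equality), measures on the sphere.
-/

set_option autoImplicit false

namespace Pool.Agent.H55HC

open Pool.Agent.Y503.RB
open scoped ContDiff RealInnerProductSpace ENNReal Topology
open MeasureTheory Set Metric Filter

/-- number of elements -/
noncomputable def crd {α : Type*} (s : Set α) : ℝ≥0∞ := ((s.encard : ℕ∞) : ℝ≥0∞)

lemma crd_iUnion {α : Type*} {S : ℕ → Set α} (h : Pairwise (Function.onFun Disjoint S)) :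
    crd (⋃ i, S i) = ∑' i, crd (S i) := by
  unfold crd
  rw [← ENNReal.tsum_set_one]
  have h1 : (univ : Set ℕ).PairwiseDisjoint S := fun i _ j _ hij => h hij
  rw [ENNReal.tsum_biUnion (f := fun _ => (1 : ℝ≥0∞)) h1]
  refine tsum_congr fun i => ?_
  rw [ENNReal.tsum_set_one]

lemma crd_image {α β : Type*} {f : α → β} {s : Set α} (h : InjOn f s) :
    crd (f '' s) = crd s := by
  unfold crd
  rw [h.encard_image]

lemma pieces (F : E4 → E4) (R : Set E4) (hR : IsOpen R) (hF : ContDiffOn ℝ ∞ F R)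
    (hd : ∀ x ∈ R, (fderiv ℝ F x).det ≠ 0) (A : Set E4) (hA : MeasurableSet A) (hAR : A ⊆ R) :
    ∃ D : ℕ → Set E4, (∀ i, MeasurableSet (D i)) ∧ (∀ i, InjOn F (D i)) ∧
      Pairwise (Function.onFun Disjoint D) ∧ ⋃ i, D i = A := by
  classical
  have hloc : ∀ x ∈ R, ∃ W : Set E4, IsOpen W ∧ x ∈ W ∧ W ⊆ R ∧ InjOn F W := by
    intro x hx
    have h1 : ContDiffAt ℝ ∞ F x := hF.contDiffAt (hR.mem_nhds hx)
    have h2 : ContDiffAt ℝ 1 F x := h1.of_le (by exact_mod_cast le_top)
    have h3 : HasStrictFDerivAt F (fderiv ℝ F x) x := h2.hasStrictFDerivAt (by norm_num)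
    let e : E4 ≃L[ℝ] E4 := (fderiv ℝ F x).toContinuousLinearEquivOfDetNeZero (hd x hx)
    have he : (e : E4 →L[ℝ] E4) = fderiv ℝ F x := by
      ext1 v
      rfl
    have h5 : HasStrictFDerivAt F (e : E4 →L[ℝ] E4) x := by rw [he]; exact h3
    let p := h5.toOpenPartialHomeomorph F
    refine ⟨p.source ∩ R, p.open_source.inter hR, ⟨h5.mem_toOpenPartialHomeomorph_source, hx⟩,
      inter_subset_right, ?_⟩
    have h6 : InjOn p p.source := p.injOn
    exact fun a ha b hb hab => h6 ha.1 hb.1 hab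
  choose! W hWo hxW hWR hWi using hloc
  obtain ⟨t, htR, htc, htU⟩ := TopologicalSpace.countable_cover_nhdsWithin
    (f := W) (s := R) (fun x hx => mem_nhdsWithin_of_mem_nhds ((hWo x hx).mem_nhds (hxW x hx)))
  rcases t.eq_empty_or_nonempty with he | hne
  · have hRe : R = ∅ := by
      rw [he] at htU
      simpa using htU
    have hAe : A = ∅ := by
      rw [hRe] at hAR
      exact subset_empty_iff.mp hAR
    refine ⟨fun _ => ∅, fun _ => MeasurableSet.empty, fun _ => injOn_empty _, ?_, by simp [hAe]⟩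
    intro i j _
    simp [Function.onFun]
  obtain ⟨f, hf⟩ := htc.exists_eq_range hne
  let O : ℕ → Set E4 := fun i => W (f i)
  have hfR : ∀ i, f i ∈ R := fun i => htR (by rw [hf]; exact mem_range_self i)
  have hOo : ∀ i, IsOpen (O i) := fun i => hWo _ (hfR i)
  have hOi : ∀ i, InjOn F (O i) := fun i => hWi _ (hfR i)
  have hcov : R ⊆ ⋃ i, O i := by
    intro x hx
    obtain ⟨y, hy, hxy⟩ := mem_iUnion₂.mp (htU hx)
    rw [hf] at hy
    obtain ⟨i, rfl⟩ := hy
    exact mem_iUnion.mpr ⟨i, hxy⟩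
  refine ⟨fun i => A ∩ disjointed O i, fun i =>
    hA.inter (MeasurableSet.disjointed (fun j => (hOo j).measurableSet) i), fun i =>
    (hOi i).mono (inter_subset_right.trans (disjointed_subset O i)), fun i j hij =>
    (disjoint_disjointed O hij).mono inter_subset_right inter_subset_right, ?_⟩
  rw [← inter_iUnion, iUnion_disjointed]
  exact inter_eq_left.mpr (hAR.trans hcov)

lemma crd_piece {F : E4 → E4} {D : Set E4} (h : InjOn F D) (y : E4) :
    crd {x | x ∈ D ∧ F x = y} = (F '' D).indicator (fun _ => (1 : ℝ≥0∞)) y := by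
  by_cases hy : y ∈ F '' D
  · rw [indicator_of_mem hy]
    obtain ⟨x, hx, rfl⟩ := hy
    have : {x' | x' ∈ D ∧ F x' = F x} = {x} := by
      ext x'
      simp only [mem_ofPred_eq, mem_singleton_iff]
      exact ⟨fun h' => h h'.1 hx h'.2, fun h' => by rw [h']; exact ⟨hx, rfl⟩⟩
    rw [this]
    unfold crd
    simp
  · rw [indicator_of_notMem hy]
    have : {x' | x' ∈ D ∧ F x' = y} = ∅ := by
      ext x'
      simp only [mem_ofPred_eq, mem_empty_iff_false, iff_false]
      exact fun h' => hy ⟨x', h'.1, h'.2⟩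
    rw [this]
    unfold crd
    simp

theorem area (F : E4 → E4) (R : Set E4) (hR : IsOpen R) (hF : ContDiffOn ℝ ∞ F R)
    (hd : ∀ x ∈ R, (fderiv ℝ F x).det ≠ 0) (A : Set E4) (hA : MeasurableSet A) (hAR : A ⊆ R) :
    Measurable (fun y => crd {x | x ∈ A ∧ F x = y}) ∧
    ∀ B : Set E4, MeasurableSet B → MeasurableSet (A ∩ F ⁻¹' B) ∧
      ∫⁻ y in B, crd {x | x ∈ A ∧ F x = y} =
      ∫⁻ x in A ∩ F ⁻¹' B, ENNReal.ofReal |(fderiv ℝ F x).det| := by
  obtain ⟨D, hDm, hDi, hDd, hDU⟩ := pieces F R hR hF hd A hA hAR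
  have hDA : ∀ i, D i ⊆ A := fun i => by rw [← hDU]; exact subset_iUnion D i
  have hcont : ∀ i, ContinuousOn F (D i) := fun i => hF.continuousOn.mono ((hDA i).trans hAR)
  have hFm : ∀ i, MeasurableSet (F '' D i) := fun i =>
    (hDm i).image_of_continuousOn_injOn (hcont i) (hDi i)
  have hfun : (fun y => crd {x | x ∈ A ∧ F x = y}) =
      fun y => ∑' i, (F '' D i).indicator (fun _ => (1 : ℝ≥0∞)) y := by
    funext y
    have h1 : {x | x ∈ A ∧ F x = y} = ⋃ i, {x | x ∈ D i ∧ F x = y} := by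
      ext x
      simp only [← hDU, mem_ofPred_eq, mem_iUnion]
      constructor
      · rintro ⟨⟨i, hi⟩, h⟩
        exact ⟨i, hi, h⟩
      · rintro ⟨i, hi, h⟩
        exact ⟨⟨i, hi⟩, h⟩
    rw [h1, crd_iUnion]
    · exact tsum_congr fun i => crd_piece (hDi i) y
    · intro i j hij
      refine Set.disjoint_left.2 fun x hx hx' => ?_
      exact Set.disjoint_left.1 (hDd hij) hx.1 hx'.1
  refine ⟨?_, fun B hB => ?_⟩
  · rw [hfun]
    exact Measurable.ennreal_tsum fun i => measurable_const.indicator (hFm i)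
  · have hmi : ∀ i, MeasurableSet (D i ∩ F ⁻¹' B) := by
      intro i
      have h1 : MeasurableSet ((D i).restrict F ⁻¹' B) :=
        (continuousOn_iff_continuous_restrict.1 (hcont i)).measurable hB
      have h2 := (hDm i).subtype_image h1
      convert h2 using 1
      ext x
      simp only [mem_inter_iff, mem_preimage, mem_image, Subtype.exists, exists_and_right,
        exists_eq_right]
      constructor
      · rintro ⟨a, b⟩
        exact ⟨a, b⟩
      · rintro ⟨a, b⟩
        exact ⟨a, b⟩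
    have hun : ⋃ i, D i ∩ F ⁻¹' B = A ∩ F ⁻¹' B := by
      rw [← iUnion_inter, hDU]
    refine ⟨by rw [← hun]; exact MeasurableSet.iUnion hmi, ?_⟩
    rw [hfun, lintegral_tsum (fun i => (measurable_const.indicator (hFm i)).aemeasurable), ← hun,
      lintegral_iUnion hmi]
    · refine tsum_congr fun i => ?_
      rw [lintegral_indicator (hFm i)]
      simp only [lintegral_const, one_mul, Measure.restrict_apply MeasurableSet.univ, univ_inter]
      rw [Measure.restrict_apply (hFm i), ← image_inter_preimage]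
      symm
      refine lintegral_abs_det_fderiv_eq_addHaar_image volume (hmi i) (fun x hx => ?_)
        ((hDi i).mono inter_subset_left)
      have h1 : ContDiffAt ℝ ∞ F x := hF.contDiffAt (hR.mem_nhds (hAR (hDA i hx.1)))
      exact (h1.differentiableAt (by simp)).hasFDerivAt.hasFDerivWithinAt
    · intro i j hij
      exact (hDd hij).mono inter_subset_left inter_subset_left

/-- directions -/
noncomputable def pole : sphere (0 : E4) 1 :=
  ⟨EuclideanSpace.single 0 1, by simp⟩

open Classical in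
noncomputable def dirS (y : E4) : sphere (0 : E4) 1 :=
  if h : y ≠ 0 then ⟨‖y‖⁻¹ • y, by
    simp [norm_smul, norm_ne_zero_iff.2 h]⟩ else pole

lemma dirS_val {y : E4} (h : y ≠ 0) : ((dirS y : sphere (0 : E4) 1) : E4) = ‖y‖⁻¹ • y := by
  unfold dirS
  rw [dif_pos h]

lemma dirS_smul {r : ℝ} (hr : 0 < r) (ξ : sphere (0 : E4) 1) : dirS (r • (ξ : E4)) = ξ := by
  have h1 : ‖(ξ : E4)‖ = 1 := by simp
  have h0 : r • (ξ : E4) ≠ 0 := by
    intro h
    have := congrArg norm h
    rw [norm_smul, h1, Real.norm_eq_abs, abs_of_pos hr] at this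
    simp at this
    linarith
  apply Subtype.ext
  rw [dirS_val h0, norm_smul, h1, Real.norm_eq_abs, abs_of_pos hr, mul_one, smul_smul,
    inv_mul_cancel₀ hr.ne', one_smul]

lemma measurable_dirS : Measurable dirS := by
  classical
  have h1 : Measurable (fun y : E4 => ((dirS y : sphere (0 : E4) 1) : E4)) := by
    have : (fun y : E4 => ((dirS y : sphere (0 : E4) 1) : E4)) =
        fun y => if y = 0 then (pole : E4) else ‖y‖⁻¹ • y := by
      funext y
      by_cases h : y = 0
      · rw [if_pos h]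
        unfold dirS
        rw [dif_neg (by simpa using h)]
      · rw [if_neg h, dirS_val h]
    rw [this]
    exact Measurable.ite (measurableSet_singleton _) measurable_const
      ((measurable_norm.inv).smul measurable_id)
  exact Measurable.subtype_mk (f := fun y : E4 => ((dirS y : sphere (0 : E4) 1) : E4)) h1

/-- the cone measure is the surface measure -/
lemma toSphere_eq : (volume : Measure E4).toSphere =
    (4 : ℝ≥0∞) • Measure.map dirS (volume.restrict {y : E4 | 0 < ‖y‖ ∧ ‖y‖ < 1}) := by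
  ext S hS
  rw [Measure.toSphere_apply' _ hS, Measure.smul_apply, Measure.map_apply measurable_dirS hS,
    Measure.restrict_apply (measurable_dirS hS)]
  have hfr : Module.finrank ℝ E4 = 4 := by simp
  rw [hfr, smul_eq_mul]
  congr 2
  ext y
  simp only [Set.mem_smul, mem_image, mem_inter_iff, mem_preimage, mem_ofPred_eq]
  constructor
  · rintro ⟨r, hr, _, ⟨ξ, hξ, rfl⟩, rfl⟩
    have h1 : ‖(ξ : E4)‖ = 1 := by simp
    refine ⟨by rw [dirS_smul hr.1]; exact hξ, ?_, ?_⟩
    · rw [norm_smul, h1, Real.norm_eq_abs, abs_of_pos hr.1, mul_one]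
      exact hr.1
    · rw [norm_smul, h1, Real.norm_eq_abs, abs_of_pos hr.1, mul_one]
      exact hr.2
  · rintro ⟨h1, h2, h3⟩
    have h0 : y ≠ 0 := norm_pos_iff.1 h2
    refine ⟨‖y‖, ⟨h2, h3⟩, _, ⟨dirS y, h1, rfl⟩, ?_⟩
    show ‖y‖ • ((dirS y : sphere (0 : E4) 1) : E4) = y
    rw [dirS_val h0, smul_smul, mul_inv_cancel₀ h2.ne', one_smul]

lemma lintegral_sphere {g : sphere (0 : E4) 1 → ℝ≥0∞} (hg : Measurable g)
    {S : Set (sphere (0 : E4) 1)} (hS : MeasurableSet S) :
    ∫⁻ ξ in S, g ξ ∂(volume : Measure E4).toSphere =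
      4 * ∫⁻ y in {y : E4 | (0 < ‖y‖ ∧ ‖y‖ < 1) ∧ dirS y ∈ S}, g (dirS y) := by
  rw [← lintegral_indicator hS, toSphere_eq, lintegral_smul_measure,
    lintegral_map (hg.indicator hS) measurable_dirS, smul_eq_mul]
  congr 1
  have h1 : MeasurableSet {y : E4 | dirS y ∈ S} := measurable_dirS hS
  have h2 : (fun y => S.indicator g (dirS y)) =
      {y : E4 | dirS y ∈ S}.indicator (fun y => g (dirS y)) := by
    funext y
    by_cases h : dirS y ∈ S
    · rw [indicator_of_mem h, indicator_of_mem (by exact h)]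
    · rw [indicator_of_notMem h, indicator_of_notMem (by exact h)]
  rw [h2, lintegral_indicator h1, Measure.restrict_restrict h1]
  congr 2
  ext y
  simp only [mem_inter_iff, mem_ofPred_eq]
  tauto

/-- sets with null cone are null -/
lemma null_of_cone (N : Set (sphere (0 : E4) 1))
    (h : volume {y : E4 | ∃ r : ℝ, 0 < r ∧ ∃ ξ ∈ N, y = r • (ξ : E4)} = 0) :
    (volume : Measure E4).toSphere N = 0 := by
  set T := toMeasurable volume {y : E4 | ∃ r : ℝ, 0 < r ∧ ∃ ξ ∈ N, y = r • (ξ : E4)} with hT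
  have hTm : MeasurableSet T := measurableSet_toMeasurable _ _
  have hT0 : volume T = 0 := by rw [hT, measure_toMeasurable, h]
  have hsub := subset_toMeasurable volume {y : E4 | ∃ r : ℝ, 0 < r ∧ ∃ ξ ∈ N, y = r • (ξ : E4)}
  have hmp := (volume : Measure E4).measurePreserving_homeomorphUnitSphereProd
  set e := homeomorphUnitSphereProd E4 with he
  set T2 : Set (sphere (0 : E4) 1 × Ioi (0 : ℝ)) := {p | (p.2 : ℝ) • (p.1 : E4) ∈ T} with hT2
  have hT2m : MeasurableSet T2 := by
    have h1 : Measurable fun p : sphere (0 : E4) 1 × Ioi (0 : ℝ) => (p.2 : ℝ) • (p.1 : E4) :=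
      (measurable_subtype_coe.comp measurable_snd).smul (measurable_subtype_coe.comp measurable_fst)
    exact h1 hTm
  have h2 : ((volume : Measure E4).toSphere.prod
      (Measure.volumeIoiPow (Module.finrank ℝ E4 - 1))) T2 = 0 := by
    rw [← hmp.map_eq, Measure.map_apply e.measurable hT2m]
    have h3 : Subtype.val '' (e ⁻¹' T2) ⊆ T := by
      rintro _ ⟨y, hy, rfl⟩
      have h4 : ((e y).2 : ℝ) • ((e y).1 : E4) ∈ T := hy
      have h5 : ((e y).2 : ℝ) • ((e y).1 : E4) = (y : E4) := by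
        have hy0 : ‖(y : E4)‖ ≠ 0 := norm_ne_zero_iff.2 y.2
        simp only [he, homeomorphUnitSphereProd_apply_fst_coe, homeomorphUnitSphereProd_apply_snd_coe]
        rw [smul_smul, mul_inv_cancel₀ hy0, one_smul]
      rwa [h5] at h4
    rw [(MeasurableEmbedding.subtype_coe (measurableSet_singleton _).compl).comap_apply]
    exact measure_mono_null h3 hT0
  rw [Measure.measure_prod_null hT2m] at h2
  have h3 : N ⊆ {ξ | ¬ (fun x => (Measure.volumeIoiPow (Module.finrank ℝ E4 - 1))
      (Prod.mk x ⁻¹' T2)) ξ = (0 : sphere (0 : E4) 1 → ℝ≥0∞) ξ} := by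
    intro ξ hξ h4
    have h5 : Prod.mk ξ ⁻¹' T2 = univ := by
      rw [eq_univ_iff_forall]
      intro r
      exact hsub ⟨r, r.2, ξ, hξ, rfl⟩
    simp only [h5, Pi.zero_apply] at h4
    have h6 := Measure.volumeIoiPow_apply_Iio (Module.finrank ℝ E4 - 1) ⟨1, mem_Ioi.2 one_pos⟩
    have h7 : (Measure.volumeIoiPow (Module.finrank ℝ E4 - 1)) (Iio ⟨1, mem_Ioi.2 one_pos⟩) = 0 :=
      measure_mono_null (subset_univ _) h4
    rw [h7] at h6
    have h8 := ENNReal.ofReal_eq_zero.1 h6.symm
    have : (0 : ℝ) < (1 : ℝ) ^ (Module.finrank ℝ E4 - 1 + 1) / ((Module.finrank ℝ E4 - 1 : ℕ) + 1) := by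
      positivity
    exact absurd h8 (not_le.2 this)
  exact measure_mono_null h3 h2

end Pool.Agent.H55HC
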