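import Pool.Agent.H55HC.Area

/-!
Fibres of the map to the points at infinity; localised curvature.
-/

set_option autoImplicit false

namespace Pool.Agent.H55HC

open Pool.Agent.Y503.RB
open scoped ContDiff RealInnerProductSpace ENNReal Topology
open MeasureTheory Set Metric Filter

/-- The inner normals over `A` with point at infinity `ξ`. -/
def inn (φ : ℂ → E4) (A : Set ℂ) (ξ : E4) : Set (ℂ × E4) :=
  {p | p.1 ∈ A ∧ ‖p.2‖ = 1 ∧ (∀ v : ℂ, ⟪p.2, d1 φ v p.1⟫ = 0) ∧ Inner φ p.2 p.1 ∧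
    foot (φ p.1) p.2 = ξ}

/-- Density towards `E`. -/
noncomputable def densTo (φ : ℂ → E4) (E : Set E4) (n : E4) (z : ℂ) : ℝ≥0∞ :=
  E.indicator (fun _ => ENNReal.ofReal (dens φ n z)) (foot (φ z) n)

/-- Horospherical curvature towards `E`. -/
noncomputable def curvTo (φ : ℂ → E4) (E : Set E4) (z : ℂ) : ℝ≥0∞ :=
  ⨆ (L : ℂ →ₗᵢ[ℝ] E4) (_ : ∀ w v : ℂ, ⟪L w, d1 φ v z⟫ = 0),
    ∫⁻ θ in Ico 0 (2 * Real.pi), densTo φ E (L ⟨Real.cos θ, Real.sin θ⟩) z

lemma curvTo_univ (φ : ℂ → E4) (z : ℂ) : curvTo φ univ z = curvAt φ z := by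
  unfold curvTo curvAt densTo
  simp only [indicator_univ]

/-- The integral does not depend on the isometric parametrisation of the normal plane. -/
theorem indL {φ N₁ N₂ : ℂ → E4} {U : Set ℂ} (hp : Patch φ U) (hfr : Frame φ N₁ N₂ U) {z : ℂ}
    (hz : z ∈ U) (E : Set E4) (L : ℂ →ₗᵢ[ℝ] E4) (hL : ∀ w v : ℂ, ⟪L w, d1 φ v z⟫ = (0 : ℝ)) :
    ∫⁻ θ in Ico 0 (2 * Real.pi), densTo φ E (L ⟨Real.cos θ, Real.sin θ⟩) z =
      ∫⁻ θ in Ico 0 (2 * Real.pi), densTo φ E (nor N₁ N₂ θ z) z := by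
  have u1 := hfr.unit₁ z hz
  have u2 := hfr.unit₂ z hz
  have o := hfr.orth z hz
  have i11 : ⟪N₁ z, N₁ z⟫ = (1 : ℝ) := by rw [real_inner_self_eq_norm_sq, u1]; norm_num
  have i22 : ⟪N₂ z, N₂ z⟫ = (1 : ℝ) := by rw [real_inner_self_eq_norm_sq, u2]; norm_num
  have o' : ⟪N₂ z, N₁ z⟫ = (0 : ℝ) := by rw [real_inner_comm]; exact o
  obtain ⟨a, -, ha⟩ := Pool.Agent.Y977.RB.frame φ N₁ N₂ U hp hfr z hz (L 1)
    (by rw [L.norm_map]; exact norm_one) (hL 1)
  obtain ⟨b, -, hb⟩ := Pool.Agent.Y977.RB.frame φ N₁ N₂ U hp hfr z hz (L Complex.I)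
    (by rw [L.norm_map]; exact Complex.norm_I) (hL Complex.I)
  have h0 : ⟪L 1, L Complex.I⟫ = (0 : ℝ) := by
    rw [L.inner_map_map]
    simp [Complex.inner]
  have h1 : Real.cos a * Real.cos b + Real.sin a * Real.sin b = 0 := by
    rw [ha, hb] at h0
    simp only [nor, inner_add_left, inner_add_right, real_inner_smul_left,
      real_inner_smul_right, i11, i22, o, o'] at h0
    linarith
  have hLt : ∀ t : ℝ, L ⟨Real.cos t, Real.sin t⟩ =
      (Real.cos t * Real.cos a + Real.sin t * Real.cos b) • N₁ z +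
        (Real.cos t * Real.sin a + Real.sin t * Real.sin b) • N₂ z := by
    intro t
    have h2 : ∀ x y : ℝ, (⟨x, y⟩ : ℂ) = x • (1 : ℂ) + y • Complex.I := by
      intro x y
      apply Complex.ext <;> simp
    rw [h2, L.map_add, L.map_smul, L.map_smul, ha, hb]
    simp only [nor, smul_add, smul_smul, add_smul]
    abel
  obtain ⟨f, hf⟩ : ∃ f : ℝ → ℝ≥0∞, f = fun t => densTo φ E (nor N₁ N₂ t z) z :=
    ⟨_, rfl⟩
  have hper : Function.Periodic f (2 * Real.pi) := by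
    intro t
    rw [hf]
    simp only [nor, Real.cos_add_two_pi, Real.sin_add_two_pi]
  have hca := Real.sin_sq_add_cos_sq a
  have hcb := Real.sin_sq_add_cos_sq b
  have hs : (Real.cos b = -Real.sin a ∧ Real.sin b = Real.cos a) ∨
      (Real.cos b = Real.sin a ∧ Real.sin b = -Real.cos a) := by
    obtain ⟨s, hs⟩ : ∃ s, s = Real.cos a * Real.sin b - Real.sin a * Real.cos b := ⟨_, rfl⟩
    have e1 : Real.cos b = -(s * Real.sin a) := by
      rw [hs]
      linear_combination (-Real.cos b) * hca + Real.cos a * h1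
    have e2 : Real.sin b = s * Real.cos a := by
      rw [hs]
      linear_combination (-Real.sin b) * hca + Real.sin a * h1
    have e3 : s ^ 2 = 1 := by
      have : s ^ 2 * (Real.sin a ^ 2 + Real.cos a ^ 2) = 1 := by
        rw [← hcb, e1, e2]
        ring
      rwa [hca, mul_one] at this
    rcases mul_self_eq_one_iff.1 ((sq s).symm.trans e3) with h | h
    · left
      rw [h] at e1 e2
      exact ⟨by linarith, by linarith⟩
    · right
      rw [h] at e1 e2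
      exact ⟨by linarith, by linarith⟩
  rcases hs with ⟨h2, h3⟩ | ⟨h2, h3⟩
  · have h4 : (fun t : ℝ => densTo φ E (L ⟨Real.cos t, Real.sin t⟩) z) =
        fun t => f (t + a) := by
      funext t
      rw [hLt, hf, h2, h3]
      simp only [nor, Real.cos_add, Real.sin_add]
      congr 3
      · ring_nf
      · ring_nf
    rw [h4, Pool.Agent.Y429.RB.lper1 hper, hf]
  · have h4 : (fun t : ℝ => densTo φ E (L ⟨Real.cos t, Real.sin t⟩) z) =
        fun t => f (-t + a) := by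
      funext t
      rw [hLt, hf, h2, h3]
      simp only [nor, Real.cos_add, Real.sin_add, Real.cos_neg, Real.sin_neg]
      congr 3
      · ring_nf
      · ring_nf
    rw [h4, Pool.Agent.Y429.RB.lper2 hper, hf]

/-- frames -/
theorem ind {φ N₁ N₂ : ℂ → E4} {U : Set ℂ} (hp : Patch φ U) (hfr : Frame φ N₁ N₂ U) {z : ℂ}
    (hz : z ∈ U) (E : Set E4) :
    ∫⁻ θ in Ico 0 (2 * Real.pi), densTo φ E (nor N₁ N₂ θ z) z = curvTo φ E z := by
  have u1 := hfr.unit₁ z hz
  have u2 := hfr.unit₂ z hz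
  have o := hfr.orth z hz
  have o1 := hfr.norm₁ z hz
  have o2 := hfr.norm₂ z hz
  have i11 : ⟪N₁ z, N₁ z⟫ = (1 : ℝ) := by rw [real_inner_self_eq_norm_sq, u1]; norm_num
  have i22 : ⟪N₂ z, N₂ z⟫ = (1 : ℝ) := by rw [real_inner_self_eq_norm_sq, u2]; norm_num
  have o' : ⟪N₂ z, N₁ z⟫ = (0 : ℝ) := by rw [real_inner_comm]; exact o
  apply le_antisymm
  · let L0 : ℂ →ₗᵢ[ℝ] E4 :=
      { toFun := fun w => w.re • N₁ z + w.im • N₂ z
        map_add' := by
          intro a b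
          simp only [Complex.add_re, Complex.add_im, add_smul]
          abel
        map_smul' := by
          intro r a
          simp only [Complex.real_smul, Complex.mul_re, Complex.mul_im, Complex.ofReal_re,
            Complex.ofReal_im, zero_mul, sub_zero, add_zero, RingHom.id_apply, smul_add,
            smul_smul]
        norm_map' := by
          intro w
          have h1 : ‖w.re • N₁ z + w.im • N₂ z‖ ^ 2 = ‖w‖ ^ 2 := by
            rw [← real_inner_self_eq_norm_sq, ← Complex.normSq_eq_norm_sq, Complex.normSq_apply]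
            simp only [inner_add_left, inner_add_right, real_inner_smul_left,
              real_inner_smul_right, i11, i22, o, o']
            ring
          exact (sq_eq_sq₀ (norm_nonneg _) (norm_nonneg _)).1 h1 }
    have hL0 : ∀ w v : ℂ, ⟪L0 w, d1 φ v z⟫ = (0 : ℝ) := by
      intro w v
      show ⟪w.re • N₁ z + w.im • N₂ z, d1 φ v z⟫ = (0 : ℝ)
      rw [inner_add_left, real_inner_smul_left, real_inner_smul_left, o1, o2]
      ring
    exact le_iSup₂_of_le L0 hL0 le_rfl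
  · exact iSup₂_le fun L hL => le_of_eq (indL hp hfr hz E L hL)

/-- the angle is determined by the normal vector -/
lemma nor_inj {φ N₁ N₂ : ℂ → E4} {U : Set ℂ} (hfr : Frame φ N₁ N₂ U) {z : ℂ} (hz : z ∈ U)
    {a b : ℝ} (ha : a ∈ Ico 0 (2 * Real.pi)) (hb : b ∈ Ico 0 (2 * Real.pi))
    (h : nor N₁ N₂ a z = nor N₁ N₂ b z) : a = b := by
  have u1 := hfr.unit₁ z hz
  have u2 := hfr.unit₂ z hz
  have o := hfr.orth z hz
  have i11 : ⟪N₁ z, N₁ z⟫ = (1 : ℝ) := by rw [real_inner_self_eq_norm_sq, u1]; norm_num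
  have i22 : ⟪N₂ z, N₂ z⟫ = (1 : ℝ) := by rw [real_inner_self_eq_norm_sq, u2]; norm_num
  have o' : ⟪N₂ z, N₁ z⟫ = (0 : ℝ) := by rw [real_inner_comm]; exact o
  have hc : Real.cos a = Real.cos b := by
    have := congrArg (fun w => ⟪w, N₁ z⟫) h
    simp only [nor, inner_add_left, real_inner_smul_left, i11, o'] at this
    linarith
  have hs : Real.sin a = Real.sin b := by
    have := congrArg (fun w => ⟪w, N₂ z⟫) h
    simp only [nor, inner_add_left, real_inner_smul_left, i22, o] at this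
    linarith
  have h1 : ((a : Real.Angle)) = (b : Real.Angle) := Real.Angle.cos_sin_inj hc hs
  rw [Real.Angle.angle_eq_iff_two_pi_dvd_sub] at h1
  obtain ⟨k, hk⟩ := h1
  have hpi := Real.two_pi_pos
  have h2 : |(k : ℝ)| < 1 := by
    rw [abs_lt]
    have h3 : -(2 * Real.pi) < 2 * Real.pi * k := by
      rw [← hk]; linarith [ha.1, hb.2]
    have h4 : 2 * Real.pi * k < 2 * Real.pi := by
      rw [← hk]; linarith [ha.2, hb.1]
    constructor <;> nlinarith
  have h3 : k = 0 := by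
    have : |k| < 1 := by exact_mod_cast h2
    exact Int.abs_lt_one_iff.1 this
  rw [h3] at hk
  simp at hk
  linarith

/-- The domain over `A`. -/
def dom4 (φ N₁ N₂ : ℂ → E4) (U A : Set ℂ) : Set E4 :=
  {x : E4 | x ∈ region φ N₁ N₂ U ∧ zc x ∈ A ∧ x 2 ∈ Ico 0 (2 * Real.pi)}

lemma ext4 {x y : E4} (h1 : zc x = zc y) (h2 : x 2 = y 2) (h3 : x 3 = y 3) : x = y := by
  ext i
  fin_cases i
  · exact congrArg Complex.re h1
  · exact congrArg Complex.im h1
  · exact h2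
  · exact h3

theorem fibre {φ N₁ N₂ : ℂ → E4} {U A : Set ℂ} (hP : Patch φ U) (hF : Frame φ N₁ N₂ U)
    (hAU : A ⊆ U) {y : E4} (hy0 : 0 < ‖y‖) (hy1 : ‖y‖ < 1) :
    crd {x | x ∈ dom4 φ N₁ N₂ U A ∧ cmap φ N₁ N₂ x = y} = crd (inn φ A (‖y‖⁻¹ • y)) := by
  have key : ∀ x : E4, x ∈ dom4 φ N₁ N₂ U A → cmap φ N₁ N₂ x = y →
      x 3 = ‖y‖ ∧ foot (φ (zc x)) (nor N₁ N₂ (x 2) (zc x)) = ‖y‖⁻¹ • y := by
    intro x hx hxy
    obtain ⟨-, -, -, -, hG, -⟩ := Pool.Agent.Y692.RB.dg φ N₁ N₂ U hP hF (x 2) (zc x) hx.1.1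
    have h3 := hx.1.2.2
    have h1 : ‖y‖ = x 3 := by
      rw [← hxy]
      unfold cmap
      rw [norm_smul, hG, mul_one, Real.norm_eq_abs, abs_of_pos h3.1]
    refine ⟨h1.symm, ?_⟩
    rw [h1, ← hxy]
    unfold cmap
    rw [smul_smul, inv_mul_cancel₀ h3.1.ne', one_smul]
    rfl
  have hinj : InjOn (fun x : E4 => (zc x, nor N₁ N₂ (x 2) (zc x)))
      {x | x ∈ dom4 φ N₁ N₂ U A ∧ cmap φ N₁ N₂ x = y} := by
    intro a ha b hb hab
    have h1 : zc a = zc b := congrArg Prod.fst hab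
    have h2 : nor N₁ N₂ (a 2) (zc a) = nor N₁ N₂ (b 2) (zc b) := congrArg Prod.snd hab
    rw [← h1] at h2
    refine ext4 h1 (nor_inj hF ha.1.1.1 ha.1.2.2 hb.1.2.2 h2) ?_
    rw [(key a ha.1 ha.2).1, (key b hb.1 hb.2).1]
  rw [← crd_image hinj]
  congr 1
  ext p
  constructor
  · rintro ⟨x, hx, rfl⟩
    obtain ⟨-, hn, -, -, -, -, -, hper, -⟩ :=
      Pool.Agent.Y692.RB.dg φ N₁ N₂ U hP hF (x 2) (zc x) hx.1.1.1
    exact ⟨hx.1.2.1, hn, fun v => (hper v).1, hx.1.1.2.1, (key x hx.1 hx.2).2⟩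
  · rintro ⟨h1, h2, h3, h4, h5⟩
    obtain ⟨θ, hθ, hn⟩ := Pool.Agent.Y977.RB.frame φ N₁ N₂ U hP hF p.1 (hAU h1) p.2 h2 h3
    refine ⟨mk4 p.1 θ ‖y‖, ⟨⟨⟨by simpa using hAU h1, by simpa [← hn] using h4, ?_⟩, by simpa using h1,
      by simpa using hθ⟩, ?_⟩, ?_⟩
    · rw [mk4_three]
      exact ⟨hy0, hy1⟩
    · simp only [cmap, gmap, mk4_zc, mk4_two, mk4_three]
      rw [← hn, h5, smul_smul, mul_inv_cancel₀ hy0.ne', one_smul]
    · simp only [mk4_zc, mk4_two]
      rw [← hn]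

end Pool.Agent.H55HC
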