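import Pool.Agent.H55HC.Gen

/-!
The theorems on slice discs.
-/

set_option autoImplicit false

namespace Pool.Agent.H55HC

open Pool.Agent.Y503.RB
open scoped ContDiff RealInnerProductSpace ENNReal Topology
open MeasureTheory Set Metric Filter

/-- all parametrisations of the circle of unit normals give the same integral -/
theorem param {φ : ℂ → E4} {U : Set ℂ} (hP : Patch φ U) {z : ℂ} (hz : z ∈ U) (E : Set E4)
    (L : ℂ →ₗᵢ[ℝ] E4) (hL : ∀ w v : ℂ, ⟪L w, d1 φ v z⟫ = (0 : ℝ)) :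
    ∫⁻ θ in Ico 0 (2 * Real.pi), densTo φ E (L ⟨Real.cos θ, Real.sin θ⟩) z = curvTo φ E z := by
  obtain ⟨U', hU', hz', ho, N₁, N₂, hF⟩ := Pool.Agent.Y297.RB.lf φ U hP z hz
  have hP' := Pool.Agent.Y232.RB.Ref.patch_mono hP hU' ho
  rw [indL hP' hF hz' E L hL, ind hP' hF hz' E]

/-- the set of points at infinity of inner normals is empty if it is a null set -/
theorem empty_of_ae {φ : ℂ → E4} {U : Set ℂ} (hP : Patch φ U)
    (h : ∫⁻ z in U, curvTo φ univ z = 0) (ξ : E4) : inn φ U ξ = ∅ := by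
  by_contra hne
  obtain ⟨p, h1, h2, h3, h4, h5⟩ := Set.nonempty_iff_ne_empty.2 hne
  obtain ⟨U', hU', hz', ho, N₁, N₂, hF⟩ := Pool.Agent.Y297.RB.lf φ U hP p.1 h1
  have hP' := Pool.Agent.Y232.RB.Ref.patch_mono hP hU' ho
  obtain ⟨θ, hθ, hn⟩ := Pool.Agent.Y977.RB.frame φ N₁ N₂ U' hP' hF p.1 hz' p.2 h2 h3
  -- the point
  obtain ⟨x, hx⟩ : ∃ x, x = mk4 p.1 θ (1 / 2) := ⟨_, rfl⟩
  have hxr : x ∈ region φ N₁ N₂ U' := by
    rw [hx]
    refine ⟨by simpa using hz', by simpa [← hn] using h4, ?_⟩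
    rw [mk4_three]
    norm_num
  have hRo := isOpen_region Pool.Agent.Y349.RB.cont hP' hF
  have hxU : zc x ∈ U' := hxr.1
  obtain ⟨hsm, hdet⟩ := a_det φ N₁ N₂ U' hP' hF x hxU
  have hdet0 : (fderiv ℝ (cmap φ N₁ N₂) x).det ≠ 0 := by
    intro h0
    rw [h0, abs_zero] at hdet
    have e2 : 0 < |x 3| ^ 3 := by
      have := hxr.2.2.1
      positivity
    obtain ⟨-, -, -, -, -, hρ0, hρ1, -⟩ :=
      Pool.Agent.Y692.RB.dg φ N₁ N₂ U' hP' hF (x 2) (zc x) hxU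
    have e3 : 0 < dens0 φ (nor N₁ N₂ (x 2) (zc x)) (zc x) := by
      have e4 := fffDet_pos (hP'.imm _ hxU)
      have e5 := hxr.2.1.2
      have e6 : 0 < 1 - rad (φ (zc x)) (nor N₁ N₂ (x 2) (zc x)) := by
        simpa using sub_pos.mpr hρ1
      unfold dens0
      have e7 : 0 < |excDet φ (nor N₁ N₂ (x 2) (zc x)) (zc x)| := abs_pos.mpr e5.ne'
      have e8 : 0 < √(fffDet φ (zc x)) := Real.sqrt_pos.mpr e4
      have e9 : 0 < rad (φ (zc x)) (nor N₁ N₂ (x 2) (zc x)) := hρ0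
      positivity
    have := mul_pos e2 e3
    linarith
  have hsm1 : ContDiffAt ℝ 1 (cmap φ N₁ N₂) x := hsm.of_le (by exact_mod_cast le_top)
  have hst : HasStrictFDerivAt (cmap φ N₁ N₂) (fderiv ℝ (cmap φ N₁ N₂) x) x :=
    hsm1.hasStrictFDerivAt (by norm_num)
  let e : E4 ≃L[ℝ] E4 := (fderiv ℝ (cmap φ N₁ N₂) x).toContinuousLinearEquivOfDetNeZero hdet0
  have he : (e : E4 →L[ℝ] E4) = fderiv ℝ (cmap φ N₁ N₂) x := by
    ext1 v
    rfl
  have hst2 : HasStrictFDerivAt (cmap φ N₁ N₂) (e : E4 →L[ℝ] E4) x := by rw [he]; exact hst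
  have hmap : Filter.map (cmap φ N₁ N₂) (𝓝 x) = 𝓝 (cmap φ N₁ N₂ x) := hst2.map_nhds_eq_of_equiv
  have hnh : cmap φ N₁ N₂ '' region φ N₁ N₂ U' ∈ 𝓝 (cmap φ N₁ N₂ x) := by
    rw [← hmap]
    exact image_mem_map (hRo.mem_nhds hxr)
  have hpos : 0 < volume (cmap φ N₁ N₂ '' region φ N₁ N₂ U') :=
    Measure.measure_pos_of_mem_nhds volume hnh
  -- the integral
  obtain ⟨hm1, hm2⟩ := total hP hP.isOpen.measurableSet (subset_refl U)
  have h0 := hm2 univ MeasurableSet.univ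
  rw [h, mul_zero] at h0
  obtain ⟨g, hg⟩ : ∃ g : sphere (0 : E4) 1 → ℝ≥0∞,
      g = fun ξ : sphere (0 : E4) 1 => crd (inn φ U (ξ : E4)) := ⟨_, rfl⟩
  have hgm : Measurable (fun y : E4 => g (dirS y)) := by
    rw [hg]
    exact hm1.comp measurable_dirS
  have h0' : ∫⁻ y in coneB univ, g (dirS y) = 0 := by
    rw [← h0]
    refine setLIntegral_congr_fun (measurableSet_coneB MeasurableSet.univ) fun y hy => ?_
    rw [hg]
    simp only
    rw [dirS_val (norm_pos_iff.1 hy.1.1)]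
  rw [lintegral_eq_zero_iff hgm] at h0'
  have hsub : cmap φ N₁ N₂ '' region φ N₁ N₂ U' ⊆
      {y | ¬ (g (dirS y) = (0 : E4 → ℝ≥0∞) y)} ∩ coneB univ := by
    rintro _ ⟨w, hw, rfl⟩
    obtain ⟨-, hn1, -, -, hG, -, -, hper, -⟩ :=
      Pool.Agent.Y692.RB.dg φ N₁ N₂ U' hP' hF (w 2) (zc w) hw.1
    have hw3 := hw.2.2
    have hnorm : ‖cmap φ N₁ N₂ w‖ = w 3 := by
      unfold cmap
      rw [norm_smul, hG, mul_one, Real.norm_eq_abs, abs_of_pos hw3.1]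
    have hdir : ‖cmap φ N₁ N₂ w‖⁻¹ • cmap φ N₁ N₂ w =
        foot (φ (zc w)) (nor N₁ N₂ (w 2) (zc w)) := by
      rw [hnorm]
      unfold cmap
      rw [smul_smul, inv_mul_cancel₀ hw3.1.ne', one_smul]
      rfl
    have hn0 : 0 < ‖cmap φ N₁ N₂ w‖ := by rw [hnorm]; exact hw3.1
    refine ⟨?_, ⟨hn0, by rw [hnorm]; exact hw3.2⟩, mem_univ _⟩
    show ¬ (g (dirS (cmap φ N₁ N₂ w)) = 0)
    rw [hg]
    simp only
    rw [dirS_val (norm_pos_iff.1 hn0), hdir]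
    unfold crd
    rw [ENat.toENNReal_eq_zero, encard_eq_zero]
    intro hemp
    have : (zc w, nor N₁ N₂ (w 2) (zc w)) ∈
        inn φ U (foot (φ (zc w)) (nor N₁ N₂ (w 2) (zc w))) :=
      ⟨hU' hw.1, hn1, fun v => (hper v).1, hw.2.1, rfl⟩
    rw [hemp] at this
    exact this
  have hzero : volume ({y | ¬ (g (dirS y) = (0 : E4 → ℝ≥0∞) y)} ∩ coneB univ) = 0 := by
    have h6 := ae_iff.1 h0'
    rwa [Measure.restrict_apply₀'
      (measurableSet_coneB MeasurableSet.univ).nullMeasurableSet] at h6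
  exact hpos.ne' (measure_mono_null hsub hzero)

/-- Exists a good point in `E`. -/
theorem local_criterion {φ : ℂ → E4} (h : SliceDisc φ) {E : Set E4} (hE : MeasurableSet E) (m : ℕ)
    (hT : ∫⁻ z in ball (0 : ℂ) 1, curvTo φ E z <
      (m + 1) * (volume : Measure E4).toSphere {ξ : sphere (0 : E4) 1 | (ξ : E4) ∈ E}) :
    ∃ ξ : sphere (0 : E4) 1, (ξ : E4) ∈ E ∧ Generic φ ξ ∧ (inn φ (ball 0 1) (ξ : E4)).encard ≤ m := by
  by_contra hcon
  push Not at hcon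
  have hS : MeasurableSet {ξ : sphere (0 : E4) 1 | (ξ : E4) ∈ E} := measurable_subtype_coe hE
  have h1 := formula h.patch measurableSet_ball (subset_refl _) hE
  rw [← h1] at hT
  refine absurd hT (not_lt.2 ?_)
  rw [← setLIntegral_const]
  refine setLIntegral_mono_ae' hS ?_
  filter_upwards [generic_ae h] with ξ hξ hξE
  have h2 := hcon ξ hξE hξ
  have h3 : ((m : ℕ∞) + 1) ≤ (inn φ (ball 0 1) (ξ : E4)).encard := Order.add_one_le_of_lt h2
  unfold crd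
  have h4 : (((m : ℕ∞) + 1 : ℕ∞) : ℝ≥0∞) ≤ ((inn φ (ball 0 1) (ξ : E4)).encard : ℝ≥0∞) :=
    ENat.toENNReal_le.2 h3
  simpa using h4

lemma Generic.morseDisc {φ : ℂ → E4} {ξ : E4} (h : Generic φ ξ) (m : ℕ) :
    MorseDisc (fun w => push ξ (φ w)) m ↔ (inn φ (ball 0 1) ξ).encard ≤ m := by
  constructor
  · intro hM
    rw [← h.count]
    exact hM.maxima
  · intro hm
    exact ⟨h.morse, by rw [h.count]; exact hm⟩

theorem ribbon_tfae (γ : ℂ → E4) :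
    List.TFAE [
      ∃ φ : ℂ → E4, SliceDisc φ ∧ (∀ z ∈ sphere (0 : ℂ) 1, φ z = γ z) ∧
        (∀ z ∈ closedBall (0 : ℂ) 1, φ z ≠ 0) ∧ MorseDisc φ 0,
      ∃ φ : ℂ → E4, SliceDisc φ ∧ (∀ z ∈ sphere (0 : ℂ) 1, φ z = γ z) ∧
        ∃ E : Set E4, MeasurableSet E ∧ ∫⁻ z in ball (0 : ℂ) 1, curvTo φ E z <
          (volume : Measure E4).toSphere {ξ : sphere (0 : E4) 1 | (ξ : E4) ∈ E},
      ∃ φ : ℂ → E4, SliceDisc φ ∧ (∀ z ∈ sphere (0 : ℂ) 1, φ z = γ z) ∧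
        ¬ ∀ᵐ ξ : sphere (0 : E4) 1 ∂(volume : Measure E4).toSphere,
          (inn φ (ball 0 1) (ξ : E4)).Nonempty,
      ∃ φ : ℂ → E4, SliceDisc φ ∧ (∀ z ∈ sphere (0 : ℂ) 1, φ z = γ z) ∧
        ∀ ξ : E4, inn φ (ball 0 1) ξ = ∅] := by
  have hne0 : (volume : Measure E4).toSphere ≠ 0 := Measure.toSphere_ne_zero _
  tfae_have 1 → 4 := by
    intro h
    obtain ⟨φ, h1, h2, h3⟩ := ((gapDisc γ).out 0 2).1 h
    refine ⟨φ, h1, h2, empty_of_ae h1.patch ?_⟩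
    rw [← h3]
    exact lintegral_congr fun z => curvTo_univ φ z
  tfae_have 4 → 3 := by
    rintro ⟨φ, h1, h2, h3⟩
    refine ⟨φ, h1, h2, fun h4 => ?_⟩
    have h5 : ∀ᵐ ξ : sphere (0 : E4) 1 ∂(volume : Measure E4).toSphere, False := by
      filter_upwards [h4] with ξ hξ
      rw [h3] at hξ
      exact Set.not_nonempty_empty hξ
    have h6 := ae_eq_bot.1 (Filter.eventually_false_iff_eq_bot.1 h5)
    exact hne0 h6
  tfae_have 3 → 1 := by
    rintro ⟨φ, h1, h2, h3⟩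
    have h4 : ∃ ξ : sphere (0 : E4) 1, Generic φ ξ ∧ ¬ (inn φ (ball 0 1) (ξ : E4)).Nonempty := by
      by_contra hcon
      push Not at hcon
      apply h3
      filter_upwards [generic_ae h1] with ξ hξ
      exact hcon ξ hξ
    obtain ⟨ξ, hξ, hξ0⟩ := h4
    have hξ1 : ‖(ξ : E4)‖ = 1 := by simp
    refine ⟨_, hξ.slice, fun z hz => (hξ.bdry z hz).trans (h2 z hz),
      fun z hz => push_ne_zero hξ1 (hξ.miss z hz), (hξ.morseDisc 0).2 ?_⟩
    rw [Set.not_nonempty_iff_eq_empty.1 hξ0]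
    simp
  tfae_have 4 → 2 := by
    rintro ⟨φ, h1, h2, h3⟩
    refine ⟨φ, h1, h2, univ, MeasurableSet.univ, ?_⟩
    rw [← formula h1.patch measurableSet_ball (subset_refl _) MeasurableSet.univ]
    have h4 : ∀ ξ : sphere (0 : E4) 1, crd (inn φ (ball 0 1) (ξ : E4)) = 0 := by
      intro ξ
      rw [h3]
      simp [crd]
    simp only [h4, lintegral_zero]
    simp only [mem_univ]
    have h5 : {ξ : sphere (0 : E4) 1 | True} = univ := by ext; simp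
    rw [h5]
    exact pos_iff_ne_zero.2 (Measure.measure_univ_ne_zero.2 hne0)
  tfae_have 2 → 1 := by
    rintro ⟨φ, h1, h2, E, hE, hT⟩
    obtain ⟨ξ, -, hξ, hξ0⟩ := local_criterion h1 hE 0 (by simpa using hT)
    have hξ1 : ‖(ξ : E4)‖ = 1 := by simp
    exact ⟨_, hξ.slice, fun z hz => (hξ.bdry z hz).trans (h2 z hz),
      fun z hz => push_ne_zero hξ1 (hξ.miss z hz), (hξ.morseDisc 0).2 hξ0⟩
  tfae_finish

end Pool.Agent.H55HC
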