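import Pool.Agent.H55HC.Int

/-!
Generic points at infinity.
-/

set_option autoImplicit false

namespace Pool.Agent.H55HC

open Pool.Agent.Y503.RB
open scoped ContDiff RealInnerProductSpace ENNReal Topology
open MeasureTheory Set Metric Filter

/-- the normal vector is determined by its point at infinity -/
lemma normal_eq {p n : E4} (hp : ‖p‖ < 1) (hn : ‖n‖ = 1) :
    n = ht (foot p n) p • foot p n - (1 + ht (foot p n) p) • p := by
  have hN : 0 < 1 - ‖p‖ ^ 2 := by nlinarith [norm_nonneg p]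
  have hs : |⟪p, n⟫| ≤ ‖p‖ := by
    have := abs_real_inner_le_norm p n
    rwa [hn, mul_one] at this
  have hs1 : 0 < 1 + ⟪p, n⟫ := by
    have := (abs_le.1 hs).1
    linarith
  have hpn : ‖p + n‖ ^ 2 = ‖p‖ ^ 2 + 2 * ⟪p, n⟫ + 1 := by
    rw [norm_add_sq_real, hn]; ring
  have hpn0 : 0 < ‖p + n‖ := by
    have h1 : ‖n‖ - ‖p‖ ≤ ‖n + p‖ := by
      have := norm_sub_norm_le n (-p)
      simpa using this
    rw [add_comm n p, hn] at h1
    linarith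
  have hpn2 : 0 < ‖p‖ ^ 2 + 2 * ⟪p, n⟫ + 1 := by rw [← hpn]; positivity
  obtain ⟨ρ, hρ⟩ : ∃ ρ, ρ = rad p n := ⟨_, rfl⟩
  have h1ρ : 1 - ρ = (‖p‖ ^ 2 + 2 * ⟪p, n⟫ + 1) / (2 * (1 + ⟪p, n⟫)) := by
    rw [hρ]
    unfold rad
    field_simp
    ring
  have h1ρ0 : 0 < 1 - ρ := by rw [h1ρ]; positivity
  have hρ0 : 0 < ρ := by
    rw [hρ]
    unfold rad
    positivity
  obtain ⟨τ, hτ⟩ : ∃ τ, τ = (1 - ρ)⁻¹ * ρ := ⟨_, rfl⟩
  have hτ0 : 0 < τ := by rw [hτ]; positivity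
  have hsub : foot p n - p = τ • (p + n) := by
    unfold foot
    rw [← hρ, hτ]
    have h2 : p = (1 - ρ)⁻¹ • ((1 - ρ) • p) := by
      rw [smul_smul, inv_mul_cancel₀ h1ρ0.ne', one_smul]
    nth_rw 2 [h2]
    rw [← smul_sub, mul_smul]
    congr 1
    rw [sub_smul, one_smul, smul_add]
    abel
  have hτ2 : τ * ‖p + n‖ ^ 2 = 1 - ‖p‖ ^ 2 := by
    rw [hτ, hpn, h1ρ, hρ]
    unfold rad
    field_simp
  have hnorm : ‖p - foot p n‖ ^ 2 = τ * (1 - ‖p‖ ^ 2) := by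
    rw [norm_sub_rev, hsub, norm_smul, mul_pow, Real.norm_eq_abs, sq_abs]
    rw [← hτ2]
    ring
  have ht' : ht (foot p n) p = τ⁻¹ := by
    unfold ht
    rw [hnorm]
    field_simp
  have h3 : ht (foot p n) p • foot p n - (1 + ht (foot p n) p) • p =
      ht (foot p n) p • (foot p n - p) - p := by
    rw [smul_sub, add_smul, one_smul]
    abel
  rw [h3, hsub, ht', smul_smul, inv_mul_cancel₀ hτ0.ne', one_smul]
  abel

lemma foot_inj {p n n' : E4} (hp : ‖p‖ < 1) (hn : ‖n‖ = 1) (hn' : ‖n'‖ = 1)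
    (h : foot p n = foot p n') : n = n' := by
  rw [normal_eq hp hn, normal_eq hp hn', h]

/-- points with a normal vector with point at infinity `ξ` are critical -/
lemma crit_of_foot {φ : ℂ → E4} {z : ℂ} {n ξ : E4} (hξ : ‖ξ‖ = 1) (hφ : ContDiffAt ℝ ∞ φ z)
    (hz : ‖φ z‖ < 1) (hn : ‖n‖ = 1) (hperp : ∀ v : ℂ, ⟪n, d1 φ v z⟫ = 0)
    (hf : foot (φ z) n = ξ) : fderiv ℝ (fun w => ht ξ (φ w)) z = 0 := by
  have hne : φ z ≠ ξ := by
    rintro h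
    rw [h, hξ] at hz
    exact lt_irrefl _ hz
  have hD : 0 < ‖φ z - ξ‖ ^ 2 := pow_pos (norm_pos_iff.2 (sub_ne_zero.2 hne)) 2
  have hψ : ContDiffAt ℝ ∞ (fun w => φ w - ξ) z := hφ.sub contDiffAt_const
  have cN : ContDiffAt ℝ ∞ (fun w => ‖φ w‖ ^ 2) z := hφ.norm_sq ℝ
  have cD : ContDiffAt ℝ ∞ (fun w => ‖φ w - ξ‖ ^ 2) z := hψ.norm_sq ℝ
  have cf : ContDiffAt ℝ ∞ (fun w => ht ξ (φ w)) z :=
    (contDiffAt_const.sub cN).div cD hD.ne'
  have evD : ∀ᶠ w in 𝓝 z, ‖φ w - ξ‖ ^ 2 ≠ 0 := cD.continuousAt.eventually_ne hD.ne'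
  have evE : (fun w => 1 - ‖φ w‖ ^ 2) =ᶠ[𝓝 z] fun w => ht ξ (φ w) * ‖φ w - ξ‖ ^ 2 := by
    filter_upwards [evD] with w hw
    show 1 - ‖φ w‖ ^ 2 = (1 - ‖φ w‖ ^ 2) / ‖φ w - ξ‖ ^ 2 * ‖φ w - ξ‖ ^ 2
    rw [div_mul_cancel₀ _ hw]
  have dN : DifferentiableAt ℝ (fun w => ‖φ w‖ ^ 2) z := cN.differentiableAt (by simp)
  have dD : DifferentiableAt ℝ (fun w => ‖φ w - ξ‖ ^ 2) z := cD.differentiableAt (by simp)
  have df : DifferentiableAt ℝ (fun w => ht ξ (φ w)) z := cf.differentiableAt (by simp)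
  have dφ : DifferentiableAt ℝ φ z := hφ.differentiableAt (by simp)
  have dψ : DifferentiableAt ℝ (fun w => φ w - ξ) z := hψ.differentiableAt (by simp)
  ext v
  have h1 : fderiv ℝ (fun w => 1 - ‖φ w‖ ^ 2) z v = - fderiv ℝ (fun w => ‖φ w‖ ^ 2) z v := by
    rw [fderiv_const_sub]
    rfl
  have h2 : fderiv ℝ (fun w => ht ξ (φ w) * ‖φ w - ξ‖ ^ 2) z v =
      ht ξ (φ z) * fderiv ℝ (fun w => ‖φ w - ξ‖ ^ 2) z v +
        ‖φ z - ξ‖ ^ 2 * fderiv ℝ (fun w => ht ξ (φ w)) z v := by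
    rw [fderiv_fun_mul df dD]
    rfl
  have h3 := evE.fderiv_eq (𝕜 := ℝ)
  rw [h3, h2, Pool.Agent.Y141.RB.nsq1 dψ v, Pool.Agent.Y141.RB.nsq1 dφ v] at h1
  have h4 : fderiv ℝ (fun w => φ w - ξ) z v = fderiv ℝ φ z v := by
    rw [fderiv_sub_const]
  rw [h4] at h1
  have h5 := hperp v
  have h6 := normal_eq hz hn
  rw [hf] at h6
  rw [h6] at h5
  unfold d1 at h5
  rw [inner_sub_left, real_inner_smul_left, real_inner_smul_left] at h5
  rw [inner_sub_left] at h1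
  have h7 : ‖φ z - ξ‖ ^ 2 * fderiv ℝ (fun w => ht ξ (φ w)) z v = 0 := by
    linear_combination h1 + 2 * h5
  simpa using (mul_eq_zero.1 h7).resolve_left hD.ne'

/-- inner normals give local maxima -/
lemma max_of_inner {φ : ℂ → E4} {z : ℂ} {n ξ : E4} (hξ : ‖ξ‖ = 1) (hφ : ContDiffAt ℝ ∞ φ z)
    (hz : ‖φ z‖ < 1) (hn : ‖n‖ = 1) (hperp : ∀ v : ℂ, ⟪n, d1 φ v z⟫ = 0)
    (hi : Inner φ n z) (hf : foot (φ z) n = ξ) :
    IsLocalMax (fun w => ‖push ξ (φ w)‖ ^ 2) z := by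
  have hne : φ z ≠ ξ := by
    intro h
    rw [h] at hz
    linarith
  have hc := crit_of_foot hξ hφ hz hn hperp hf
  obtain ⟨n', hn1, hn2, hn3, hn4, hn5, hn6⟩ := Pool.Agent.Y141.RB.t_HESS ξ φ z hξ hφ hz hc
  have e : n' = n := foot_inj hz hn1 hn (by rw [hn3, hf])
  subst e
  have hev := normsq_eventually Pool.Agent.Y614.RB.theta hξ hφ.continuousAt hne
  have htsm : ContDiffAt ℝ ∞ (fun w => ht ξ (φ w)) z := (ht_smooth hne).comp z hφ
  obtain ⟨e1, e2, e3⟩ := Pool.Agent.Y640.RB.expf (fun w => ht ξ (φ w)) z htsm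
  have htp := ht_pos hξ hz
  have hd : 0 < ‖φ z - ξ‖ := norm_pos_iff.mpr (sub_ne_zero.mpr hne)
  obtain ⟨κ, hκ⟩ : ∃ κ, κ = 2 * (1 + ht ξ (φ z)) / ‖φ z - ξ‖ ^ 2 := ⟨_, rfl⟩
  have hκ0 : 0 < κ := by rw [hκ]; positivity
  rw [← hκ] at hn6
  have hmin : IsLocalMin (fun w => ht ξ (φ w)) z := by
    by_contra hcon
    rcases Pool.Agent.Y972.RB.type (fun w => ht ξ (φ w)) z htsm hc (fun u hu => by
      refine nondeg Pool.Agent.Y640.RB.sym hφ hi.2.ne' hκ0 (u := u) fun v => ?_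
      have := hu v
      rw [hn6] at this
      linarith) hcon with h | h
    · have h1 := h 1 one_ne_zero
      rw [hn6] at h1
      have h2 := mul_pos hκ0 hi.1
      linarith
    · unfold hdet at h
      rw [hn6, hn6, hn6] at h
      have h2 : 0 < κ ^ 2 * excDet φ n' z := mul_pos (by positivity) hi.2
      unfold excDet at h2
      nlinarith
  exact (e3.2 hmin).congr hev.symm

/-- The point `ξ` at infinity is generic for the slice disc `φ`. -/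
structure Generic (φ : ℂ → E4) (ξ : E4) : Prop where
  miss : ∀ z ∈ closedBall (0 : ℂ) 1, φ z ≠ ξ
  slice : SliceDisc (fun w => push ξ (φ w))
  bdry : ∀ z ∈ sphere (0 : ℂ) 1, push ξ (φ z) = φ z
  morse : ∀ z ∈ ball (0 : ℂ) 1, fderiv ℝ (fun w => ‖push ξ (φ w)‖ ^ 2) z = 0 → ∀ u : ℂ,
    (∀ v : ℂ, fderiv ℝ (fderiv ℝ (fun w => ‖push ξ (φ w)‖ ^ 2)) z u v = 0) → u = 0
  count : {z : ℂ | z ∈ ball (0 : ℂ) 1 ∧ IsLocalMax (fun w => ‖push ξ (φ w)‖ ^ 2) z}.encard =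
    (inn φ (ball 0 1) ξ).encard

theorem generic_ae {φ : ℂ → E4} (h : SliceDisc φ) :
    ∀ᵐ ξ : sphere (0 : E4) 1 ∂(volume : Measure E4).toSphere, Generic φ (ξ : E4) := by
  obtain ⟨W, hW, hsub, hs⟩ := h.smooth
  have hP := h.patch
  obtain ⟨N₁, N₂, U', hall, hU⟩ := Pool.Agent.Y232.RB.Ref.cover Pool.Agent.Y297.RB.lf hP
  have hPj : ∀ j, Patch φ (U' j) := fun j =>
    Pool.Agent.Y232.RB.Ref.patch_mono hP (hall j).2.2 (hall j).1
  let S : ℕ → Set E4 := fun j => cmap φ (N₁ j) (N₂ j) ''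
    {x | zc x ∈ U' j ∧ (fderiv ℝ (cmap φ (N₁ j) (N₂ j)) x).det = 0}
  have hS : ∀ j, volume (S j) = 0 := by
    intro j
    refine addHaar_image_eq_zero_of_det_fderivWithin_eq_zero volume
      (f' := fun x => fderiv ℝ (cmap φ (N₁ j) (N₂ j)) x) ?_ (fun x hx => hx.2)
    intro x hx
    exact (((a_det _ _ _ _ (hPj j) (hall j).2.1 x hx.1).1.differentiableAt
      (by simp)).hasFDerivAt).hasFDerivWithinAt
  have hZ := Pool.Agent.Y977.RB.null φ W hW hs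
  -- the exceptional set
  have hnull : (volume : Measure E4).toSphere {ξ : sphere (0 : E4) 1 |
      ¬ ((∀ z ∈ W, φ z ≠ (ξ : E4)) ∧ ∀ j, ∀ x : E4, zc x ∈ U' j →
        cmap φ (N₁ j) (N₂ j) x = (1 / 2 : ℝ) • (ξ : E4) →
        (fderiv ℝ (cmap φ (N₁ j) (N₂ j)) x).det ≠ 0)} = 0 := by
    refine null_of_cone _ ?_
    refine measure_mono_null (t := {y : E4 | ∃ r : ℝ, ∃ z ∈ W, y = r • φ z} ∪ ⋃ j, S j) ?_ ?_
    · rintro _ ⟨r, hr, ξ, hξ, rfl⟩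
      by_cases h1 : ∀ z ∈ W, φ z ≠ (ξ : E4)
      · right
        have h2 : ¬ ∀ j, ∀ x : E4, zc x ∈ U' j →
            cmap φ (N₁ j) (N₂ j) x = (1 / 2 : ℝ) • (ξ : E4) →
            (fderiv ℝ (cmap φ (N₁ j) (N₂ j)) x).det ≠ 0 := fun h2 => hξ ⟨h1, h2⟩
        push Not at h2
        obtain ⟨j, x, hx, hxe, hx0⟩ := h2
        refine mem_iUnion.2 ⟨j, mk4 (zc x) (x 2) (2 * r * x 3), ⟨by simpa using hx, ?_⟩, ?_⟩
        · have h3 := (a_det _ _ _ _ (hPj j) (hall j).2.1 x hx).2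
          rw [hx0, abs_zero] at h3
          have h4 := (a_det _ _ _ _ (hPj j) (hall j).2.1 (mk4 (zc x) (x 2) (2 * r * x 3))
            (by simpa using hx)).2
          rw [mk4_zc, mk4_two, mk4_three] at h4
          have h5 : |x 3| ^ 3 ≠ 0 := by
            intro h5
            have h6 : x 3 = 0 := by simpa using h5
            have h7 : cmap φ (N₁ j) (N₂ j) x = 0 := by
              unfold cmap
              rw [h6, zero_smul]
            rw [h7] at hxe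
            have h8 := congrArg norm hxe
            rw [norm_zero, norm_smul] at h8
            simp at h8
          have h6 : dens0 φ (nor (N₁ j) (N₂ j) (x 2) (zc x)) (zc x) = 0 :=
            (mul_eq_zero.1 h3.symm).resolve_left h5
          rw [h6, mul_zero] at h4
          exact abs_eq_zero.1 h4
        · have h3 : cmap φ (N₁ j) (N₂ j) (mk4 (zc x) (x 2) (2 * r * x 3)) =
              (2 * r) • cmap φ (N₁ j) (N₂ j) x := by
            simp only [cmap, mk4_zc, mk4_two, mk4_three]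
            rw [smul_smul]
          rw [h3, hxe, smul_smul]
          congr 1
          ring
      · left
        push Not at h1
        obtain ⟨z, hz, hze⟩ := h1
        exact ⟨r, z, hz, by rw [hze]⟩
    · rw [measure_union_null_iff, measure_iUnion_null_iff]
      exact ⟨hZ, hS⟩
  have hae : ∀ᵐ ξ : sphere (0 : E4) 1 ∂(volume : Measure E4).toSphere,
      (∀ z ∈ W, φ z ≠ (ξ : E4)) ∧ ∀ j, ∀ x : E4, zc x ∈ U' j →
        cmap φ (N₁ j) (N₂ j) x = (1 / 2 : ℝ) • (ξ : E4) →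
        (fderiv ℝ (cmap φ (N₁ j) (N₂ j)) x).det ≠ 0 := hnull
  filter_upwards [hae] with ξ hξP
  obtain ⟨hne, hreg⟩ := hξP
  have hξ : ‖(ξ : E4)‖ = 1 := by simp
  obtain ⟨hs1, hs2⟩ := slice_push Pool.Agent.Y614.RB.theta Pool.Agent.Y977.RB.trans hξ h hW hsub
    hs hne
  have hcr : ∀ z ∈ ball (0 : ℂ) 1, fderiv ℝ (fun w => ‖push (ξ : E4) (φ w)‖ ^ 2) z = 0 →
      ∃ n : E4, ‖n‖ = 1 ∧ (∀ v : ℂ, ⟪n, d1 φ v z⟫ = 0) ∧ foot (φ z) n = (ξ : E4) ∧
        excDet φ n z ≠ 0 ∧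
        (∃ κ : ℝ, 0 < κ ∧ ∀ u v : ℂ,
          fderiv ℝ (fderiv ℝ (fun w => ‖push (ξ : E4) (φ w)‖ ^ 2)) z u v =
            -κ * exc φ n u v z) ∧
        (IsLocalMax (fun w => ‖push (ξ : E4) (φ w)‖ ^ 2) z → Inner φ n z) := by
    intro z hz hc
    obtain ⟨j, hj⟩ := mem_iUnion.1 (hU hz)
    obtain ⟨θ, hθ, h1, h2, h3, h4⟩ :=
      crit Pool.Agent.Y614.RB.theta Pool.Agent.Y141.RB.t_HESS Pool.Agent.Y640.RB.soc
        Pool.Agent.Y640.RB.expf Pool.Agent.Y640.RB.sym a_det Pool.Agent.Y977.RB.frame (hPj j)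
        (hall j).2.1 hξ (r := 1 / 2) (hreg j) hj hc
    obtain ⟨-, hn, -, -, -, -, -, hper, -⟩ :=
      Pool.Agent.Y692.RB.dg φ (N₁ j) (N₂ j) (U' j) (hPj j) (hall j).2.1 θ z hj
    refine ⟨nor (N₁ j) (N₂ j) θ z, hn, fun v => (hper v).1, ?_, h2, h3, h4⟩
    have h5 : cmap φ (N₁ j) (N₂ j) (mk4 z θ (1 / 2)) =
        (1 / 2 : ℝ) • foot (φ z) (nor (N₁ j) (N₂ j) θ z) := by
      simp only [cmap, gmap, mk4_zc, mk4_two, mk4_three]
    rw [h5] at h1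
    have h6 := congrArg (fun y : E4 => (2 : ℝ) • y) h1
    simp only [smul_smul] at h6
    norm_num at h6
    exact h6
  refine ⟨fun z hz => hne z (hsub hz), hs1, hs2, ?_, ?_⟩
  · intro z hz hc u hu
    obtain ⟨n, -, -, -, h2, ⟨κ, hκ, h3⟩, -⟩ := hcr z hz hc
    have hsm : ContDiffAt ℝ ∞ φ z := hP.smooth.contDiffAt (hP.isOpen.mem_nhds hz)
    refine nondeg Pool.Agent.Y640.RB.sym hsm h2 hκ (fun v => ?_)
    rw [← h3 u v]
    exact hu v
  · have himg : {z : ℂ | z ∈ ball (0 : ℂ) 1 ∧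
        IsLocalMax (fun w => ‖push (ξ : E4) (φ w)‖ ^ 2) z} =
        Prod.fst '' inn φ (ball 0 1) (ξ : E4) := by
      ext z
      constructor
      · rintro ⟨hz, hmax⟩
        obtain ⟨n, h1, h2, h3, -, -, h4⟩ := hcr z hz hmax.fderiv_eq_zero
        exact ⟨(z, n), ⟨hz, h1, h2, h4 hmax, h3⟩, rfl⟩
      · rintro ⟨p, ⟨h1, h2, h3, h4, h5⟩, rfl⟩
        have hsm : ContDiffAt ℝ ∞ φ p.1 := hP.smooth.contDiffAt (hP.isOpen.mem_nhds h1)
        exact ⟨h1, max_of_inner hξ hsm (hP.inside _ h1) h2 h3 h4 h5⟩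
    rw [himg]
    refine InjOn.encard_image ?_
    rintro ⟨z, n⟩ ⟨h1, h2, -, -, h5⟩ ⟨z', n'⟩ ⟨h1', h2', -, -, h5'⟩ hzz
    simp only at hzz h2 h5 h2' h5' h1
    subst hzz
    have := foot_inj (hP.inside _ h1) h2 h2' (by rw [h5, h5'])
    rw [this]

end Pool.Agent.H55HC
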