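import Pool.Agent.H55HC.Fib

/-!
The integral formula.
-/

set_option autoImplicit false

namespace Pool.Agent.H55HC

open Pool.Agent.Y503.RB
open scoped ContDiff RealInnerProductSpace ENNReal Topology
open MeasureTheory Set Metric Filter

/-- Points of the ball with direction in `E`. -/
def coneB (E : Set E4) : Set E4 := {y | (0 < ‖y‖ ∧ ‖y‖ < 1) ∧ ‖y‖⁻¹ • y ∈ E}

lemma measurableSet_coneB {E : Set E4} (hE : MeasurableSet E) : MeasurableSet (coneB E) := by
  have h1 : Measurable (fun y : E4 => ‖y‖⁻¹ • y) := (measurable_norm.inv).smul measurable_id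
  have h2 : MeasurableSet {y : E4 | 0 < ‖y‖} := measurableSet_lt measurable_const measurable_norm
  have h3 : MeasurableSet {y : E4 | ‖y‖ < 1} := measurableSet_lt measurable_norm measurable_const
  exact (h2.inter h3).inter (h1 hE)

theorem piece {φ N₁ N₂ : ℂ → E4} {U A : Set ℂ} (hP : Patch φ U) (hF : Frame φ N₁ N₂ U)
    (hA : MeasurableSet A) (hAU : A ⊆ U) :
    (∃ c : E4 → ℝ≥0∞, Measurable c ∧
      ∀ y : E4, 0 < ‖y‖ → ‖y‖ < 1 → c y = crd (inn φ A (‖y‖⁻¹ • y))) ∧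
    ∀ E : Set E4, MeasurableSet E → ∫⁻ y in coneB E, crd (inn φ A (‖y‖⁻¹ • y)) =
      ENNReal.ofReal (1 / 4) * ∫⁻ z in A, curvTo φ E z := by
  have hC : St_CONT := Pool.Agent.Y349.RB.cont
  have hDet : St_DET := a_det
  have hDG : St_DG := Pool.Agent.Y692.RB.dg
  have hRo := isOpen_region hC hP hF
  have hsm : ContDiffOn ℝ ∞ (cmap φ N₁ N₂) (region φ N₁ N₂ U) := fun x hx =>
    (hDet φ N₁ N₂ U hP hF x hx.1).1.contDiffWithinAt
  have hdet : ∀ x ∈ region φ N₁ N₂ U, (fderiv ℝ (cmap φ N₁ N₂) x).det ≠ 0 := by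
    intro x hx h0
    have h1 := (hDet φ N₁ N₂ U hP hF x hx.1).2
    rw [h0, abs_zero] at h1
    have h2 : 0 < |x 3| ^ 3 := by
      have := hx.2.2.1
      positivity
    obtain ⟨-, -, -, -, -, hρ0, hρ1, -⟩ := hDG φ N₁ N₂ U hP hF (x 2) (zc x) hx.1
    have h3 : 0 < dens0 φ (nor N₁ N₂ (x 2) (zc x)) (zc x) := by
      have h4 := fffDet_pos (hP.imm _ hx.1)
      have h5 := hx.2.1.2
      have h6 : 0 < 1 - rad (φ (zc x)) (nor N₁ N₂ (x 2) (zc x)) := by
        simpa using sub_pos.mpr hρ1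
      unfold dens0
      have h7 : 0 < |excDet φ (nor N₁ N₂ (x 2) (zc x)) (zc x)| := abs_pos.mpr h5.ne'
      have h8 : 0 < √(fffDet φ (zc x)) := Real.sqrt_pos.mpr h4
      have h9 : 0 < rad (φ (zc x)) (nor N₁ N₂ (x 2) (zc x)) := hρ0
      positivity
    have := mul_pos h2 h3
    linarith
  have hm : MeasurableSet (dom4 φ N₁ N₂ U A) := by
    refine hRo.measurableSet.inter ((continuous_zc.measurable hA).inter
      (measurable_coord 2 measurableSet_Ico))
  obtain ⟨hc1, hc2⟩ := area (cmap φ N₁ N₂) (region φ N₁ N₂ U) hRo hsm hdet _ hm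
    (fun x hx => hx.1)
  refine ⟨⟨_, hc1, fun y h0 h1 => fibre hP hF hAU h0 h1⟩, fun E hE => ?_⟩
  have hB := measurableSet_coneB hE
  obtain ⟨hm2, hc3⟩ := hc2 (coneB E) hB
  have e1 : ∫⁻ y in coneB E, crd (inn φ A (‖y‖⁻¹ • y)) =
      ∫⁻ y in coneB E, crd {x | x ∈ dom4 φ N₁ N₂ U A ∧ cmap φ N₁ N₂ x = y} :=
    setLIntegral_congr_fun hB fun y hy => (fibre hP hF hAU hy.1.1 hy.1.2).symm
  rw [e1, hc3]
  -- the function
  obtain ⟨f, hf⟩ : ∃ f : ℝ × ℂ → ℝ≥0∞, f = fun q => densTo φ E (nor N₁ N₂ q.1 q.2) q.2 := ⟨_, rfl⟩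
  have hgc : ContinuousOn (gmap φ N₁ N₂) ((univ : Set ℝ) ×ˢ U) := by
    intro q hq
    exact ((hDG φ N₁ N₂ U hP hF q.1 q.2 hq.2).1.continuousAt).continuousWithinAt
  have hU : IsOpen ((univ : Set ℝ) ×ˢ U) := isOpen_univ.prod hP.isOpen
  have hae : AEMeasurable f (volume.restrict (Ico 0 (2 * Real.pi) ×ˢ A)) := by
    have hmono : (volume : Measure (ℝ × ℂ)).restrict (Ico 0 (2 * Real.pi) ×ˢ A) ≤
        volume.restrict ((univ : Set ℝ) ×ˢ U) :=
      Measure.restrict_mono (prod_mono (subset_univ _) hAU) le_rfl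
    have h1 : AEMeasurable (gmap φ N₁ N₂) (volume.restrict (Ico 0 (2 * Real.pi) ×ˢ A)) :=
      (hgc.aemeasurable hU.measurableSet).mono_measure hmono
    have h2 : NullMeasurableSet (gmap φ N₁ N₂ ⁻¹' E)
        (volume.restrict (Ico 0 (2 * Real.pi) ×ˢ A)) := h1.nullMeasurableSet_preimage hE
    have h3 : AEMeasurable (fun q : ℝ × ℂ => ENNReal.ofReal (dens φ (nor N₁ N₂ q.1 q.2) q.2))
        (volume.restrict (Ico 0 (2 * Real.pi) ×ˢ A)) :=
      (aemeasurable_dens hC hP hF).mono_measure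
        (Measure.restrict_mono (prod_mono subset_rfl hAU) le_rfl)
    have h4 := h3.indicator₀ h2
    refine h4.congr (Eventually.of_forall fun q => ?_)
    rw [hf]
    show _ = E.indicator (fun _ => ENNReal.ofReal (dens φ (nor N₁ N₂ q.1 q.2) q.2))
      (foot (φ q.2) (nor N₁ N₂ q.1 q.2))
    by_cases hq : gmap φ N₁ N₂ q ∈ E
    · have hq' : foot (φ q.2) (nor N₁ N₂ q.1 q.2) ∈ E := hq
      rw [indicator_of_mem (by exact hq), indicator_of_mem hq']
    · have hq' : foot (φ q.2) (nor N₁ N₂ q.1 q.2) ∉ E := hq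
      rw [indicator_of_notMem (by exact hq), indicator_of_notMem hq']
  have hFub := Pool.Agent.Y919.RB.FUB A f hA hae
  have e2 : ∫⁻ z in A, ∫⁻ θ in Ico 0 (2 * Real.pi), f (θ, z) = ∫⁻ z in A, curvTo φ E z := by
    refine setLIntegral_congr_fun hA fun z hz => ?_
    rw [hf]
    exact ind hP hF (hAU hz) E
  rw [e2] at hFub
  rw [← hFub]
  have hbig : MeasurableSet {x : E4 | zc x ∈ A ∧ x 2 ∈ Ico 0 (2 * Real.pi) ∧ x 3 ∈ Ioo 0 1} :=
    (continuous_zc.measurable hA).inter ((measurable_coord 2 measurableSet_Ico).inter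
      (measurable_coord 3 measurableSet_Ioo))
  rw [← lintegral_indicator hm2, ← lintegral_indicator hbig]
  refine lintegral_congr fun x => ?_
  by_cases hx : x ∈ {x : E4 | zc x ∈ A ∧ x 2 ∈ Ico 0 (2 * Real.pi) ∧ x 3 ∈ Ioo 0 1}
  · rw [indicator_of_mem hx]
    obtain ⟨hx1, hx2, hx3⟩ := hx
    have hxU := hAU hx1
    obtain ⟨-, -, -, -, hG, -⟩ := hDG φ N₁ N₂ U hP hF (x 2) (zc x) hxU
    have hnorm : ‖cmap φ N₁ N₂ x‖ = x 3 := by
      unfold cmap
      rw [norm_smul, hG, mul_one, Real.norm_eq_abs, abs_of_pos hx3.1]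
    have hdir : ‖cmap φ N₁ N₂ x‖⁻¹ • cmap φ N₁ N₂ x =
        foot (φ (zc x)) (nor N₁ N₂ (x 2) (zc x)) := by
      rw [hnorm]
      unfold cmap
      rw [smul_smul, inv_mul_cancel₀ hx3.1.ne', one_smul]
      rfl
    by_cases hi : Inner φ (nor N₁ N₂ (x 2) (zc x)) (zc x)
    · by_cases hE' : foot (φ (zc x)) (nor N₁ N₂ (x 2) (zc x)) ∈ E
      · have hmem : x ∈ dom4 φ N₁ N₂ U A ∩ cmap φ N₁ N₂ ⁻¹' coneB E := by
          refine ⟨⟨⟨hxU, hi, hx3⟩, hx1, hx2⟩, ?_⟩
          show (0 < ‖cmap φ N₁ N₂ x‖ ∧ ‖cmap φ N₁ N₂ x‖ < 1) ∧ _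
          rw [hdir, hnorm]
          exact ⟨hx3, hE'⟩
        rw [indicator_of_mem hmem, hf]
        simp only [densTo]
        rw [indicator_of_mem hE', (hDet φ N₁ N₂ U hP hF x hxU).2, abs_of_pos hx3.1,
          ENNReal.ofReal_mul (by have := hx3.1; positivity)]
        congr 2
        simp [dens, hi]
      · have hmem : x ∉ dom4 φ N₁ N₂ U A ∩ cmap φ N₁ N₂ ⁻¹' coneB E := by
          intro h
          have h2 : ‖cmap φ N₁ N₂ x‖⁻¹ • cmap φ N₁ N₂ x ∈ E := h.2.2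
          rw [hdir] at h2
          exact hE' h2
        rw [indicator_of_notMem hmem, hf]
        simp only [densTo]
        rw [indicator_of_notMem hE', mul_zero]
    · have hmem : x ∉ dom4 φ N₁ N₂ U A ∩ cmap φ N₁ N₂ ⁻¹' coneB E := fun h => hi h.1.1.2.1
      rw [indicator_of_notMem hmem, hf]
      simp only [densTo]
      have hd0 : dens φ (nor N₁ N₂ (x 2) (zc x)) (zc x) = 0 := by simp [dens, hi]
      rw [hd0, ENNReal.ofReal_zero]
      simp
  · rw [indicator_of_notMem hx, indicator_of_notMem]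
    intro h
    exact hx ⟨h.1.2.1, h.1.2.2, h.1.1.2.2⟩

theorem total {φ : ℂ → E4} {U : Set ℂ} (hP : Patch φ U) {A : Set ℂ} (hA : MeasurableSet A)
    (hAU : A ⊆ U) :
    Measurable (fun ξ : sphere (0 : E4) 1 => crd (inn φ A (ξ : E4))) ∧
    ∀ E : Set E4, MeasurableSet E → ∫⁻ y in coneB E, crd (inn φ A (‖y‖⁻¹ • y)) =
      ENNReal.ofReal (1 / 4) * ∫⁻ z in A, curvTo φ E z := by
  obtain ⟨N₁, N₂, U', h, hU⟩ := Pool.Agent.Y232.RB.Ref.cover Pool.Agent.Y297.RB.lf hP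
  have hdm : ∀ j, MeasurableSet (disjointed U' j) :=
    fun j => MeasurableSet.disjointed (fun i => (h i).1.measurableSet) j
  have hsub : ∀ j, A ∩ disjointed U' j ⊆ U' j := fun j =>
    inter_subset_right.trans (disjointed_subset U' j)
  have hdisj : Pairwise (Function.onFun Disjoint fun j => A ∩ disjointed U' j) := fun i j hij =>
    (disjoint_disjointed U' hij).mono inter_subset_right inter_subset_right
  have hunion : ⋃ j, A ∩ disjointed U' j = A := by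
    rw [← inter_iUnion, iUnion_disjointed]
    exact inter_eq_left.2 (hAU.trans hU)
  have hcrd : ∀ ξ : E4, crd (inn φ A ξ) = ∑' j, crd (inn φ (A ∩ disjointed U' j) ξ) := by
    intro ξ
    have h1 : inn φ A ξ = ⋃ j, inn φ (A ∩ disjointed U' j) ξ := by
      ext p
      simp only [mem_iUnion]
      constructor
      · rintro ⟨a, b⟩
        have h2 : p.1 ∈ ⋃ j, A ∩ disjointed U' j := by rw [hunion]; exact a
        obtain ⟨j, hj⟩ := mem_iUnion.1 h2
        exact ⟨j, hj, b⟩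
      · rintro ⟨j, a, b⟩
        exact ⟨a.1, b⟩
    rw [h1, crd_iUnion]
    intro i j hij
    refine Set.disjoint_left.2 fun p hp hp' => ?_
    exact Set.disjoint_left.1 (hdisj hij) hp.1 hp'.1
  have hpc := fun j => piece (Pool.Agent.Y232.RB.Ref.patch_mono hP (h j).2.2 (h j).1) (h j).2.1
    (hA.inter (hdm j)) (hsub j)
  refine ⟨?_, fun E hE => ?_⟩
  · simp_rw [hcrd]
    refine Measurable.ennreal_tsum fun j => ?_
    obtain ⟨c, hc, hc2⟩ := (hpc j).1
    have h1 : (fun ξ : sphere (0 : E4) 1 => crd (inn φ (A ∩ disjointed U' j) (ξ : E4))) =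
        fun ξ : sphere (0 : E4) 1 => c ((1 / 2 : ℝ) • (ξ : E4)) := by
      funext ξ
      have h2 : ‖(1 / 2 : ℝ) • (ξ : E4)‖ = 1 / 2 := by
        rw [norm_smul]
        simp
      rw [hc2 _ (by rw [h2]; norm_num) (by rw [h2]; norm_num), h2, smul_smul]
      norm_num
    rw [h1]
    have h5 : Measurable fun ξ : sphere (0 : E4) 1 => (1 / 2 : ℝ) • (ξ : E4) :=
      measurable_subtype_coe.const_smul (1 / 2 : ℝ)
    exact hc.comp h5
  · have hB := measurableSet_coneB hE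
    simp_rw [hcrd]
    rw [lintegral_tsum]
    · simp_rw [fun j => (hpc j).2 E hE]
      rw [ENNReal.tsum_mul_left, ← lintegral_iUnion (fun j => hA.inter (hdm j)) hdisj, hunion]
    · intro j
      obtain ⟨c, hc, hc2⟩ := (hpc j).1
      refine hc.aemeasurable.congr ?_
      filter_upwards [ae_restrict_mem hB] with y hy
      exact hc2 y hy.1.1 hy.1.2

/-- The integral formula. -/
theorem formula {φ : ℂ → E4} {U : Set ℂ} (hP : Patch φ U) {A : Set ℂ} (hA : MeasurableSet A)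
    (hAU : A ⊆ U) {E : Set E4} (hE : MeasurableSet E) :
    ∫⁻ ξ in {ξ : sphere (0 : E4) 1 | (ξ : E4) ∈ E}, crd (inn φ A (ξ : E4))
      ∂(volume : Measure E4).toSphere = ∫⁻ z in A, curvTo φ E z := by
  obtain ⟨h1, h2⟩ := total hP hA hAU
  have hS : MeasurableSet {ξ : sphere (0 : E4) 1 | (ξ : E4) ∈ E} := measurable_subtype_coe hE
  rw [lintegral_sphere h1 hS]
  have h3 : {y : E4 | (0 < ‖y‖ ∧ ‖y‖ < 1) ∧ dirS y ∈ {ξ : sphere (0 : E4) 1 | (ξ : E4) ∈ E}} =
      coneB E := by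
    ext y
    constructor
    · rintro ⟨a, b⟩
      refine ⟨a, ?_⟩
      rw [← dirS_val (norm_pos_iff.1 a.1)]
      exact b
    · rintro ⟨a, b⟩
      refine ⟨a, ?_⟩
      show ((dirS y : sphere (0 : E4) 1) : E4) ∈ E
      rw [dirS_val (norm_pos_iff.1 a.1)]
      exact b
  rw [h3]
  have h4 : ∫⁻ y in coneB E, crd (inn φ A ((dirS y : sphere (0 : E4) 1) : E4)) =
      ∫⁻ y in coneB E, crd (inn φ A (‖y‖⁻¹ • y)) :=
    setLIntegral_congr_fun (measurableSet_coneB hE) fun y hy => by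
      rw [dirS_val (norm_pos_iff.1 hy.1.1)]
  rw [h4, h2 E hE, ← mul_assoc]
  have h5 : (4 : ℝ≥0∞) * ENNReal.ofReal (1 / 4) = 1 := by
    rw [show (4 : ℝ≥0∞) = ENNReal.ofReal 4 by simp, ← ENNReal.ofReal_mul (by norm_num)]
    norm_num
  rw [h5, one_mul]

end Pool.Agent.H55HC
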