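import Pool.Agent.H55HC.Stab
import Pool.Agent.H55HC.Fin

/-!
The characterisation for all numbers of maxima.
-/

set_option autoImplicit false

namespace Pool.Agent.H55HC

open Pool.Agent.Y503.RB
open scoped ContDiff RealInnerProductSpace ENNReal Topology
open MeasureTheory Set Metric Filter

/-- a disc with at most `m` maxima gives a disc with at most `m` inner normals for an open set of points at infinity -/
theorem open_of_morse {ψ : ℂ → E4} (h : SliceDisc ψ) (h0 : ∀ z ∈ closedBall (0 : ℂ) 1, ψ z ≠ 0)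
    {m : ℕ} (hM : MorseDisc ψ m) : ∃ φ : ℂ → E4, SliceDisc φ ∧
      (∀ z ∈ sphere (0 : ℂ) 1, φ z = ψ z) ∧ ∃ (ξ : E4) (ε : ℝ), ‖ξ‖ = 1 ∧ 0 < ε ∧
        ∀ η : E4, ‖η‖ = 1 → ‖η - ξ‖ < ε → (inn φ (ball 0 1) η).encard ≤ m := by
  obtain ⟨ξ, hξ, hd⟩ := exists_dir h h0
  obtain ⟨s1, s2, s3, s4⟩ := slice_pull hξ h hd
  obtain ⟨W, hW, hsub, hs⟩ := s1.smooth
  have hat : ∀ z ∈ closedBall (0 : ℂ) 1, ContDiffAt ℝ ∞ (fun w => pull ξ (ψ w)) z := fun z hz =>
    hs.contDiffAt (hW.mem_nhds (hsub hz))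
  have hev : ∀ z ∈ closedBall (0 : ℂ) 1, (fun w => ‖ψ w‖ ^ 2) =ᶠ[𝓝 z]
      fun w => Real.exp (-ht ξ (pull ξ (ψ w))) ^ 2 := by
    intro z hz
    have h1 := normsq_eventually Pool.Agent.Y614.RB.theta hξ (hat z hz).continuousAt (s3 z hz)
    filter_upwards [h1, s4 z hz] with w hw hw2
    rw [hw2] at hw
    exact hw
  have hts : ∀ z ∈ closedBall (0 : ℂ) 1,
      ContDiffAt ℝ ∞ (fun w => ht ξ (pull ξ (ψ w))) z := fun z hz =>
    ContDiffAt.comp (g := ht ξ) (f := fun w => pull ξ (ψ w)) z (ht_smooth (s3 z hz)) (hat z hz)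
  have hmor : ∀ z ∈ ball (0 : ℂ) 1, fderiv ℝ (fun w => ht ξ (pull ξ (ψ w))) z = 0 → ∀ u : ℂ,
      (∀ v : ℂ, fderiv ℝ (fderiv ℝ (fun w => ht ξ (pull ξ (ψ w)))) z u v = 0) → u = 0 := by
    intro z hz hc u hu
    have hz' := ball_subset_closedBall hz
    obtain ⟨e1, e2, -⟩ := Pool.Agent.Y640.RB.expf _ z (hts z hz')
    refine hM.morse z hz ?_ u fun v => ?_
    · rw [(hev z hz').fderiv_eq]
      exact e1.2 hc
    · rw [((hev z hz').fderiv (𝕜 := ℝ)).fderiv_eq, e2 hc, hu v, mul_zero]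
  have hcnt : {z : ℂ | z ∈ ball (0 : ℂ) 1 ∧
      IsLocalMin (fun w => ht ξ (pull ξ (ψ w))) z}.encard ≤ m := by
    have hset : {z : ℂ | z ∈ ball (0 : ℂ) 1 ∧ IsLocalMin (fun w => ht ξ (pull ξ (ψ w))) z} =
        {z : ℂ | z ∈ ball (0 : ℂ) 1 ∧ IsLocalMax (fun w => ‖ψ w‖ ^ 2) z} := by
      ext z
      constructor
      · rintro ⟨hz, hmin⟩
        have hz' := ball_subset_closedBall hz
        exact ⟨hz, ((Pool.Agent.Y640.RB.expf _ z (hts z hz')).2.2.2 hmin).congr (hev z hz').symm⟩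
      · rintro ⟨hz, hmax⟩
        have hz' := ball_subset_closedBall hz
        exact ⟨hz, (Pool.Agent.Y640.RB.expf _ z (hts z hz')).2.2.1 (hmax.congr (hev z hz'))⟩
    rw [hset]
    exact hM.maxima
  obtain ⟨ε, hε, hε2⟩ := stab s1 hξ s3 m hmor hcnt
  exact ⟨_, s1, s2, ξ, ε, hξ, hε, hε2⟩

theorem maxima_tfae (γ : ℂ → E4) (m : ℕ) :
    List.TFAE [
      ∃ φ : ℂ → E4, SliceDisc φ ∧ (∀ z ∈ sphere (0 : ℂ) 1, φ z = γ z) ∧
        (∀ z ∈ closedBall (0 : ℂ) 1, φ z ≠ 0) ∧ MorseDisc φ m,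
      ∃ φ : ℂ → E4, SliceDisc φ ∧ (∀ z ∈ sphere (0 : ℂ) 1, φ z = γ z) ∧
        ∃ E : Set E4, MeasurableSet E ∧ ∫⁻ z in ball (0 : ℂ) 1, curvTo φ E z <
          (m + 1) * (volume : Measure E4).toSphere {ξ : sphere (0 : E4) 1 | (ξ : E4) ∈ E},
      ∃ φ : ℂ → E4, SliceDisc φ ∧ (∀ z ∈ sphere (0 : ℂ) 1, φ z = γ z) ∧
        ¬ ∀ᵐ ξ : sphere (0 : E4) 1 ∂(volume : Measure E4).toSphere,
          (m : ℕ∞) + 1 ≤ (inn φ (ball 0 1) (ξ : E4)).encard,
      ∃ φ : ℂ → E4, SliceDisc φ ∧ (∀ z ∈ sphere (0 : ℂ) 1, φ z = γ z) ∧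
        ∃ (ξ : E4) (ε : ℝ), ‖ξ‖ = 1 ∧ 0 < ε ∧
          ∀ η : E4, ‖η‖ = 1 → ‖η - ξ‖ < ε → (inn φ (ball 0 1) η).encard ≤ m] := by
  tfae_have 1 → 4 := by
    rintro ⟨ψ, h1, h2, h3, h4⟩
    obtain ⟨φ, s1, s2, s3⟩ := open_of_morse h1 h3 h4
    exact ⟨φ, s1, fun z hz => (s2 z hz).trans (h2 z hz), s3⟩
  tfae_have 4 → 2 := by
    rintro ⟨φ, h1, h2, ξ, ε, hξ, hε, h3⟩
    refine ⟨φ, h1, h2, {η | ‖η - ξ‖ < ε}, ?_, ?_⟩
    · exact (isOpen_lt (continuous_id.sub continuous_const).norm continuous_const).measurableSet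
    · have hEm : MeasurableSet {η : E4 | ‖η - ξ‖ < ε} :=
        (isOpen_lt (continuous_id.sub continuous_const).norm continuous_const).measurableSet
      rw [← formula h1.patch measurableSet_ball (subset_refl _) hEm]
      obtain ⟨S, hS⟩ : ∃ S, S = {ζ : sphere (0 : E4) 1 | (ζ : E4) ∈ {η : E4 | ‖η - ξ‖ < ε}} :=
        ⟨_, rfl⟩
      rw [← hS]
      have hSo : IsOpen S := by
        rw [hS]
        exact (isOpen_lt (continuous_id.sub continuous_const).norm continuous_const).preimage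
          continuous_subtype_val
      have hSn : S.Nonempty := ⟨⟨ξ, by simpa using hξ⟩, by rw [hS]; simpa using hε⟩
      have hpos : 0 < (volume : Measure E4).toSphere S := hSo.measure_pos _ hSn
      have hfin : (volume : Measure E4).toSphere S < ⊤ := measure_lt_top _ _
      calc ∫⁻ ζ in S, crd (inn φ (ball 0 1) (ζ : E4)) ∂(volume : Measure E4).toSphere
          ≤ ∫⁻ _ in S, (m : ℝ≥0∞) ∂(volume : Measure E4).toSphere := by
            refine setLIntegral_mono' hSo.measurableSet fun ζ hζ => ?_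
            rw [hS] at hζ
            have := h3 ζ (by simp) hζ
            unfold crd
            exact_mod_cast ENat.toENNReal_le.2 this
        _ = m * (volume : Measure E4).toSphere S := by rw [setLIntegral_const]
        _ < (m + 1) * (volume : Measure E4).toSphere S := by
            refine ENNReal.mul_lt_mul_left hpos.ne' hfin.ne ?_
            exact ENNReal.lt_add_right (ENNReal.natCast_ne_top m) one_ne_zero
  tfae_have 2 → 3 := by
    rintro ⟨φ, h1, h2, E, hE, hT⟩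
    refine ⟨φ, h1, h2, fun hae => ?_⟩
    rw [← formula h1.patch measurableSet_ball (subset_refl _) hE] at hT
    refine absurd hT (not_lt.2 ?_)
    have hS : MeasurableSet {ξ : sphere (0 : E4) 1 | (ξ : E4) ∈ E} := measurable_subtype_coe hE
    rw [← setLIntegral_const]
    refine setLIntegral_mono_ae' hS ?_
    filter_upwards [hae] with ξ hξ _
    unfold crd
    have h4 : (((m : ℕ∞) + 1 : ℕ∞) : ℝ≥0∞) ≤ ((inn φ (ball 0 1) (ξ : E4)).encard : ℝ≥0∞) :=
      ENat.toENNReal_le.2 hξ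
    simpa using h4
  tfae_have 3 → 1 := by
    rintro ⟨φ, h1, h2, h3⟩
    have h4 : ∃ ξ : sphere (0 : E4) 1, Generic φ ξ ∧ (inn φ (ball 0 1) (ξ : E4)).encard ≤ m := by
      by_contra hcon
      push Not at hcon
      apply h3
      filter_upwards [generic_ae h1] with ξ hξ
      exact Order.add_one_le_of_lt (hcon ξ hξ)
    obtain ⟨ξ, hξ, hξ0⟩ := h4
    have hξ1 : ‖(ξ : E4)‖ = 1 := by simp
    exact ⟨_, hξ.slice, fun z hz => (hξ.bdry z hz).trans (h2 z hz),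
      fun z hz => push_ne_zero hξ1 (hξ.miss z hz), (hξ.morseDisc m).2 hξ0⟩
  tfae_finish

end Pool.Agent.H55HC
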