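import Pool.Agent.H55HC.SStab
import Pool.Agent.H55HC.Tfae

/-!
Inner normals are stable: lower semicontinuity of their number.
-/

set_option autoImplicit false

namespace Pool.Agent.H55HC

open Pool.Agent.Y503.RB
open scoped ContDiff RealInnerProductSpace ENNReal Topology
open MeasureTheory Set Metric Filter

/-- Evaluation at `1` and `I`. -/
noncomputable def ev : (ℂ →L[ℝ] ℝ) →L[ℝ] ℂ :=
  Complex.ofRealCLM.comp (ContinuousLinearMap.apply ℝ ℝ (1 : ℂ)) +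
    (ContinuousLinearMap.apply ℝ ℝ Complex.I).smulRight Complex.I

lemma ev_apply (L : ℂ →L[ℝ] ℝ) : ev L = ((L 1 : ℝ) : ℂ) + (L Complex.I : ℝ) * Complex.I := by
  simp [ev]

lemma ev_eq_zero {L : ℂ →L[ℝ] ℝ} (h : ev L = 0) : L = 0 := by
  rw [ev_apply] at h
  have h1 := congrArg Complex.re h
  have h2 := congrArg Complex.im h
  simp at h1 h2
  ext v
  have h3 : v = v.re • (1 : ℂ) + v.im • Complex.I := by
    apply Complex.ext <;> simp
  rw [h3, map_add, map_smul, map_smul, h1, h2]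
  simp

theorem lsc_at {φ : ℂ → E4} {W : Set ℂ} (hW : IsOpen W) (hs : ContDiffOn ℝ ∞ φ W) {ξ : E4}
    (hξ : ‖ξ‖ = 1) {z : ℂ} (hz : z ∈ W) (hin : ‖φ z‖ < 1) {n : E4} (hn : ‖n‖ = 1)
    (hperp : ∀ v : ℂ, ⟪n, d1 φ v z⟫ = 0) (hi : Inner φ n z) (hf : foot (φ z) n = ξ) {O : Set ℂ}
    (hO : O ∈ 𝓝 z) :
    ∀ᶠ η in 𝓝 ξ, ‖η‖ = 1 → ∃ q : ℂ × E4, q ∈ inn φ W η ∧ q.1 ∈ O ∧ ‖φ q.1‖ < 1 := by
  have hat : ∀ w ∈ W, ContDiffAt ℝ ∞ φ w := fun w hw => hs.contDiffAt (hW.mem_nhds hw)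
  have hsm := hat z hz
  have hne : φ z ≠ ξ := by
    intro h
    rw [h, hξ] at hin
    exact lt_irrefl _ hin
  have hc := crit_of_foot hξ hsm hin hn hperp hf
  obtain ⟨n', hn1, hn2, hn3, hn4, hn5, hn6⟩ := Pool.Agent.Y141.RB.t_HESS ξ φ z hξ hsm hin hc
  have e : n' = n := foot_inj hin hn1 hn (by rw [hn3, hf])
  subst e
  have htp := ht_pos hξ hin
  have hd : 0 < ‖φ z - ξ‖ := norm_pos_iff.mpr (sub_ne_zero.mpr hne)
  obtain ⟨κ, hκ⟩ : ∃ κ, κ = 2 * (1 + ht ξ (φ z)) / ‖φ z - ξ‖ ^ 2 := ⟨_, rfl⟩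
  have hκ0 : 0 < κ := by rw [hκ]; positivity
  rw [← hκ] at hn6
  have hD : ∀ u v : ℂ, fderiv ℝ (jg φ) (ξ, z) (0, u) v = κ * exc φ n' u v z := by
    intro u v
    rw [← jg2_eq hW hs hz hne, hn6]
  have hjs := jg_smooth hsm hne
  have hjstr : HasStrictFDerivAt (jg φ) (fderiv ℝ (jg φ) (ξ, z)) (ξ, z) :=
    hjs.hasStrictFDerivAt (by simp)
  obtain ⟨F', hF'⟩ : ∃ F' : (E4 × ℂ) →L[ℝ] (E4 × ℂ), F' =
      (ContinuousLinearMap.fst ℝ E4 ℂ).prod (ev.comp (fderiv ℝ (jg φ) (ξ, z))) := ⟨_, rfl⟩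
  have hFs : HasStrictFDerivAt (fun p : E4 × ℂ => (p.1, ev (jg φ p))) F' (ξ, z) := by
    rw [hF']
    exact hasStrictFDerivAt_fst.prodMk (ev.hasStrictFDerivAt.comp (ξ, z) hjstr)
  have hinj : Function.Injective F' := by
    rw [injective_iff_map_eq_zero]
    rintro ⟨η, u⟩ h
    rw [hF'] at h
    have h1 : η = 0 := congrArg Prod.fst h
    have h2 : ev (fderiv ℝ (jg φ) (ξ, z) (η, u)) = 0 := congrArg Prod.snd h
    subst h1
    have h3 := ev_eq_zero h2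
    have h4 : u = 0 := by
      refine nondeg Pool.Agent.Y640.RB.sym hsm hi.2.ne' hκ0 (u := u) fun v => ?_
      have h5 := hD u v
      rw [h3] at h5
      simp only [_root_.zero_apply] at h5
      linarith
    rw [h4]
    rfl
  let e₁ : (E4 × ℂ) ≃ₗ[ℝ] (E4 × ℂ) := LinearEquiv.ofInjectiveEndo (F' : (E4 × ℂ) →ₗ[ℝ] (E4 × ℂ)) hinj
  let e : (E4 × ℂ) ≃L[ℝ] (E4 × ℂ) := e₁.toContinuousLinearEquiv
  have he : (e : (E4 × ℂ) →L[ℝ] (E4 × ℂ)) = F' := ContinuousLinearMap.ext fun v => rfl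
  have hFs2 : HasStrictFDerivAt (fun p : E4 × ℂ => (p.1, ev (jg φ p)))
      (e : (E4 × ℂ) →L[ℝ] (E4 × ℂ)) (ξ, z) := by rw [he]; exact hFs
  have hmap := hFs2.map_nhds_eq_of_equiv
  have hjz : jg φ (ξ, z) = 0 := by rw [← jg_eq hsm hne]; exact hc
  have hF0 : ((ξ, z).1, ev (jg φ (ξ, z))) = ((ξ, 0) : E4 × ℂ) := by
    rw [hjz, map_zero]
  -- the good set
  have hcD : ContinuousAt (fderiv ℝ (jg φ)) (ξ, z) :=
    (hjs.fderiv_right (m := ∞) (by simp)).continuousAt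
  have hcuv : ∀ u v : ℂ, ContinuousAt (fun p => fderiv ℝ (jg φ) p (0, u) v) (ξ, z) := by
    intro u v
    have c1 : Continuous fun L : (E4 × ℂ) →L[ℝ] (ℂ →L[ℝ] ℝ) => L (0, u) v := by fun_prop
    exact ContinuousAt.comp (g := fun L : (E4 × ℂ) →L[ℝ] (ℂ →L[ℝ] ℝ) => L (0, u) v)
      c1.continuousAt hcD
  have hA1 : ∀ᶠ p : E4 × ℂ in 𝓝 (ξ, z), 0 < fderiv ℝ (jg φ) p (0, 1) 1 := by
    refine (hcuv 1 1).eventually (lt_mem_nhds ?_)
    show 0 < fderiv ℝ (jg φ) (ξ, z) (0, 1) 1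
    rw [hD]
    exact mul_pos hκ0 hi.1
  have hA2 : ∀ᶠ p : E4 × ℂ in 𝓝 (ξ, z), 0 < fderiv ℝ (jg φ) p (0, 1) 1 *
      fderiv ℝ (jg φ) p (0, Complex.I) Complex.I - fderiv ℝ (jg φ) p (0, 1) Complex.I ^ 2 := by
    refine (((hcuv 1 1).mul (hcuv Complex.I Complex.I)).sub
      ((hcuv 1 Complex.I).pow 2)).eventually (lt_mem_nhds ?_)
    show 0 < fderiv ℝ (jg φ) (ξ, z) (0, 1) 1 * fderiv ℝ (jg φ) (ξ, z) (0, Complex.I) Complex.I -
      fderiv ℝ (jg φ) (ξ, z) (0, 1) Complex.I ^ 2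
    rw [hD, hD, hD]
    have h2 : 0 < κ ^ 2 * excDet φ n' z := mul_pos (by positivity) hi.2
    unfold excDet at h2
    nlinarith
  have hA3 : ∀ᶠ p : E4 × ℂ in 𝓝 (ξ, z), p.2 ∈ O ∧ p.2 ∈ W ∧ ‖φ p.2‖ < 1 := by
    have h1 : ∀ᶠ w in 𝓝 z, w ∈ O ∧ w ∈ W ∧ ‖φ w‖ < 1 := by
      filter_upwards [hO, hW.mem_nhds hz, hsm.continuousAt.norm.eventually (gt_mem_nhds hin)] with
        w a b c
      exact ⟨a, b, c⟩
    exact (continuous_snd.tendsto (ξ, z)).eventually h1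
  have hA := (hA1.and (hA2.and hA3))
  have himg : (fun p : E4 × ℂ => (p.1, ev (jg φ p))) '' {p | 0 < fderiv ℝ (jg φ) p (0, 1) 1 ∧
      0 < fderiv ℝ (jg φ) p (0, 1) 1 *
      fderiv ℝ (jg φ) p (0, Complex.I) Complex.I - fderiv ℝ (jg φ) p (0, 1) Complex.I ^ 2 ∧
      p.2 ∈ O ∧ p.2 ∈ W ∧ ‖φ p.2‖ < 1} ∈ 𝓝 ((ξ, 0) : E4 × ℂ) := by
    rw [← hF0, ← hmap]
    exact image_mem_map hA
  have htend : Tendsto (fun η : E4 => ((η, 0) : E4 × ℂ)) (𝓝 ξ) (𝓝 (ξ, 0)) :=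
    (Continuous.prodMk continuous_id continuous_const).tendsto ξ
  filter_upwards [htend.eventually himg] with η hη hη1
  obtain ⟨⟨η', w⟩, ⟨a1, a2, a3, a4, a5⟩, he2⟩ := hη
  have h1 : η' = η := congrArg Prod.fst he2
  have h2 : ev (jg φ (η', w)) = 0 := congrArg Prod.snd he2
  subst h1
  simp only at a3 a4 a5
  have hsw := hat w a4
  have hnw : φ w ≠ η' := by
    intro h
    rw [h, hη1] at a5
    exact lt_irrefl _ a5
  have hcw : fderiv ℝ (fun w => ht η' (φ w)) w = 0 := by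
    rw [jg_eq hsw hnw]
    exact ev_eq_zero h2
  obtain ⟨n, b1, b2, b3, b4, b5, b6⟩ := Pool.Agent.Y141.RB.t_HESS η' φ w hη1 hsw a5 hcw
  have htw := ht_pos hη1 a5
  have hdw : 0 < ‖φ w - η'‖ := norm_pos_iff.mpr (sub_ne_zero.mpr hnw)
  obtain ⟨μ, hμ⟩ : ∃ μ, μ = 2 * (1 + ht η' (φ w)) / ‖φ w - η'‖ ^ 2 := ⟨_, rfl⟩
  have hμ0 : 0 < μ := by rw [hμ]; positivity
  rw [← hμ] at b6
  have hDw : ∀ u v : ℂ, fderiv ℝ (jg φ) (η', w) (0, u) v = μ * exc φ n u v w := by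
    intro u v
    rw [← jg2_eq hW hs a4 hnw, b6]
  rw [hDw] at a1
  rw [hDw, hDw, hDw] at a2
  have c1 : 0 < exc φ n 1 1 w := by
    by_contra hcon
    exact absurd a1 (not_lt.2 (mul_nonpos_of_nonneg_of_nonpos hμ0.le (not_lt.1 hcon)))
  have c2 : 0 < excDet φ n w := by
    have h3 : 0 < μ ^ 2 * excDet φ n w := by
      unfold excDet
      nlinarith
    by_contra hcon
    exact absurd h3 (not_lt.2 (mul_nonpos_of_nonneg_of_nonpos (by positivity) (not_lt.1 hcon)))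
  exact ⟨(w, n), ⟨a4, b1, b2, ⟨c1, c2⟩, b3⟩, a3, a5⟩

/-- The number of inner normals is lower semicontinuous. -/
theorem lsc {φ : ℂ → E4} (h : SliceDisc φ) {ξ : E4} (hξ : ‖ξ‖ = 1) {k : ℕ}
    (hk : (k : ℕ∞) ≤ (inn φ (ball 0 1) ξ).encard) :
    ∀ᶠ η in 𝓝 ξ, ‖η‖ = 1 → (k : ℕ∞) ≤ (inn φ (ball 0 1) η).encard := by
  classical
  obtain ⟨t, hts, hcard⟩ := Set.exists_subset_encard_eq hk
  have hfin : t.Finite := Set.finite_of_encard_eq_coe hcard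
  have hP := h.patch
  have hinj : InjOn Prod.fst t := by
    rintro ⟨z, n⟩ ha ⟨z', n'⟩ hb hab
    obtain ⟨a1, a2, -, -, a5⟩ := hts ha
    obtain ⟨b1, b2, -, -, b5⟩ := hts hb
    simp only at hab a1 a2 a5 b1 b2 b5
    subst hab
    rw [foot_inj (h.inside _ a1) a2 b2 (by rw [a5, b5])]
  obtain ⟨O, hO, hOd⟩ := (hfin.image Prod.fst).t2_separation
  have hall : ∀ᶠ η in 𝓝 ξ, ∀ p ∈ t, ‖η‖ = 1 → ∃ q : ℂ × E4, q ∈ inn φ (ball 0 1) η ∧
      q.1 ∈ O p.1 := by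
    rw [hfin.eventually_all]
    intro p hp
    obtain ⟨a1, a2, a3, a4, a5⟩ := hts hp
    have h1 := lsc_at isOpen_ball hP.smooth hξ a1 (h.inside _ a1) a2 a3 a4 a5
      ((hO p.1).2.mem_nhds (hO p.1).1)
    filter_upwards [h1] with η hη hη1
    obtain ⟨q, q1, q2, -⟩ := hη hη1
    exact ⟨q, q1, q2⟩
  filter_upwards [hall] with η hη hη1
  have hex : ∀ p : ℂ × E4, ∃ q : ℂ × E4, p ∈ t → q ∈ inn φ (ball 0 1) η ∧ q.1 ∈ O p.1 := by
    intro p
    by_cases hp : p ∈ t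
    · obtain ⟨q, q1⟩ := hη p hp hη1
      exact ⟨q, fun _ => q1⟩
    · exact ⟨p, fun h' => absurd h' hp⟩
  choose f hf using hex
  have hfi : InjOn f t := by
    intro p hp p' hp' he
    by_contra hne
    have h1 : p.1 ≠ p'.1 := fun h2 => hne (hinj hp hp' h2)
    have h2 := hOd (mem_image_of_mem _ hp) (mem_image_of_mem _ hp') h1
    have h3 := (hf p hp).2
    have h4 := (hf p' hp').2
    rw [he] at h3
    exact Set.disjoint_left.1 h2 h3 h4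
  have h5 : f '' t ⊆ inn φ (ball 0 1) η := by
    rintro _ ⟨p, hp, rfl⟩
    exact (hf p hp).1
  calc (k : ℕ∞) = t.encard := hcard.symm
    _ = (f '' t).encard := (hfi.encard_image).symm
    _ ≤ _ := encard_le_encard h5

/-- Conversion of the Morse condition. -/
lemma Generic.morse_ht {φ : ℂ → E4} (h : SliceDisc φ) {ξ : E4} (hξ : ‖ξ‖ = 1) (hg : Generic φ ξ) :
    ∀ z ∈ ball (0 : ℂ) 1, fderiv ℝ (fun w => ht ξ (φ w)) z = 0 → ∀ u : ℂ,
      (∀ v : ℂ, fderiv ℝ (fderiv ℝ (fun w => ht ξ (φ w))) z u v = 0) → u = 0 := by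
  obtain ⟨W, hW, hsub, hs⟩ := h.smooth
  intro z hz hc u hu
  have hz' := ball_subset_closedBall hz
  have hsm : ContDiffAt ℝ ∞ φ z := hs.contDiffAt (hW.mem_nhds (hsub hz'))
  have hne := hg.miss z hz'
  have htsm : ContDiffAt ℝ ∞ (fun w => ht ξ (φ w)) z := (ht_smooth hne).comp _ hsm
  have hev := normsq_eventually Pool.Agent.Y614.RB.theta hξ hsm.continuousAt hne
  obtain ⟨e1, e2, -⟩ := Pool.Agent.Y640.RB.expf (fun w => ht ξ (φ w)) _ htsm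
  refine hg.morse z hz ?_ u fun v => ?_
  · rw [hev.fderiv_eq]
    exact e1.2 hc
  · rw [(hev.fderiv (𝕜 := ℝ)).fderiv_eq, e2 hc, hu v, mul_zero]

/-- Near a generic point the number of inner normals does not get larger. -/
theorem Generic.upper {φ : ℂ → E4} (h : SliceDisc φ) {ξ : E4} (hξ : ‖ξ‖ = 1) (hg : Generic φ ξ)
    {m : ℕ} (hm : (inn φ (ball 0 1) ξ).encard ≤ m) :
    ∃ ε : ℝ, 0 < ε ∧ ∀ η : E4, ‖η‖ = 1 → ‖η - ξ‖ < ε → (inn φ (ball 0 1) η).encard ≤ m := by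
  refine stab h hξ hg.miss m (hg.morse_ht h hξ) ?_
  obtain ⟨W, hW, hsub, hs⟩ := h.smooth
  have hset : {z : ℂ | z ∈ ball (0 : ℂ) 1 ∧ IsLocalMin (fun w => ht ξ (φ w)) z} =
      {z : ℂ | z ∈ ball (0 : ℂ) 1 ∧ IsLocalMax (fun w => ‖push ξ (φ w)‖ ^ 2) z} := by
    ext z
    refine and_congr_right fun hz => ?_
    have hz' := ball_subset_closedBall hz
    have hsm : ContDiffAt ℝ ∞ φ z := hs.contDiffAt (hW.mem_nhds (hsub hz'))
    have hne := hg.miss z hz'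
    have htsm : ContDiffAt ℝ ∞ (fun w => ht ξ (φ w)) z := (ht_smooth hne).comp _ hsm
    have hev := normsq_eventually Pool.Agent.Y614.RB.theta hξ hsm.continuousAt hne
    obtain ⟨-, -, e3⟩ := Pool.Agent.Y640.RB.expf (fun w => ht ξ (φ w)) _ htsm
    exact ⟨fun h1 => (e3.2 h1).congr hev.symm, fun h1 => e3.1 (h1.congr hev)⟩
  rw [hset, hg.count]
  exact hm

/-- For a generic point there are only finitely many inner normals. -/
theorem Generic.finite {φ : ℂ → E4} (h : SliceDisc φ) {ξ : E4} (hξ : ‖ξ‖ = 1)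
    (hg : Generic φ ξ) : (inn φ (ball 0 1) ξ).Finite := by
  by_contra hinf
  have hinf' : (inn φ (ball 0 1) ξ).Infinite := hinf
  obtain ⟨W, hW, hsub, hs⟩ := h.smooth
  have hat : ∀ z ∈ W, ContDiffAt ℝ ∞ φ z := fun z hz => hs.contDiffAt (hW.mem_nhds hz)
  let p : ℕ → ℂ × E4 := fun k => (hinf'.natEmbedding _ k : ℂ × E4)
  have hp : ∀ k, p k ∈ inn φ (ball 0 1) ξ := fun k => (hinf'.natEmbedding _ k).2
  have hpi : ∀ i j, (p i).1 = (p j).1 → i = j := by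
    intro i j hij
    obtain ⟨a1, a2, -, -, a5⟩ := hp i
    obtain ⟨b1, b2, -, -, b5⟩ := hp j
    have h2 : (p i).2 = (p j).2 := by
      rw [← hij] at b5
      exact foot_inj (h.inside _ a1) a2 b2 (by rw [a5, b5])
    have h3 : p i = p j := Prod.ext hij h2
    exact (hinf'.natEmbedding _).injective (Subtype.ext h3)
  obtain ⟨a, ha, σ, hσ, hlim⟩ := (isCompact_closedBall (0 : ℂ) 1).tendsto_subseq
    (x := fun k => (p k).1) (fun k => ball_subset_closedBall (hp k).1)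
  have hsm := hat _ (hsub ha)
  have hne := hg.miss _ ha
  have hj0 : ∀ k, jg φ (ξ, (p (σ k)).1) = 0 := by
    intro k
    obtain ⟨a1, a2, a3, -, a5⟩ := hp (σ k)
    have h1 := hsub (ball_subset_closedBall a1)
    rw [← jg_eq (hat _ h1) (hg.miss _ (ball_subset_closedBall a1))]
    exact crit_of_foot hξ (hat _ h1) (h.inside _ a1) a2 a3 a5
  have hlim' : Tendsto (fun k => (p (σ k)).1) atTop (𝓝 a) := hlim
  have hja : jg φ (ξ, a) = 0 := by
    have hc := (jg_smooth hsm hne).continuousAt.tendsto.comp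
      ((tendsto_const_nhds (x := ξ)).prodMk_nhds hlim')
    refine tendsto_nhds_unique hc ?_
    exact tendsto_const_nhds.congr fun k => (hj0 k).symm
  have htsm : ContDiffAt ℝ ∞ (fun w => ht ξ (φ w)) a := (ht_smooth hne).comp _ hsm
  have hc : fderiv ℝ (fun w => ht ξ (φ w)) a = 0 := by rw [jg_eq hsm hne, hja]
  have hball : a ∈ ball (0 : ℂ) 1 := by
    rcases (mem_closedBall.1 ha).lt_or_eq with h4 | h4
    · exact h4
    · exfalso
      have h5 := Pool.Agent.Y977.RB.trans ξ φ a a hξ hsm (h.bdry _ h4) hne (h.trans _ h4)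
      have hev := normsq_eventually Pool.Agent.Y614.RB.theta hξ hsm.continuousAt hne
      obtain ⟨e1, -, -⟩ := Pool.Agent.Y640.RB.expf (fun w => ht ξ (φ w)) _ htsm
      rw [hev.fderiv_eq, e1.2 hc] at h5
      simp at h5
  have hfin := inj_seq hsm hne (fun u hu => hg.morse_ht h hξ a hball hc u fun v => by
      rw [jg2_eq hW hs (hsub ha) hne, hu]
      rfl) (tendsto_const_nhds (x := ξ)) hlim' (hlim'.comp (tendsto_add_atTop_nat 1))
    (Eventually.of_forall hj0) (Eventually.of_forall fun k => hj0 (k + 1))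
  obtain ⟨k, hk⟩ := hfin.exists
  have h6 := hσ.injective (hpi _ _ hk)
  simp at h6

/-- Near a generic point the number of inner normals is constant. -/
theorem Generic.const {φ : ℂ → E4} (h : SliceDisc φ) {ξ : E4} (hξ : ‖ξ‖ = 1)
    (hg : Generic φ ξ) : ∃ (N : ℕ) (ε : ℝ), 0 < ε ∧ (inn φ (ball 0 1) ξ).encard = N ∧
      ∀ η : E4, ‖η‖ = 1 → ‖η - ξ‖ < ε → (inn φ (ball 0 1) η).encard = N := by
  have hf := hg.finite h hξ
  have hN := hf.encard_eq_coe_toFinset_card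
  obtain ⟨N, hN'⟩ : ∃ N : ℕ, N = hf.toFinset.card := ⟨_, rfl⟩
  rw [← hN'] at hN
  obtain ⟨ε₁, hε₁, h1⟩ := hg.upper h hξ (m := N) hN.le
  have h2 := lsc h hξ (k := N) hN.ge
  obtain ⟨ε₂, hε₂, h3⟩ := Metric.eventually_nhds_iff.1 h2
  refine ⟨N, min ε₁ ε₂, lt_min hε₁ hε₂, hN, fun η hη hd => le_antisymm ?_ ?_⟩
  · exact h1 η hη (hd.trans_le (min_le_left _ _))
  · refine h3 ?_ hη
    rw [dist_eq_norm]
    exact hd.trans_le (min_le_right _ _)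

end Pool.Agent.H55HC
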