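import Pool.Agent.H55HC.Lsc

/-!
One slice disc: equivalent conditions; quantisation.
-/

set_option autoImplicit false

namespace Pool.Agent.H55HC

open Pool.Agent.Y503.RB
open scoped ContDiff RealInnerProductSpace ENNReal Topology
open MeasureTheory Set Metric Filter

theorem upper_of_morse {φ : ℂ → E4} (h : SliceDisc φ) {ξ : E4} (hξ : ‖ξ‖ = 1)
    (miss : ∀ z ∈ closedBall (0 : ℂ) 1, φ z ≠ ξ) {m : ℕ}
    (hM : MorseDisc (fun w => push ξ (φ w)) m) :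
    ∃ ε : ℝ, 0 < ε ∧ ∀ η : E4, ‖η‖ = 1 → ‖η - ξ‖ < ε → (inn φ (ball 0 1) η).encard ≤ m := by
  obtain ⟨W, hW, hsub, hs⟩ := h.smooth
  have hat : ∀ z ∈ closedBall (0 : ℂ) 1, ContDiffAt ℝ ∞ φ z := fun z hz =>
    hs.contDiffAt (hW.mem_nhds (hsub hz))
  have hts : ∀ z ∈ closedBall (0 : ℂ) 1, ContDiffAt ℝ ∞ (fun w => ht ξ (φ w)) z := fun z hz =>
    (ht_smooth (miss z hz)).comp _ (hat z hz)
  have hev : ∀ z ∈ closedBall (0 : ℂ) 1, _ := fun z hz =>
    normsq_eventually Pool.Agent.Y614.RB.theta hξ (hat z hz).continuousAt (miss z hz)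
  refine stab h hξ miss m ?_ ?_
  · intro z hz hc u hu
    have hz' := ball_subset_closedBall hz
    obtain ⟨e1, e2, -⟩ := Pool.Agent.Y640.RB.expf (fun w => ht ξ (φ w)) _ (hts z hz')
    refine hM.morse z hz ?_ u fun v => ?_
    · rw [(hev z hz').fderiv_eq]
      exact e1.2 hc
    · rw [((hev z hz').fderiv (𝕜 := ℝ)).fderiv_eq, e2 hc, hu v, mul_zero]
  · have hset : {z : ℂ | z ∈ ball (0 : ℂ) 1 ∧ IsLocalMin (fun w => ht ξ (φ w)) z} =
        {z : ℂ | z ∈ ball (0 : ℂ) 1 ∧ IsLocalMax (fun w => ‖push ξ (φ w)‖ ^ 2) z} := by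
      ext z
      refine and_congr_right fun hz => ?_
      have hz' := ball_subset_closedBall hz
      obtain ⟨-, -, e3⟩ := Pool.Agent.Y640.RB.expf (fun w => ht ξ (φ w)) _ (hts z hz')
      exact ⟨fun h1 => (e3.2 h1).congr (hev z hz').symm, fun h1 => e3.1 (h1.congr (hev z hz'))⟩
    rw [hset]
    exact hM.maxima

/-- `crd` of a set with few elements on a set of positive measure -/
lemma strict_of_le {N : sphere (0 : E4) 1 → ℝ≥0∞} {S : Set (sphere (0 : E4) 1)}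
    (hSo : IsOpen S) (hSn : S.Nonempty) {m : ℕ} (h3 : ∀ ζ ∈ S, N ζ ≤ (m : ℝ≥0∞)) :
    ∫⁻ ζ in S, N ζ ∂(volume : Measure E4).toSphere < (m + 1) * (volume : Measure E4).toSphere S := by
  have hpos : 0 < (volume : Measure E4).toSphere S := hSo.measure_pos _ hSn
  have hfin : (volume : Measure E4).toSphere S < ⊤ := measure_lt_top _ _
  calc ∫⁻ ζ in S, N ζ ∂(volume : Measure E4).toSphere
      ≤ ∫⁻ _ in S, (m : ℝ≥0∞) ∂(volume : Measure E4).toSphere :=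
        setLIntegral_mono' hSo.measurableSet fun ζ hζ => h3 ζ hζ
    _ = m * (volume : Measure E4).toSphere S := by rw [setLIntegral_const]
    _ < (m + 1) * (volume : Measure E4).toSphere S := by
        refine ENNReal.mul_lt_mul_left hpos.ne' hfin.ne ?_
        exact ENNReal.lt_add_right (ENNReal.natCast_ne_top m) one_ne_zero

lemma cap_open (ξ : E4) (ε : ℝ) : MeasurableSet {η : E4 | ‖η - ξ‖ < ε} ∧
    IsOpen {ζ : sphere (0 : E4) 1 | (ζ : E4) ∈ {η : E4 | ‖η - ξ‖ < ε}} := by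
  have h1 : IsOpen {η : E4 | ‖η - ξ‖ < ε} :=
    isOpen_lt (continuous_id.sub continuous_const).norm continuous_const
  exact ⟨h1.measurableSet, h1.preimage continuous_subtype_val⟩

theorem one_tfae {φ : ℂ → E4} (h : SliceDisc φ) (m : ℕ) :
    List.TFAE [
      ∃ ξ : E4, ‖ξ‖ = 1 ∧ (∀ z ∈ closedBall (0 : ℂ) 1, φ z ≠ ξ) ∧
        SliceDisc (fun w => push ξ (φ w)) ∧ (∀ z ∈ sphere (0 : ℂ) 1, push ξ (φ z) = φ z) ∧
        MorseDisc (fun w => push ξ (φ w)) m,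
      ∃ E : Set E4, MeasurableSet E ∧ ∫⁻ z in ball (0 : ℂ) 1, curvTo φ E z <
          (m + 1) * (volume : Measure E4).toSphere {ξ : sphere (0 : E4) 1 | (ξ : E4) ∈ E},
      ¬ ∀ᵐ ξ : sphere (0 : E4) 1 ∂(volume : Measure E4).toSphere,
          (m : ℕ∞) + 1 ≤ (inn φ (ball 0 1) (ξ : E4)).encard,
      ∃ (ξ : E4) (ε : ℝ), ‖ξ‖ = 1 ∧ 0 < ε ∧
          ∀ η : E4, ‖η‖ = 1 → ‖η - ξ‖ < ε → (inn φ (ball 0 1) η).encard ≤ m] := by
  tfae_have 1 → 4 := by
    rintro ⟨ξ, hξ, h1, -, -, h4⟩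
    obtain ⟨ε, hε, h5⟩ := upper_of_morse h hξ h1 h4
    exact ⟨ξ, ε, hξ, hε, h5⟩
  tfae_have 4 → 2 := by
    rintro ⟨ξ, ε, hξ, hε, h3⟩
    obtain ⟨hEm, hEo⟩ := cap_open ξ ε
    refine ⟨{η | ‖η - ξ‖ < ε}, hEm, ?_⟩
    rw [← formula h.patch measurableSet_ball (subset_refl _) hEm]
    refine strict_of_le hEo ⟨⟨ξ, by simpa using hξ⟩, by simpa using hε⟩ fun ζ hζ => ?_
    have := h3 ζ (by simp) hζ
    unfold crd
    exact_mod_cast ENat.toENNReal_le.2 this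
  tfae_have 2 → 3 := by
    rintro ⟨E, hE, hT⟩ hae
    rw [← formula h.patch measurableSet_ball (subset_refl _) hE] at hT
    refine absurd hT (not_lt.2 ?_)
    have hS : MeasurableSet {ξ : sphere (0 : E4) 1 | (ξ : E4) ∈ E} := measurable_subtype_coe hE
    rw [← setLIntegral_const]
    refine setLIntegral_mono_ae' hS ?_
    filter_upwards [hae] with ξ hξ _
    unfold crd
    have h4 : (((m : ℕ∞) + 1 : ℕ∞) : ℝ≥0∞) ≤ ((inn φ (ball 0 1) (ξ : E4)).encard : ℝ≥0∞) :=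
      ENat.toENNReal_le.2 hξ
    simpa using h4
  tfae_have 3 → 1 := by
    intro h3
    have h4 : ∃ ξ : sphere (0 : E4) 1, Generic φ ξ ∧ (inn φ (ball 0 1) (ξ : E4)).encard ≤ m := by
      by_contra hcon
      push Not at hcon
      apply h3
      filter_upwards [generic_ae h] with ξ hξ
      exact Order.add_one_le_of_lt (hcon ξ hξ)
    obtain ⟨ξ, hξ, hξ0⟩ := h4
    exact ⟨ξ, by simp, hξ.miss, hξ.slice, hξ.bdry, (hξ.morseDisc m).2 hξ0⟩
  tfae_finish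

/-- Quantisation. -/
theorem quant {φ : ℂ → E4} (h : SliceDisc φ) :
    ∀ᵐ ξ : sphere (0 : E4) 1 ∂(volume : Measure E4).toSphere, ∃ (N : ℕ) (ε : ℝ), 0 < ε ∧
      (∀ η : E4, ‖η‖ = 1 → ‖η - ξ‖ < ε → (inn φ (ball 0 1) η).encard = N) ∧
      ∀ E : Set E4, MeasurableSet E → (∀ η ∈ E, ‖η - ξ‖ < ε) →
        ∫⁻ z in ball (0 : ℂ) 1, curvTo φ E z =
          N * (volume : Measure E4).toSphere {ξ : sphere (0 : E4) 1 | (ξ : E4) ∈ E} := by
  filter_upwards [generic_ae h] with ξ hξ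
  obtain ⟨N, ε, hε, -, h2⟩ := hξ.const h (by simp)
  refine ⟨N, ε, hε, h2, fun E hE hEε => ?_⟩
  rw [← formula h.patch measurableSet_ball (subset_refl _) hE]
  have hS : MeasurableSet {ξ : sphere (0 : E4) 1 | (ξ : E4) ∈ E} := measurable_subtype_coe hE
  rw [← setLIntegral_const]
  refine setLIntegral_congr_fun hS fun ζ hζ => ?_
  have := h2 ζ (by simp) (hEε ζ hζ)
  unfold crd
  rw [this]
  simp

end Pool.Agent.H55HC
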