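import Pool.Agent.H55HC.Gen

/-!
The inverse `pull ξ` applied to a slice disc.
-/

set_option autoImplicit false

namespace Pool.Agent.H55HC

open Pool.Agent.Y503.RB
open scoped ContDiff RealInnerProductSpace ENNReal Topology
open MeasureTheory Set Metric Filter

/-- properties of `pull ξ` -/
lemma pull_spec {ξ w : E4} (hξ : ‖ξ‖ = 1) (hw0 : w ≠ 0) (hw1 : w ≠ ‖w‖ • ξ)
    (hwe : Real.log ‖w‖ < 1) :
    pull ξ w ≠ ξ ∧ push ξ (pull ξ w) = w ∧ ContDiffAt ℝ ∞ (pull ξ) w ∧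
      ht ξ (pull ξ w) = -Real.log ‖w‖ ∧ (‖w‖ = 1 → pull ξ w = w) := by
  have hn : 0 < ‖w‖ := norm_pos_iff.2 hw0
  obtain ⟨u, hu⟩ : ∃ u, u = ‖w‖⁻¹ • w := ⟨_, rfl⟩
  have huw : ‖w‖ • u = w := by rw [hu, smul_smul, mul_inv_cancel₀ hn.ne', one_smul]
  have hu1 : ‖u‖ = 1 := by
    rw [hu, norm_smul, norm_inv, norm_norm, inv_mul_cancel₀ hn.ne']
  have huξ : u ≠ ξ := by
    rintro h
    apply hw1
    rw [← h, huw]
  have hξξ : ⟪ξ, ξ⟫ = (1 : ℝ) := by rw [real_inner_self_eq_norm_sq, hξ, one_pow]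
  have hy : ⟪inv ξ u, ξ⟫ = (0 : ℝ) := by
    rw [Pool.Agent.Y614.RB.inner_inv hξ huξ]
    unfold ht
    rw [hu1]
    simp
  obtain ⟨q, hq⟩ : ∃ q, q = inv ξ u + Real.log ‖w‖ • ξ := ⟨_, rfl⟩
  have hqi : ⟪q, ξ⟫ = Real.log ‖w‖ := by
    rw [hq, inner_add_left, hy, real_inner_smul_left, hξξ]
    ring
  have hqξ : q ≠ ξ := by
    rintro h
    rw [h, hξξ] at hqi
    linarith
  have hpull : pull ξ w = inv ξ q := by
    unfold pull
    rw [hq, hu]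
  have hxξ : inv ξ q ≠ ξ := Pool.Agent.Y614.RB.inv_ne hqξ
  have hht : ht ξ (inv ξ q) = -Real.log ‖w‖ := by
    have h1 := Pool.Agent.Y614.RB.inner_inv hξ hxξ
    rw [Pool.Agent.Y614.RB.inv_inv hqξ, hqi] at h1
    linarith
  have hpush : push ξ (inv ξ q) = w := by
    unfold push
    rw [hht, Pool.Agent.Y614.RB.inv_inv hqξ, neg_neg, Real.exp_log hn]
    have h2 : q + -Real.log ‖w‖ • ξ = inv ξ u := by
      rw [hq]
      module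
    rw [h2, Pool.Agent.Y614.RB.inv_inv huξ, huw]
  rw [hpull]
  refine ⟨hxξ, hpush, ?_, hht, fun h1 => ?_⟩
  · have := (Pool.Agent.Y614.RB.theta ξ hξ (inv ξ q) hxξ).2.2.2.2
    rwa [hpush] at this
  · rw [hq, h1, Real.log_one, zero_smul, add_zero, Pool.Agent.Y614.RB.inv_inv huξ]
    rw [h1, one_smul] at huw
    exact huw

/-- The set in which `pull ξ` is smooth. -/
def dom (ξ : E4) : Set E4 := {w | w ≠ ‖w‖ • ξ ∧ ‖w‖ < Real.exp 1}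

lemma isOpen_dom (ξ : E4) : IsOpen (dom ξ) := by
  have h1 : IsOpen {w : E4 | w ≠ ‖w‖ • ξ} :=
    isOpen_ne_fun continuous_id (continuous_norm.smul continuous_const)
  have h2 : IsOpen {w : E4 | ‖w‖ < Real.exp 1} := isOpen_lt continuous_norm continuous_const
  exact h1.inter h2

lemma dom_spec {ξ w : E4} (hξ : ‖ξ‖ = 1) (hw : w ∈ dom ξ) : w ≠ 0 ∧
    pull ξ w ≠ ξ ∧ push ξ (pull ξ w) = w ∧ ContDiffAt ℝ ∞ (pull ξ) w ∧
      ht ξ (pull ξ w) = -Real.log ‖w‖ ∧ (‖w‖ = 1 → pull ξ w = w) := by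
  have hw0 : w ≠ 0 := by
    rintro rfl
    exact hw.1 (by simp)
  refine ⟨hw0, pull_spec hξ hw0 hw.1 ?_⟩
  have hn : 0 < ‖w‖ := norm_pos_iff.2 hw0
  have h := Real.log_lt_log hn hw.2
  rwa [Real.log_exp] at h

/-- The norm of `pull ξ w`. -/
lemma pull_norm {ξ w : E4} (hξ : ‖ξ‖ = 1) (hw : w ∈ dom ξ) :
    ‖pull ξ w‖ ^ 2 = 1 + ‖pull ξ w - ξ‖ ^ 2 * (Real.log (‖w‖ ^ 2) / 2) := by
  obtain ⟨-, h1, -, -, h2, -⟩ := dom_spec hξ hw
  have h3 : 0 < ‖pull ξ w - ξ‖ := norm_pos_iff.2 (sub_ne_zero.2 h1)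
  unfold ht at h2
  rw [div_eq_iff (by positivity)] at h2
  rw [Real.log_pow]
  push_cast
  linear_combination -h2

/-- The pulled disc. -/
theorem slice_pull {ξ : E4} (hξ : ‖ξ‖ = 1) {ψ : ℂ → E4} (h : SliceDisc ψ)
    (hd : ∀ z ∈ closedBall (0 : ℂ) 1, ψ z ∈ dom ξ) :
    SliceDisc (fun w => pull ξ (ψ w)) ∧ (∀ z ∈ sphere (0 : ℂ) 1, pull ξ (ψ z) = ψ z) ∧
      (∀ z ∈ closedBall (0 : ℂ) 1, pull ξ (ψ z) ≠ ξ) ∧
      ∀ z ∈ closedBall (0 : ℂ) 1, ∀ᶠ w in 𝓝 z, push ξ (pull ξ (ψ w)) = ψ w := by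
  obtain ⟨W, hW, hsub, hs⟩ := h.smooth
  have hat : ∀ z ∈ W, ContDiffAt ℝ ∞ ψ z := fun z hz => hs.contDiffAt (hW.mem_nhds hz)
  have hWo : IsOpen (W ∩ ψ ⁻¹' dom ξ) := hs.continuousOn.isOpen_inter_preimage hW (isOpen_dom ξ)
  have hev : ∀ z ∈ closedBall (0 : ℂ) 1, ∀ᶠ w in 𝓝 z, w ∈ W ∩ ψ ⁻¹' dom ξ := fun z hz =>
    hWo.mem_nhds ⟨hsub hz, hd z hz⟩
  have hpp : ∀ z ∈ closedBall (0 : ℂ) 1, ∀ᶠ w in 𝓝 z, push ξ (pull ξ (ψ w)) = ψ w := by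
    intro z hz
    filter_upwards [hev z hz] with w hw
    exact (dom_spec hξ hw.2).2.2.1
  have hcd : ∀ z ∈ W ∩ ψ ⁻¹' dom ξ, ContDiffAt ℝ ∞ (fun w => pull ξ (ψ w)) z := by
    intro z hz
    exact (dom_spec hξ hz.2).2.2.2.1.comp z (hat z hz.1)
  refine ⟨⟨⟨W ∩ ψ ⁻¹' dom ξ, hWo, fun z hz => ⟨hsub hz, hd z hz⟩,
    fun z hz => (hcd z hz).contDiffWithinAt⟩, ?_, ?_, ?_, ?_, ?_⟩, ?_, ?_, hpp⟩
  · intro a ha b hb hab
    apply h.inj ha hb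
    have h1 := (dom_spec hξ (hd a ha)).2.2.1
    have h2 := (dom_spec hξ (hd b hb)).2.2.1
    rw [← h1, ← h2]
    exact congrArg (push ξ) hab
  · intro z hz
    have d1' : DifferentiableAt ℝ (fun w => pull ξ (ψ w)) z :=
      (hcd z ⟨hsub hz, hd z hz⟩).differentiableAt (by simp)
    have d2' : DifferentiableAt ℝ (push ξ) (pull ξ (ψ z)) :=
      ((Pool.Agent.Y614.RB.theta ξ hξ _ (dom_spec hξ (hd z hz)).2.1).2.2.2.1).differentiableAt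
        (by simp)
    have e1 : fderiv ℝ (fun w => push ξ (pull ξ (ψ w))) z =
        (fderiv ℝ (push ξ) (pull ξ (ψ z))).comp (fderiv ℝ (fun w => pull ξ (ψ w)) z) :=
      fderiv_comp (g := push ξ) (f := fun w => pull ξ (ψ w)) z d2' d1'
    have e2 : fderiv ℝ (fun w => push ξ (pull ξ (ψ w))) z = fderiv ℝ ψ z :=
      Filter.EventuallyEq.fderiv_eq (hpp z hz)
    rw [e2] at e1
    have h3 := h.imm z hz
    rw [e1] at h3
    intro a b hab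
    apply h3
    simp only [ContinuousLinearMap.comp_apply]
    rw [hab]
  · intro z hz
    have h1 := dom_spec hξ (hd z (ball_subset_closedBall hz))
    have h2 : 0 < ht ξ (pull ξ (ψ z)) := by
      rw [h1.2.2.2.2.1]
      have := Real.log_neg (norm_pos_iff.2 h1.1) (h.inside z hz)
      linarith
    have h3 : 0 < ‖pull ξ (ψ z) - ξ‖ := norm_pos_iff.2 (sub_ne_zero.2 h1.2.1)
    unfold ht at h2
    have h4 : 0 < 1 - ‖pull ξ (ψ z)‖ ^ 2 := by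
      by_contra hcon
      exact absurd h2 (not_lt.2 (div_nonpos_of_nonpos_of_nonneg (not_lt.1 hcon) (by positivity)))
    show ‖pull ξ (ψ z)‖ < 1
    nlinarith [norm_nonneg (pull ξ (ψ z))]
  · intro z hz
    show ‖pull ξ (ψ z)‖ = 1
    rw [(dom_spec hξ (hd z (sphere_subset_closedBall hz))).2.2.2.2.2 (h.bdry z hz)]
    exact h.bdry z hz
  · intro z hz
    have hz' := sphere_subset_closedBall hz
    have h1 := dom_spec hξ (hd z hz')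
    have hevn : (fun w => ‖pull ξ (ψ w)‖ ^ 2) =ᶠ[𝓝 z]
        fun w => 1 + ‖pull ξ (ψ w) - ξ‖ ^ 2 * (Real.log (‖ψ w‖ ^ 2) / 2) := by
      filter_upwards [hev z hz'] with w hw
      exact pull_norm hξ hw.2
    have cA : ContDiffAt ℝ ∞ (fun w => ‖pull ξ (ψ w) - ξ‖ ^ 2) z :=
      ((hcd z ⟨hsub hz', hd z hz'⟩).sub contDiffAt_const).norm_sq ℝ
    have cN : ContDiffAt ℝ ∞ (fun w => ‖ψ w‖ ^ 2) z := (hat z (hsub hz')).norm_sq ℝ
    have dA : DifferentiableAt ℝ (fun w => ‖pull ξ (ψ w) - ξ‖ ^ 2) z :=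
      cA.differentiableAt (by simp)
    have dN : DifferentiableAt ℝ (fun w => ‖ψ w‖ ^ 2) z := cN.differentiableAt (by simp)
    have hN1 : ‖ψ z‖ ^ 2 = 1 := by rw [h.bdry z hz, one_pow]
    have hL : HasFDerivAt (fun w => Real.log (‖ψ w‖ ^ 2) / 2)
        ((2 : ℝ)⁻¹ • fderiv ℝ (fun w => ‖ψ w‖ ^ 2) z) z := by
      have h5 := (dN.hasFDerivAt.log (by rw [hN1]; norm_num)).const_mul ((2 : ℝ)⁻¹)
      rw [hN1, inv_one, one_smul] at h5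
      have e : (fun w => (2 : ℝ)⁻¹ * Real.log (‖ψ w‖ ^ 2)) =
          fun w => Real.log (‖ψ w‖ ^ 2) / 2 := by
        funext w
        ring
      rw [e] at h5
      exact h5
    have hfd := (dA.hasFDerivAt.mul hL).const_add (1 : ℝ)
    have hfe := hfd.fderiv
    have e3 := hevn.fderiv_eq (𝕜 := ℝ)
    rw [e3]
    have e4 : (fun w => 1 + ‖pull ξ (ψ w) - ξ‖ ^ 2 * (Real.log (‖ψ w‖ ^ 2) / 2)) =
      fun w => 1 + ((fun w => ‖pull ξ (ψ w) - ξ‖ ^ 2) * fun w => Real.log (‖ψ w‖ ^ 2) / 2) w := rfl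
    rw [e4, hfe]
    simp only [hN1, Real.log_one, zero_div, _root_.smul_apply, zero_smul, add_zero, smul_eq_mul]
    have h6 := h.trans z hz
    have h7 : 0 < ‖pull ξ (ψ z) - ξ‖ := norm_pos_iff.2 (sub_ne_zero.2 h1.2.1)
    positivity
  · intro z hz
    exact (dom_spec hξ (hd z (sphere_subset_closedBall hz))).2.2.2.2.2 (h.bdry z hz)
  · intro z hz
    exact (dom_spec hξ (hd z hz)).2.1

/-- a good direction exists -/
theorem exists_dir {ψ : ℂ → E4} (h : SliceDisc ψ) (h0 : ∀ z ∈ closedBall (0 : ℂ) 1, ψ z ≠ 0) :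
    ∃ ξ : E4, ‖ξ‖ = 1 ∧ ∀ z ∈ closedBall (0 : ℂ) 1, ψ z ∈ dom ξ := by
  obtain ⟨W, hW, hsub, hs⟩ := h.smooth
  have hZ := Pool.Agent.Y977.RB.null ψ W hW hs
  obtain ⟨y, hy, hyZ⟩ : ∃ y : E4, y ∈ ({0}ᶜ : Set E4) ∧
      y ∉ {y : E4 | ∃ r : ℝ, ∃ z ∈ W, y = r • ψ z} := by
    by_contra hcon
    push Not at hcon
    have h1 : (volume : Measure E4) ({0}ᶜ : Set E4) = 0 := measure_mono_null hcon hZ
    have h2 : (volume : Measure E4) (({0}ᶜ : Set E4)) ≠ 0 := by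
      refine (IsOpen.measure_pos volume isOpen_compl_singleton ?_).ne'
      exact ⟨EuclideanSpace.single 0 1, by simp⟩
    exact h2 h1
  have hy0 : y ≠ 0 := hy
  have hn : 0 < ‖y‖ := norm_pos_iff.2 hy0
  refine ⟨‖y‖⁻¹ • y, ?_, fun z hz => ⟨fun hcon => hyZ ?_, ?_⟩⟩
  · rw [norm_smul, norm_inv, norm_norm, inv_mul_cancel₀ hn.ne']
  · have hp : 0 < ‖ψ z‖ := norm_pos_iff.2 (h0 z hz)
    refine ⟨‖y‖ * ‖ψ z‖⁻¹, z, hsub hz, ?_⟩
    nth_rw 2 [hcon]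
    rw [smul_smul, smul_smul]
    have : ‖y‖ * ‖ψ z‖⁻¹ * (‖ψ z‖ * ‖y‖⁻¹) = 1 := by field_simp
    rw [mul_assoc (‖y‖ * ‖ψ z‖⁻¹)] at *
    rw [this, one_smul]
  · have h1 : ‖ψ z‖ ≤ 1 := by
      rcases (mem_closedBall.1 hz).lt_or_eq with h2 | h2
      · exact (h.inside z h2).le
      · exact (h.bdry z h2).le
    have h2 : (1 : ℝ) < Real.exp 1 := Real.one_lt_exp_iff.2 one_pos
    linarith

end Pool.Agent.H55HC
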