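import Pool.Agent.H55HC.Gen
import Pool.Agent.Y987.RB.Par

/-!
Inner normals of surfaces: generic points at infinity.
-/

set_option autoImplicit false

namespace Pool.Agent.H55HC

open Pool.Agent.Y503.RB
open scoped ContDiff RealInnerProductSpace ENNReal Topology
open MeasureTheory Set Metric Filter

/-- `n` is an inner normal of the surface `F` at the interior point `p`. -/
def InnAt (F : Set E4) (p n : E4) : Prop :=
  ‖p‖ < 1 ∧ ‖n‖ = 1 ∧ ∃ (φ : ℂ → E4) (U : Set ℂ) (V : Set E4) (z : ℂ), BPatch φ U ∧ IsOpen V ∧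
    p ∈ V ∧ F ∩ V = φ '' U ∧ z ∈ U ∧ φ z = p ∧ (∀ v : ℂ, ⟪n, d1 φ v z⟫ = 0) ∧ Inner φ n z

/-- The inner normals of `F` with point at infinity `ξ`. -/
def sinn (F : Set E4) (ξ : E4) : Set (E4 × E4) := {q | InnAt F q.1 q.2 ∧ foot q.1 q.2 = ξ}

/-- `ξ` is generic for the patch `φ`. -/
def GP (φ : ℂ → E4) (U : Set ℂ) (ξ : E4) : Prop :=
  ∀ z ∈ U, fderiv ℝ (fun w => ‖push ξ (φ w)‖ ^ 2) z = 0 →
    ∃ n : E4, ‖n‖ = 1 ∧ (∀ v : ℂ, ⟪n, d1 φ v z⟫ = 0) ∧ foot (φ z) n = ξ ∧ excDet φ n z ≠ 0 ∧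
      (∃ κ : ℝ, 0 < κ ∧ ∀ u v : ℂ,
        fderiv ℝ (fderiv ℝ (fun w => ‖push ξ (φ w)‖ ^ 2)) z u v = -κ * exc φ n u v z) ∧
      (IsLocalMax (fun w => ‖push ξ (φ w)‖ ^ 2) z → Inner φ n z)

theorem gp_ae {φ : ℂ → E4} {U : Set ℂ} (hP : Patch φ U) :
    ∀ᵐ ξ : sphere (0 : E4) 1 ∂(volume : Measure E4).toSphere, GP φ U (ξ : E4) := by
  obtain ⟨N₁, N₂, U', hall, hU⟩ := Pool.Agent.Y232.RB.Ref.cover Pool.Agent.Y297.RB.lf hP
  have hPj : ∀ j, Patch φ (U' j) := fun j =>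
    Pool.Agent.Y232.RB.Ref.patch_mono hP (hall j).2.2 (hall j).1
  let S : ℕ → Set E4 := fun j => cmap φ (N₁ j) (N₂ j) ''
    {x | zc x ∈ U' j ∧ (fderiv ℝ (cmap φ (N₁ j) (N₂ j)) x).det = 0}
  have hS : ∀ j, volume (S j) = 0 := by
    intro j
    refine addHaar_image_eq_zero_of_det_fderivWithin_eq_zero volume
      (f' := fun x => fderiv ℝ (cmap φ (N₁ j) (N₂ j)) x) ?_ (fun x hx => hx.2)
    intro x hx
    exact (((a_det _ _ _ _ (hPj j) (hall j).2.1 x hx.1).1.differentiableAt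
      (by simp)).hasFDerivAt).hasFDerivWithinAt
  have hnull : (volume : Measure E4).toSphere {ξ : sphere (0 : E4) 1 |
      ¬ (∀ j, ∀ x : E4, zc x ∈ U' j →
        cmap φ (N₁ j) (N₂ j) x = (1 / 2 : ℝ) • (ξ : E4) →
        (fderiv ℝ (cmap φ (N₁ j) (N₂ j)) x).det ≠ 0)} = 0 := by
    refine null_of_cone _ ?_
    refine measure_mono_null (t := ⋃ j, S j) ?_ ?_
    · rintro _ ⟨r, hr, ξ, hξ, rfl⟩
      have h2 : ¬ ∀ j, ∀ x : E4, zc x ∈ U' j →
          cmap φ (N₁ j) (N₂ j) x = (1 / 2 : ℝ) • (ξ : E4) →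
          (fderiv ℝ (cmap φ (N₁ j) (N₂ j)) x).det ≠ 0 := hξ
      push Not at h2
      obtain ⟨j, x, hx, hxe, hx0⟩ := h2
      refine mem_iUnion.2 ⟨j, mk4 (zc x) (x 2) (2 * r * x 3), ⟨by simpa using hx, ?_⟩, ?_⟩
      · have h3 := (a_det _ _ _ _ (hPj j) (hall j).2.1 x hx).2
        rw [hx0, abs_zero] at h3
        have h4 := (a_det _ _ _ _ (hPj j) (hall j).2.1 (mk4 (zc x) (x 2) (2 * r * x 3))
          (by simpa using hx)).2
        rw [mk4_zc, mk4_two, mk4_three] at h4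
        have h5 : |x 3| ^ 3 ≠ 0 := by
          intro h5
          have h6 : x 3 = 0 := by simpa using h5
          have h7 : cmap φ (N₁ j) (N₂ j) x = 0 := by
            unfold cmap
            rw [h6, zero_smul]
          rw [h7] at hxe
          have h8 := congrArg norm hxe
          rw [norm_zero, norm_smul] at h8
          simp at h8
        have h6 : dens0 φ (nor (N₁ j) (N₂ j) (x 2) (zc x)) (zc x) = 0 :=
          (mul_eq_zero.1 h3.symm).resolve_left h5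
        rw [h6, mul_zero] at h4
        exact abs_eq_zero.1 h4
      · have h3 : cmap φ (N₁ j) (N₂ j) (mk4 (zc x) (x 2) (2 * r * x 3)) =
            (2 * r) • cmap φ (N₁ j) (N₂ j) x := by
          simp only [cmap, mk4_zc, mk4_two, mk4_three]
          rw [smul_smul]
        rw [h3, hxe, smul_smul]
        congr 1
        ring
    · rw [measure_iUnion_null_iff]
      exact hS
  have hae : ∀ᵐ ξ : sphere (0 : E4) 1 ∂(volume : Measure E4).toSphere,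
      ∀ j, ∀ x : E4, zc x ∈ U' j →
        cmap φ (N₁ j) (N₂ j) x = (1 / 2 : ℝ) • (ξ : E4) →
        (fderiv ℝ (cmap φ (N₁ j) (N₂ j)) x).det ≠ 0 := hnull
  filter_upwards [hae] with ξ hreg
  have hξ : ‖(ξ : E4)‖ = 1 := by simp
  intro z hz hc
  obtain ⟨j, hj⟩ := mem_iUnion.1 (hU hz)
  obtain ⟨θ, hθ, h1, h2, h3, h4⟩ :=
    crit Pool.Agent.Y614.RB.theta Pool.Agent.Y141.RB.t_HESS Pool.Agent.Y640.RB.soc
      Pool.Agent.Y640.RB.expf Pool.Agent.Y640.RB.sym a_det Pool.Agent.Y977.RB.frame (hPj j)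
      (hall j).2.1 hξ (r := 1 / 2) (hreg j) hj hc
  obtain ⟨-, hn, -, -, -, -, -, hper, -⟩ :=
    Pool.Agent.Y692.RB.dg φ (N₁ j) (N₂ j) (U' j) (hPj j) (hall j).2.1 θ z hj
  refine ⟨nor (N₁ j) (N₂ j) θ z, hn, fun v => (hper v).1, ?_, h2, h3, h4⟩
  have h5 : cmap φ (N₁ j) (N₂ j) (mk4 z θ (1 / 2)) =
      (1 / 2 : ℝ) • foot (φ z) (nor (N₁ j) (N₂ j) θ z) := by
    simp only [cmap, gmap, mk4_zc, mk4_two, mk4_three]
  rw [h5] at h1
  have h6 := congrArg (fun y : E4 => (2 : ℝ) • y) h1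
  simp only [smul_smul] at h6
  norm_num at h6
  exact h6

/-- inner normals of a surface give local maxima -/
lemma smax_of_inn {F : Set E4} {ξ : E4} (hξ : ‖ξ‖ = 1) {q : E4 × E4} (hq : q ∈ sinn F ξ) :
    q.1 ∈ F ∧ ‖q.1‖ < 1 ∧ IsLocalMaxOn (fun x => ‖push ξ x‖) F q.1 := by
  obtain ⟨⟨h1, h2, φ, U, V, z, hB, hV, hpV, hFV, hz, hzp, h3, h4⟩, h5⟩ := hq
  have hsm : ContDiffAt ℝ ∞ φ z := hB.smooth.contDiffAt (hB.isOpen.mem_nhds hz)
  have hmax := max_of_inner hξ hsm (by rw [hzp]; exact h1) h2 h3 h4 (by rw [hzp]; exact h5)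
  have hF : q.1 ∈ F := by
    have : φ z ∈ F ∩ V := by
      rw [hFV]
      exact ⟨z, hz, rfl⟩
    rw [← hzp]
    exact this.1
  refine ⟨hF, h1, ?_⟩
  rw [← hzp]
  refine Pool.Agent.Y987.RB.locmax (N := fun x => ‖push ξ x‖) hB.emb hV hFV hz
    (by rw [hzp]; exact hpV) ?_
  filter_upwards [hmax] with w hw
  exact (pow_le_pow_iff_left₀ (norm_nonneg _) (norm_nonneg _) two_ne_zero).1 hw

/-- local maxima give inner normals for generic patches -/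
lemma inn_of_smax {F : Set E4} {ξ : E4} {φ : ℂ → E4} {U : Set ℂ} (hP : Patch φ U)
    (hsub : φ '' U ⊆ F) (hG : GP φ U ξ) {z : ℂ} (hz : z ∈ U)
    (hmax : IsLocalMaxOn (fun x => ‖push ξ x‖) F (φ z)) :
    ∃ n : E4, (z, n) ∈ inn φ U ξ := by
  have h1 := max_comp hP.isOpen hP.smooth.continuousOn hsub hz hmax
  have h2 : IsLocalMax (fun w => ‖push ξ (φ w)‖ ^ 2) z := by
    filter_upwards [h1] with w hw
    exact pow_le_pow_left₀ (norm_nonneg _) hw 2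
  obtain ⟨n, a1, a2, a3, -, -, a6⟩ := hG z hz h2.fderiv_eq_zero
  exact ⟨n, hz, a1, a2, a6 h2, a3⟩

/-- The point at infinity `ξ` is generic for the surface `F`. -/
structure SGeneric (F : Set E4) (ξ : E4) : Prop where
  miss : ξ ∉ F
  surf : PSurf (push ξ '' F)
  bdry : push ξ '' F ∩ sphere 0 1 = F ∩ sphere 0 1
  morse : ∀ q ∈ push ξ '' F, ‖q‖ < 1 → ∃ (φ : ℂ → E4) (U : Set ℂ) (V : Set E4) (z : ℂ),
    BPatch φ U ∧ IsOpen V ∧ q ∈ V ∧ push ξ '' F ∩ V = φ '' U ∧ z ∈ U ∧ φ z = q ∧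
    (fderiv ℝ (fun w => ‖φ w‖ ^ 2) z = 0 → ∀ u : ℂ,
      (∀ v : ℂ, fderiv ℝ (fderiv ℝ (fun w => ‖φ w‖ ^ 2)) z u v = 0) → u = 0)
  count : {q : E4 | q ∈ push ξ '' F ∧ ‖q‖ < 1 ∧
    IsLocalMaxOn (fun x => ‖x‖) (push ξ '' F) q}.encard = (sinn F ξ).encard

lemma SGeneric.morseSurf {F : Set E4} {ξ : E4} (h : SGeneric F ξ) (m : ℕ) :
    MorseSurf (push ξ '' F) m ↔ (sinn F ξ).encard ≤ m := by
  constructor
  · intro hM
    rw [← h.count]
    exact hM.maxima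
  · intro hm
    exact ⟨h.morse, by rw [h.count]; exact hm⟩

theorem sgeneric_of {F : Set E4} (h : PSurf F) {ξ : E4} (hξ : ‖ξ‖ = 1) (hne : ξ ∉ F)
    {ψ : ℕ → ℂ → E4} {U : ℕ → Set ℂ} {V : ℕ → Set E4}
    (hall : ∀ i, BPatch (ψ i) (U i) ∧ Patch (ψ i) (U i) ∧ IsOpen (V i) ∧ F ∩ V i = ψ i '' U i)
    (hcov : F ∩ ball 0 1 ⊆ ⋃ i, ψ i '' U i) (hG : ∀ i, GP (ψ i) (U i) ξ) : SGeneric F ξ := by
  have hneF : ∀ x ∈ F, x ≠ ξ := fun x hx he => hne (he ▸ hx)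
  have hTh := Pool.Agent.Y614.RB.theta
  have hDi := Pool.Agent.Y275.RB.diffeo
  obtain ⟨hs1, hs2, hs3⟩ := a_surf ξ F hξ h hne
  have hsub : ∀ k, ψ k '' U k ⊆ F := fun k => by
    rw [← (hall k).2.2.2]
    exact inter_subset_left
  have hneU : ∀ k, ∀ w ∈ U k, ψ k w ≠ ξ := fun k w hw => hneF _ (hsub k ⟨w, hw, rfl⟩)
  refine ⟨hne, hs1, hs2, ?_, ?_⟩
  · rintro q ⟨p, hp, rfl⟩ hq
    have hp1 : ‖p‖ < 1 := ((hDi ξ hξ).2.2.2 p (hneF p hp)).2.1.mp hq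
    obtain ⟨k, hk⟩ := mem_iUnion.mp (hcov ⟨hp, by simpa using hp1⟩)
    obtain ⟨z, hz, rfl⟩ := hk
    obtain ⟨V', hV', hFV'⟩ := hs3 (ψ k) (U k) (V k) (hall k).2.2.1 (hall k).2.2.2 (hneU k)
    refine ⟨fun w => push ξ (ψ k w), U k, V', z, a_bp ξ (ψ k) (U k) hξ (hall k).1 (hneU k), hV',
      ?_, hFV', hz, rfl, ?_⟩
    · have : push ξ (ψ k z) ∈ push ξ '' F ∩ V' := by
        rw [hFV']
        exact ⟨z, hz, rfl⟩
      exact this.2
    · intro hc u hu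
      obtain ⟨n, -, -, -, h2, ⟨κ, hκ, h3⟩, -⟩ := hG k z hz hc
      have hsm : ContDiffAt ℝ ∞ (ψ k) z :=
        (hall k).2.1.smooth.contDiffAt ((hall k).2.1.isOpen.mem_nhds hz)
      refine nondeg Pool.Agent.Y640.RB.sym hsm h2 hκ (fun v => ?_)
      rw [← h3 u v]
      exact hu v
  · have h1 : {q : E4 | q ∈ push ξ '' F ∧ ‖q‖ < 1 ∧
        IsLocalMaxOn (fun x => ‖x‖) (push ξ '' F) q} =
        (fun q : E4 × E4 => push ξ q.1) '' sinn F ξ := by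
      ext q
      constructor
      · rintro ⟨⟨p, hp, rfl⟩, hq, hmax⟩
        have hp1 : ‖p‖ < 1 := ((hDi ξ hξ).2.2.2 p (hneF p hp)).2.1.mp hq
        obtain ⟨k, hk⟩ := mem_iUnion.mp (hcov ⟨hp, by simpa using hp1⟩)
        obtain ⟨z, hz, rfl⟩ := hk
        have hct : ContinuousAt (push ξ) (ψ k z) :=
          (hTh ξ hξ (ψ k z) (hneF _ hp)).2.2.2.1.continuousAt
        have htd : Tendsto (push ξ) (𝓝[F] (ψ k z)) (𝓝[push ξ '' F] (push ξ (ψ k z))) :=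
          tendsto_nhdsWithin_iff.mpr ⟨hct.tendsto.mono_left nhdsWithin_le_nhds, by
            filter_upwards [self_mem_nhdsWithin] with x hx
            exact ⟨x, hx, rfl⟩⟩
        have hmax2 : IsLocalMaxOn (fun x => ‖push ξ x‖) F (ψ k z) := htd.eventually hmax
        obtain ⟨n, a0, a1, a2, a3, a4⟩ := inn_of_smax (hall k).2.1 (hsub k) (hG k) hz hmax2
        refine ⟨(ψ k z, n), ⟨⟨hp1, a1, ψ k, U k, V k, z, (hall k).1, (hall k).2.2.1, ?_,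
          (hall k).2.2.2, hz, rfl, a2, a3⟩, a4⟩, rfl⟩
        have : ψ k z ∈ F ∩ V k := by
          rw [(hall k).2.2.2]
          exact ⟨z, hz, rfl⟩
        exact this.2
      · rintro ⟨p, hp, rfl⟩
        obtain ⟨a1, a2, a3⟩ := smax_of_inn hξ hp
        refine ⟨⟨p.1, a1, rfl⟩, ((hDi ξ hξ).2.2.2 p.1 (hneF _ a1)).2.1.mpr a2, ?_⟩
        obtain ⟨-, -, b3, -, b5⟩ := hTh ξ hξ p.1 (hneF _ a1)
        have hct : ContinuousAt (pull ξ) (push ξ p.1) := b5.continuousAt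
        have htd : Tendsto (pull ξ) (𝓝[push ξ '' F] (push ξ p.1)) (𝓝[F] p.1) := by
          refine tendsto_nhdsWithin_iff.mpr ⟨?_, ?_⟩
          · have h2 := hct.tendsto
            rw [b3] at h2
            exact h2.mono_left nhdsWithin_le_nhds
          · filter_upwards [self_mem_nhdsWithin] with x hx
            obtain ⟨y, hy, rfl⟩ := hx
            rw [(hTh ξ hξ y (hneF _ hy)).2.2.1]
            exact hy
        have h2 := htd.eventually a3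
        show ∀ᶠ x in 𝓝[push ξ '' F] (push ξ p.1), ‖x‖ ≤ ‖push ξ p.1‖
        filter_upwards [h2, self_mem_nhdsWithin] with x hx hxF
        obtain ⟨y, hy, rfl⟩ := hxF
        rw [(hTh ξ hξ y (hneF _ hy)).2.2.1] at hx
        exact hx
    rw [h1]
    refine InjOn.encard_image ?_
    rintro ⟨p, n⟩ hp ⟨p', n'⟩ hp' he
    obtain ⟨a1, a2, -⟩ := smax_of_inn hξ hp
    obtain ⟨b1, b2, -⟩ := smax_of_inn hξ hp'
    have h2 : p = p' := by
      have h3 := (hTh ξ hξ p (hneF _ a1)).2.2.1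
      have h4 := (hTh ξ hξ p' (hneF _ b1)).2.2.1
      rw [← h3, ← h4]
      exact congrArg (pull ξ) he
    subst h2
    have h3 : n = n' := foot_inj a2 hp.1.2.1 hp'.1.2.1 (by
      have h4 : foot p n = ξ := hp.2
      have h5 : foot p n' = ξ := hp'.2
      rw [h4, h5])
    rw [h3]

/-- the cone measure argument for surfaces -/
theorem miss_ae {F : Set E4} (h : PSurf F) :
    ∀ᵐ ξ : sphere (0 : E4) 1 ∂(volume : Measure E4).toSphere, (ξ : E4) ∉ F := by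
  have hnull : (volume : Measure E4).toSphere {ξ : sphere (0 : E4) 1 | ¬ ((ξ : E4) ∉ F)} = 0 := by
    refine null_of_cone _ ?_
    refine measure_mono_null ?_ (Pool.Agent.Y614.RB.cone F h)
    rintro _ ⟨r, hr, ξ, hξ, rfl⟩
    have h2 : ¬ ((ξ : E4) ∉ F) := hξ
    exact ⟨r, ξ, not_not.1 h2, rfl⟩
  exact hnull

theorem sgeneric_ae {F : Set E4} (h : PSurf F) :
    ∀ᵐ ξ : sphere (0 : E4) 1 ∂(volume : Measure E4).toSphere, SGeneric F (ξ : E4) := by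
  obtain ⟨ψ, U, V, hall, hcov⟩ := Pool.Agent.Y487.RB.lp F h
  have h1 : ∀ᵐ ξ : sphere (0 : E4) 1 ∂(volume : Measure E4).toSphere,
      ∀ i, GP (ψ i) (U i) (ξ : E4) := ae_all_iff.2 fun i => gp_ae (hall i).2.1
  filter_upwards [h1, miss_ae h] with ξ hξ hne
  exact sgeneric_of h (by simp) hne hall hcov hξ

end Pool.Agent.H55HC
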