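import Pool.Agent.H55HC.SGen
import Pool.Agent.H55HC.Fin

/-!
The integral formula for surfaces.
-/

set_option autoImplicit false

namespace Pool.Agent.H55HC

open Pool.Agent.Y503.RB
open scoped ContDiff RealInnerProductSpace ENNReal Topology
open MeasureTheory Set Metric Filter

/-- The horospherical curvature of the surface `F` towards `E`: infimum over all countable families
of parametrised pieces of `F` which cover the part of `F` in the open ball. -/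
noncomputable def scurvTo (F : Set E4) (E : Set E4) : ℝ≥0∞ :=
  ⨅ (φ : ℕ → ℂ → E4) (U : ℕ → Set ℂ) (A : ℕ → Set ℂ)
    (_ : (∀ i, Patch (φ i) (U i) ∧ φ i '' U i ⊆ F ∧ MeasurableSet (A i) ∧ A i ⊆ U i) ∧
      F ∩ ball 0 1 ⊆ ⋃ i, φ i '' A i),
    ∑' i, ∫⁻ z in A i, curvTo (φ i) E z

lemma scurvTo_univ (F : Set E4) : scurvTo F univ = totalCurv F := by
  unfold scurvTo totalCurv
  simp only [curvTo_univ]

lemma crd_iUnion_le {α : Type*} (S : ℕ → Set α) : crd (⋃ i, S i) ≤ ∑' i, crd (S i) := by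
  unfold crd
  rw [← ENNReal.tsum_set_one]
  refine (ENNReal.tsum_iUnion_le_tsum (fun _ => (1 : ℝ≥0∞)) S).trans ?_
  refine le_of_eq (tsum_congr fun i => ?_)
  rw [ENNReal.tsum_set_one]

lemma crd_mono {α : Type*} {s t : Set α} (h : s ⊆ t) : crd s ≤ crd t :=
  ENat.toENNReal_le.2 (encard_le_encard h)

lemma crd_image_le {α β : Type*} (f : α → β) (s : Set α) : crd (f '' s) ≤ crd s :=
  ENat.toENNReal_le.2 (encard_image_le f s)

/-- upper bound by covers -/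
lemma sinn_subset {F : Set E4} {ξ : E4} (hξ : ‖ξ‖ = 1) {φ : ℕ → ℂ → E4} {U A : ℕ → Set ℂ}
    (hall : ∀ i, Patch (φ i) (U i) ∧ φ i '' U i ⊆ F ∧ MeasurableSet (A i) ∧ A i ⊆ U i)
    (hcov : F ∩ ball 0 1 ⊆ ⋃ i, φ i '' A i) (hG : ∀ i, GP (φ i) (U i) ξ) :
    sinn F ξ ⊆ ⋃ i, (fun q : ℂ × E4 => (φ i q.1, q.2)) '' inn (φ i) (A i) ξ := by
  rintro ⟨p, n⟩ hp
  obtain ⟨a1, a2, a3⟩ := smax_of_inn hξ hp
  obtain ⟨i, hi⟩ := mem_iUnion.mp (hcov ⟨a1, by simpa using a2⟩)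
  obtain ⟨z, hz, hzp⟩ := hi
  simp only at a1 a2 a3 hzp
  subst hzp
  obtain ⟨n', b0, b1, b2, b3, b4⟩ := inn_of_smax (hall i).1 (hall i).2.1 (hG i)
    ((hall i).2.2.2 hz) a3
  have h3 : n' = n := foot_inj a2 b1 hp.1.2.1 (by
    have h4 : foot (φ i z) n = ξ := hp.2
    have h5 : foot (φ i z) n' = ξ := b4
    rw [h4, h5])
  subst h3
  exact mem_iUnion.2 ⟨i, (z, n'), ⟨hz, b1, b2, b3, b4⟩, rfl⟩

/-- a chart gives inner normals of the surface -/
lemma sinn_of_inn {F : Set E4} {φ : ℂ → E4} {U : Set ℂ} {V : Set E4} (hB : BPatch φ U)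
    (hV : IsOpen V) (hFV : F ∩ V = φ '' U) {U₀ : Set ℂ} (hU : U₀ ⊆ U)
    (hin : ∀ z ∈ U₀, ‖φ z‖ < 1) (ξ : E4) :
    (fun q : ℂ × E4 => (φ q.1, q.2)) '' inn φ U₀ ξ ⊆ sinn F ξ := by
  rintro _ ⟨⟨z, n⟩, ⟨h1, h2, h3, h4, h5⟩, rfl⟩
  refine ⟨⟨hin z h1, h2, φ, U, V, z, hB, hV, ?_, hFV, hU h1, rfl, h3, h4⟩, h5⟩
  have : φ z ∈ F ∩ V := by
    rw [hFV]
    exact ⟨z, hU h1, rfl⟩
  exact this.2

lemma bpatch_inj {φ : ℂ → E4} {U : Set ℂ} (hB : BPatch φ U) : InjOn φ U := by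
  intro a ha b hb hab
  have := hB.emb.injective (a₁ := ⟨a, ha⟩) (a₂ := ⟨b, hb⟩) hab
  exact congrArg Subtype.val this

lemma crd_inn_image {φ : ℂ → E4} {U A : Set ℂ} (hi : InjOn φ U) (hAU : A ⊆ U) (ξ : E4) :
    crd ((fun q : ℂ × E4 => (φ q.1, q.2)) '' inn φ A ξ) = crd (inn φ A ξ) := by
  refine crd_image ?_
  rintro ⟨a, n⟩ ha ⟨b, n'⟩ hb hab
  simp only [Prod.mk.injEq] at hab
  have h1 := hi (hAU ha.1) (hAU hb.1) hab.1
  simp only at h1
  rw [h1, hab.2]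

/-- a decomposition into disjoint pieces -/
theorem decomposition {F : Set E4} (h : PSurf F) :
    ∃ (φ : ℕ → ℂ → E4) (U A : ℕ → Set ℂ) (V : ℕ → Set E4),
      (∀ i, BPatch (φ i) (U i) ∧ IsOpen (V i) ∧ F ∩ V i = φ i '' U i) ∧
      (∀ i, Patch (φ i) (U i) ∧ φ i '' U i ⊆ F ∧ MeasurableSet (A i) ∧ A i ⊆ U i) ∧
      F ∩ ball 0 1 ⊆ (⋃ i, φ i '' A i) ∧
      Pairwise (Function.onFun Disjoint fun i => φ i '' A i) := by
  classical
  obtain ⟨ψ, U, V, hall, hcov⟩ := Pool.Agent.Y487.RB.lp F h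
  have hUV : ∀ k, ∀ z ∈ U k, ψ k z ∈ F ∧ ψ k z ∈ V k := by
    intro k z hz
    have : ψ k z ∈ F ∩ V k := by
      rw [(hall k).2.2.2]
      exact ⟨z, hz, rfl⟩
    exact this
  refine ⟨ψ, U, fun k => U k \ (U k ∩ ψ k ⁻¹' ⋃ j, ⋃ (_ : j < k), V j), V,
    fun i => ⟨(hall i).1, (hall i).2.2.1, (hall i).2.2.2⟩, fun i => ⟨(hall i).2.1, ?_, ?_,
      diff_subset⟩, ?_, ?_⟩
  · rw [← (hall i).2.2.2]
    exact inter_subset_left
  · have h1 : IsOpen (⋃ j, ⋃ (_ : j < i), V j) :=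
      isOpen_iUnion fun j => isOpen_iUnion fun _ => (hall j).2.2.1
    exact (hall i).2.1.isOpen.measurableSet.diff
      ((hall i).2.1.smooth.continuousOn.isOpen_inter_preimage (hall i).2.1.isOpen h1).measurableSet
  · rintro p hp
    have hex : ∃ k, p ∈ V k := by
      obtain ⟨k, z, hz, rfl⟩ := mem_iUnion.mp (hcov hp)
      exact ⟨k, (hUV k z hz).2⟩
    have h1 := Nat.find_spec hex
    have h2 : p ∈ F ∩ V (Nat.find hex) := ⟨hp.1, h1⟩
    rw [(hall _).2.2.2] at h2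
    obtain ⟨z, hz, hzp⟩ := h2
    refine mem_iUnion.2 ⟨Nat.find hex, z, ⟨hz, ?_⟩, hzp⟩
    rintro ⟨-, h3⟩
    obtain ⟨j, hj⟩ := mem_iUnion.1 h3
    obtain ⟨hjk, hjV⟩ := mem_iUnion.1 hj
    rw [hzp] at hjV
    exact Nat.find_min hex hjk hjV
  · have key : ∀ i j, i < j → Disjoint (ψ i '' (U i \ (U i ∩ ψ i ⁻¹' ⋃ l, ⋃ (_ : l < i), V l)))
        (ψ j '' (U j \ (U j ∩ ψ j ⁻¹' ⋃ l, ⋃ (_ : l < j), V l))) := by
      intro i j hij
      refine Set.disjoint_left.2 ?_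
      rintro p ⟨z, hz, rfl⟩ ⟨w, hw, hwz⟩
      refine hw.2 ⟨hw.1, ?_⟩
      show ψ j w ∈ ⋃ l, ⋃ (_ : l < j), V l
      rw [hwz]
      exact mem_iUnion.2 ⟨i, mem_iUnion.2 ⟨hij, (hUV i z hz.1).2⟩⟩
    intro i j hij
    rcases lt_or_gt_of_ne hij with h1 | h1
    · exact key i j h1
    · exact (key j i h1).symm

/-- The integral formula for surfaces. -/
theorem sformula {F : Set E4} (h : PSurf F) {E : Set E4} (hE : MeasurableSet E) :
    ∫⁻ ξ in {ξ : sphere (0 : E4) 1 | (ξ : E4) ∈ E}, crd (sinn F (ξ : E4))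
      ∂(volume : Measure E4).toSphere = scurvTo F E := by
  have hS : MeasurableSet {ξ : sphere (0 : E4) 1 | (ξ : E4) ∈ E} := measurable_subtype_coe hE
  have hsum : ∀ (φ : ℕ → ℂ → E4) (U A : ℕ → Set ℂ),
      (∀ i, Patch (φ i) (U i) ∧ φ i '' U i ⊆ F ∧ MeasurableSet (A i) ∧ A i ⊆ U i) →
      ∫⁻ ξ in {ξ : sphere (0 : E4) 1 | (ξ : E4) ∈ E}, ∑' i, crd (inn (φ i) (A i) (ξ : E4))
        ∂(volume : Measure E4).toSphere = ∑' i, ∫⁻ z in A i, curvTo (φ i) E z := by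
    intro φ U A hall
    rw [lintegral_tsum fun i => ((total (hall i).1 (hall i).2.2.1 (hall i).2.2.2).1).aemeasurable]
    exact tsum_congr fun i => formula (hall i).1 (hall i).2.2.1 (hall i).2.2.2 hE
  apply le_antisymm
  · unfold scurvTo
    refine le_iInf fun φ => le_iInf fun U => le_iInf fun A => le_iInf fun hcv => ?_
    obtain ⟨hall, hcov⟩ := hcv
    rw [← hsum φ U A hall]
    refine setLIntegral_mono_ae' hS ?_
    have h1 : ∀ᵐ ξ : sphere (0 : E4) 1 ∂(volume : Measure E4).toSphere,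
        ∀ i, GP (φ i) (U i) (ξ : E4) := ae_all_iff.2 fun i => gp_ae (hall i).1
    filter_upwards [h1] with ξ hξ _
    refine (crd_mono (sinn_subset (by simp) hall hcov hξ)).trans ?_
    refine (crd_iUnion_le _).trans ?_
    exact ENNReal.tsum_le_tsum fun i => crd_image_le _ _
  · obtain ⟨φ, U, A, V, hc, hall, hcov, hdis⟩ := decomposition h
    have h1 : scurvTo F E ≤ ∑' i, ∫⁻ z in A i, curvTo (φ i) E z := by
      unfold scurvTo
      exact iInf_le_of_le φ (iInf_le_of_le U (iInf_le_of_le A (iInf_le_of_le ⟨hall, hcov⟩ le_rfl)))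
    refine h1.trans ?_
    rw [← hsum φ U A hall]
    refine setLIntegral_mono' hS fun ξ _ => ?_
    have h2 : ∑' i, crd (inn (φ i) (A i) (ξ : E4)) =
        crd (⋃ i, (fun q : ℂ × E4 => (φ i q.1, q.2)) '' inn (φ i) (A i) (ξ : E4)) := by
      rw [crd_iUnion]
      · exact tsum_congr fun i => (crd_inn_image (bpatch_inj (hc i).1) (hall i).2.2.2 _).symm
      · intro i j hij
        refine Set.disjoint_left.2 ?_
        rintro _ ⟨⟨z, n⟩, hz, rfl⟩ ⟨⟨w, n'⟩, hw, hwz⟩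
        simp only [Prod.mk.injEq] at hwz
        refine Set.disjoint_left.1 (hdis hij) ⟨z, hz.1, rfl⟩ ⟨w, hw.1, hwz.1⟩
    rw [h2]
    refine crd_mono (iUnion_subset fun i => ?_)
    exact sinn_of_inn (hc i).1 (hc i).2.1 (hc i).2.2 (hall i).2.2.2
      (fun z hz => (hall i).1.inside z ((hall i).2.2.2 hz)) _

/-- Exists a good point in `E`. -/
theorem slocal_criterion {F : Set E4} (h : PSurf F) {E : Set E4} (hE : MeasurableSet E) (m : ℕ)
    (hT : scurvTo F E <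
      (m + 1) * (volume : Measure E4).toSphere {ξ : sphere (0 : E4) 1 | (ξ : E4) ∈ E}) :
    ∃ ξ : sphere (0 : E4) 1, (ξ : E4) ∈ E ∧ SGeneric F ξ ∧ (sinn F (ξ : E4)).encard ≤ m := by
  by_contra hcon
  push Not at hcon
  have hS : MeasurableSet {ξ : sphere (0 : E4) 1 | (ξ : E4) ∈ E} := measurable_subtype_coe hE
  rw [← sformula h hE] at hT
  refine absurd hT (not_lt.2 ?_)
  rw [← setLIntegral_const]
  refine setLIntegral_mono_ae' hS ?_
  filter_upwards [sgeneric_ae h] with ξ hξ hξE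
  have h2 := hcon ξ hξE hξ
  have h3 : ((m : ℕ∞) + 1) ≤ (sinn F (ξ : E4)).encard := Order.add_one_le_of_lt h2
  unfold crd
  have h4 : (((m : ℕ∞) + 1 : ℕ∞) : ℝ≥0∞) ≤ ((sinn F (ξ : E4)).encard : ℝ≥0∞) :=
    ENat.toENNReal_le.2 h3
  simpa using h4

/-- no inner normals if the points at infinity form a null set -/
theorem sempty_of_ae {F : Set E4} (h0 : scurvTo F univ = 0) (h : PSurf F) (ξ : E4) :
    sinn F ξ = ∅ := by
  by_contra hne
  obtain ⟨⟨p, n⟩, hp⟩ := Set.nonempty_iff_ne_empty.2 hne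
  obtain ⟨⟨h1, h2, φ, U, V, z, hB, hV, hpV, hFV, hz, hzp, h3, h4⟩, h5⟩ := hp
  simp only at h1 h2 h3 h4 h5 hzp
  subst hzp
  have hUo : IsOpen (U ∩ φ ⁻¹' ball 0 1) :=
    hB.smooth.continuousOn.isOpen_inter_preimage hB.isOpen isOpen_ball
  have hP : Patch φ (U ∩ φ ⁻¹' ball 0 1) := by
    refine ⟨hUo, hB.smooth.mono inter_subset_left, fun w hw => hB.imm w hw.1, fun w hw => ?_⟩
    have := hw.2
    simpa using this
  have hint : ∫⁻ z in U ∩ φ ⁻¹' ball 0 1, curvTo φ univ z = 0 := by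
    rw [← formula hP hUo.measurableSet (subset_refl _) MeasurableSet.univ]
    have h6 := sformula h MeasurableSet.univ
    rw [h0] at h6
    refine le_antisymm (le_trans (lintegral_mono fun ζ => ?_) h6.le) (zero_le)
    rw [← crd_inn_image (bpatch_inj hB) inter_subset_left]
    exact crd_mono (sinn_of_inn hB hV hFV inter_subset_left (fun w hw => hP.inside w hw) _)
  have h7 := empty_of_ae hP hint ξ
  have h8 : (z, n) ∈ inn φ (U ∩ φ ⁻¹' ball 0 1) ξ :=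
    ⟨⟨hz, by simpa using h1⟩, h2, h3, h4, h5⟩
  rw [h7] at h8
  exact h8

end Pool.Agent.H55HC
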