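import Pool.Agent.H55HC.SStab

/-!
The characterisation for surfaces and all numbers of maxima.
-/

set_option autoImplicit false

namespace Pool.Agent.H55HC

open Pool.Agent.Y503.RB
open scoped ContDiff RealInnerProductSpace ENNReal Topology
open MeasureTheory Set Metric Filter

/-- `pull ξ` as a diffeomorphism -/
theorem pull_diffeo {ξ : E4} (hξ : ‖ξ‖ = 1) :
    RelDiffeo (pull ξ) (push ξ) (pdom ξ) {x : E4 | x ≠ ξ} := by
  obtain ⟨d1, d2, d3, d4⟩ := Pool.Agent.Y275.RB.diffeo ξ hξ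
  have hTh := Pool.Agent.Y614.RB.theta
  have hone : ∀ w ∈ pdom ξ, ‖pull ξ w‖ = 1 ↔ ‖w‖ = 1 := by
    intro w hw
    obtain ⟨h1, h2, -⟩ := d3 w hw
    have := (d4 (pull ξ w) h1).2.2
    rw [h2] at this
    exact this.symm
  have hfix : ∀ w ∈ pdom ξ, ‖w‖ = 1 → pull ξ w = w := by
    intro w hw hw1
    obtain ⟨h1, h2, -⟩ := d3 w hw
    have h3 := (hTh ξ hξ (pull ξ w) h1).2.1 ((hone w hw).2 hw1)
    rw [h2] at h3
    exact h3.symm
  refine ⟨d1, isOpen_ne, fun w hw => ?_, fun x hx => ?_, fun w hw => ?_, hone, hfix, ?_⟩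
  · exact d3 w hw
  · obtain ⟨-, -, h3, h4, -⟩ := hTh ξ hξ x hx
    exact ⟨d2 x hx, h3, h4⟩
  · obtain ⟨h1, h2, -⟩ := d3 w hw
    have := (d4 (pull ξ w) h1).2.1
    rw [h2] at this
    exact this.symm
  · intro φ z hz hz1 hsm
    obtain ⟨h1, h2, h3⟩ := d3 (φ z) hz
    refine ⟨‖pull ξ (φ z) - ξ‖ ^ 2 / 2, ?_, ?_⟩
    · have : 0 < ‖pull ξ (φ z) - ξ‖ := norm_pos_iff.2 (sub_ne_zero.2 h1)
      positivity
    have hev : ∀ᶠ w in 𝓝 z, φ w ∈ pdom ξ := hsm.continuousAt.eventually (d1.mem_nhds hz)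
    have hcd : ContDiffAt ℝ ∞ (fun w => pull ξ (φ w)) z :=
      ContDiffAt.comp (g := pull ξ) (f := φ) z h3 hsm
    have hevn : (fun w => ‖pull ξ (φ w)‖ ^ 2) =ᶠ[𝓝 z]
        fun w => 1 + ‖pull ξ (φ w) - ξ‖ ^ 2 * (Real.log (‖φ w‖ ^ 2) / 2) := by
      filter_upwards [hev] with w hw
      obtain ⟨a1, a2, -⟩ := d3 (φ w) hw
      have a3 := (hTh ξ hξ (pull ξ (φ w)) a1).1
      rw [a2] at a3
      have a4 : 0 < ‖pull ξ (φ w) - ξ‖ := norm_pos_iff.2 (sub_ne_zero.2 a1)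
      rw [a3, Real.log_pow, Real.log_exp]
      push_cast
      have a5 : ‖pull ξ (φ w) - ξ‖ ^ 2 * ht ξ (pull ξ (φ w)) = 1 - ‖pull ξ (φ w)‖ ^ 2 := by
        unfold ht
        field_simp
      linear_combination a5
    have cA : ContDiffAt ℝ ∞ (fun w => ‖pull ξ (φ w) - ξ‖ ^ 2) z :=
      (hcd.sub contDiffAt_const).norm_sq ℝ
    have cN : ContDiffAt ℝ ∞ (fun w => ‖φ w‖ ^ 2) z := hsm.norm_sq ℝ
    have dA : DifferentiableAt ℝ (fun w => ‖pull ξ (φ w) - ξ‖ ^ 2) z :=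
      cA.differentiableAt (by simp)
    have dN : DifferentiableAt ℝ (fun w => ‖φ w‖ ^ 2) z := cN.differentiableAt (by simp)
    have hN1 : ‖φ z‖ ^ 2 = 1 := by rw [hz1, one_pow]
    have hL : HasFDerivAt (fun w => Real.log (‖φ w‖ ^ 2) / 2)
        ((2 : ℝ)⁻¹ • fderiv ℝ (fun w => ‖φ w‖ ^ 2) z) z := by
      have h5 := (dN.hasFDerivAt.log (by rw [hN1]; norm_num)).const_mul ((2 : ℝ)⁻¹)
      rw [hN1, inv_one, one_smul] at h5
      have e : (fun w => (2 : ℝ)⁻¹ * Real.log (‖φ w‖ ^ 2)) =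
          fun w => Real.log (‖φ w‖ ^ 2) / 2 := by
        funext w
        ring
      rw [e] at h5
      exact h5
    have hfe := ((dA.hasFDerivAt.mul hL).const_add (1 : ℝ)).fderiv
    rw [hevn.fderiv_eq (𝕜 := ℝ)]
    have e4 : (fun w => 1 + ‖pull ξ (φ w) - ξ‖ ^ 2 * (Real.log (‖φ w‖ ^ 2) / 2)) =
      fun w => 1 + ((fun w => ‖pull ξ (φ w) - ξ‖ ^ 2) * fun w => Real.log (‖φ w‖ ^ 2) / 2) w := rfl
    rw [e4, hfe]
    ext v
    simp only [hN1, Real.log_one, zero_div, zero_smul, add_zero, smul_smul]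
    congr 2

/-- a good direction for surfaces -/
theorem sexists_dir {F : Set E4} (h : PSurf F) (h0 : (0 : E4) ∉ F) :
    ∃ ξ : E4, ‖ξ‖ = 1 ∧ F ⊆ pdom ξ := by
  have hZ := Pool.Agent.Y614.RB.cone F h
  obtain ⟨y, hy, hyZ⟩ : ∃ y : E4, y ∈ ({0}ᶜ : Set E4) ∧
      y ∉ {y : E4 | ∃ r : ℝ, ∃ p ∈ F, y = r • p} := by
    by_contra hcon
    push Not at hcon
    have h1 : (volume : Measure E4) ({0}ᶜ : Set E4) = 0 := measure_mono_null hcon hZ
    have h2 : (volume : Measure E4) (({0}ᶜ : Set E4)) ≠ 0 := by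
      refine (IsOpen.measure_pos volume isOpen_compl_singleton ?_).ne'
      exact ⟨EuclideanSpace.single 0 1, by simp⟩
    exact h2 h1
  have hy0 : y ≠ 0 := hy
  have hn : 0 < ‖y‖ := norm_pos_iff.2 hy0
  have hξ : ‖‖y‖⁻¹ • y‖ = 1 := by rw [norm_smul, norm_inv, norm_norm, inv_mul_cancel₀ hn.ne']
  refine ⟨‖y‖⁻¹ • y, hξ, fun w hw => ?_⟩
  have hw0 : w ≠ 0 := fun hh => h0 (hh ▸ hw)
  have hp : 0 < ‖w‖ := norm_pos_iff.2 hw0
  have hw1 : ‖w‖ ≤ 1 := by simpa using h.sub hw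
  have hu : ‖w‖⁻¹ • w ≠ ‖y‖⁻¹ • y := by
    intro hcon
    refine hyZ ⟨‖y‖ * ‖w‖⁻¹, w, hw, ?_⟩
    rw [mul_smul, hcon, smul_smul, mul_inv_cancel₀ hn.ne', one_smul]
  refine ⟨hw0, hu, fun hcon => ?_⟩
  have hu1 : ‖‖w‖⁻¹ • w‖ = 1 := by rw [norm_smul, norm_inv, norm_norm, inv_mul_cancel₀ hp.ne']
  have h2 : (⟪inv (‖y‖⁻¹ • y) (‖w‖⁻¹ • w), ‖y‖⁻¹ • y⟫ : ℝ) = 0 := by
    rw [Pool.Agent.Y614.RB.inner_inv hξ hu]
    unfold ht
    rw [hu1]
    simp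
  have hξξ : (⟪‖y‖⁻¹ • y, ‖y‖⁻¹ • y⟫ : ℝ) = 1 := by
    rw [real_inner_self_eq_norm_sq, hξ, one_pow]
  have h3 : (⟪inv (‖y‖⁻¹ • y) (‖w‖⁻¹ • w) + Real.log ‖w‖ • (‖y‖⁻¹ • y), ‖y‖⁻¹ • y⟫ : ℝ) =
      ⟪‖y‖⁻¹ • y, ‖y‖⁻¹ • y⟫ := congrArg (fun x : E4 => (⟪x, ‖y‖⁻¹ • y⟫ : ℝ)) hcon
  rw [inner_add_left, h2, real_inner_smul_left _ _ (Real.log ‖w‖), hξξ] at h3
  have h4 := Real.log_nonpos hp.le hw1
  linarith

/-- a surface with at most `m` maxima gives one with at most `m` inner normals for an open set of points at infinity -/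
theorem sopen_of_morse {F : Set E4} (h : PSurf F) (h0 : (0 : E4) ∉ F) {m : ℕ}
    (hM : MorseSurf F m) : ∃ F' : Set E4, PSurf F' ∧ SameType F F' ∧ ∃ (ξ : E4) (ε : ℝ),
      ‖ξ‖ = 1 ∧ 0 < ε ∧ ∀ η : E4, ‖η‖ = 1 → ‖η - ξ‖ < ε → (sinn F' η).encard ≤ m := by
  obtain ⟨ξ, hξ, hd⟩ := sexists_dir h h0
  have hR := pull_diffeo hξ
  have hTh := Pool.Agent.Y614.RB.theta
  obtain ⟨s1, s2⟩ := Pool.Agent.Y794.RB.gsurf (pull ξ) (push ξ) (pdom ξ) {x : E4 | x ≠ ξ} F hR h hd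
  have miss : ξ ∉ pull ξ '' F := by
    rintro ⟨w, hw, hwe⟩
    exact (hR.map w (hd hw)).1 hwe
  have hmor : ∀ p ∈ pull ξ '' F, ‖p‖ < 1 → ∃ (φ : ℂ → E4) (U : Set ℂ) (V : Set E4) (z : ℂ),
      BPatch φ U ∧ IsOpen V ∧ p ∈ V ∧ pull ξ '' F ∩ V = φ '' U ∧ z ∈ U ∧ φ z = p ∧
      (fderiv ℝ (fun w => ht ξ (φ w)) z = 0 → ∀ u : ℂ,
        (∀ v : ℂ, fderiv ℝ (fderiv ℝ (fun w => ht ξ (φ w))) z u v = 0) → u = 0) := by
    rintro p ⟨q, hq, rfl⟩ hp1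
    have hq1 : ‖q‖ < 1 := (hR.lt_one q (hd hq)).1 hp1
    obtain ⟨φ, U, V, z, hB, hV, hqV, hFV, hz, hzq, hnd⟩ := hM.morse q hq hq1
    have hUF : ∀ w ∈ U, φ w ∈ F := by
      intro w hw
      have : φ w ∈ F ∩ V := by
        rw [hFV]
        exact ⟨w, hw, rfl⟩
      exact this.1
    have hpc : ContinuousOn (push ξ) {x : E4 | x ≠ ξ} := fun w hw =>
      ((hR.map' w hw).2.2.continuousAt).continuousWithinAt
    have hB' := Pool.Agent.Y794.RB.bpatch_comp hR hB (fun w hw => hd (hUF w hw))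
    refine ⟨fun w => pull ξ (φ w), U, {x : E4 | x ≠ ξ} ∩ push ξ ⁻¹' V, z, hB',
      hpc.isOpen_inter_preimage isOpen_ne hV, ⟨(hR.map q (hd hq)).1, ?_⟩, ?_, hz, ?_, ?_⟩
    · show push ξ (pull ξ q) ∈ V
      rw [(hR.map q (hd hq)).2.1]
      exact hqV
    · ext x
      constructor
      · rintro ⟨⟨w, hw, rfl⟩, -, h2⟩
        have h3 : push ξ (pull ξ w) ∈ V := h2
        rw [(hR.map w (hd hw)).2.1] at h3
        have h4 : w ∈ F ∩ V := ⟨hw, h3⟩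
        rw [hFV] at h4
        obtain ⟨y, hy, rfl⟩ := h4
        exact ⟨y, hy, rfl⟩
      · rintro ⟨y, hy, rfl⟩
        have h4 : φ y ∈ F ∩ V := by
          rw [hFV]
          exact ⟨y, hy, rfl⟩
        refine ⟨⟨φ y, h4.1, rfl⟩, (hR.map _ (hd h4.1)).1, ?_⟩
        show push ξ (pull ξ (φ y)) ∈ V
        rw [(hR.map _ (hd h4.1)).2.1]
        exact h4.2
    · rw [← hzq]
    · intro hc u hu
      have hne : pull ξ (φ z) ≠ ξ := (hR.map _ (hd (hUF z hz))).1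
      have hsm : ContDiffAt ℝ ∞ (fun w => pull ξ (φ w)) z :=
        hB'.smooth.contDiffAt (hB'.isOpen.mem_nhds hz)
      have hts : ContDiffAt ℝ ∞ (fun w => ht ξ (pull ξ (φ w))) z :=
        ContDiffAt.comp (g := ht ξ) (f := fun w => pull ξ (φ w)) z (ht_smooth hne) hsm
      have hev : (fun w => ‖φ w‖ ^ 2) =ᶠ[𝓝 z]
          fun w => Real.exp (-ht ξ (pull ξ (φ w))) ^ 2 := by
        have h1 := normsq_eventually hTh hξ hsm.continuousAt hne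
        filter_upwards [h1, hB.isOpen.mem_nhds hz] with w hw hwU
        rw [(hR.map _ (hd (hUF w hwU))).2.1] at hw
        exact hw
      obtain ⟨e1, e2, -⟩ := Pool.Agent.Y640.RB.expf _ z hts
      refine hnd ?_ u fun v => ?_
      · rw [hev.fderiv_eq]
        exact e1.2 hc
      · rw [(hev.fderiv (𝕜 := ℝ)).fderiv_eq, e2 hc, hu v, mul_zero]
  have hcnt : {p : E4 | p ∈ pull ξ '' F ∧ ‖p‖ < 1 ∧
      IsLocalMaxOn (fun x => ‖push ξ x‖) (pull ξ '' F) p}.encard ≤ m := by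
    refine le_trans (encard_le_encard (t := pull ξ '' {p : E4 | p ∈ F ∧ ‖p‖ < 1 ∧
      IsLocalMaxOn (fun x => ‖x‖) F p}) ?_) ((encard_image_le _ _).trans hM.maxima)
    rintro p ⟨⟨q, hq, rfl⟩, hp1, hmax⟩
    refine ⟨q, ⟨hq, (hR.lt_one q (hd hq)).1 hp1, ?_⟩, rfl⟩
    have htd : Tendsto (pull ξ) (𝓝[F] q) (𝓝[pull ξ '' F] (pull ξ q)) :=
      tendsto_nhdsWithin_iff.mpr
        ⟨((hR.map q (hd hq)).2.2.continuousAt).tendsto.mono_left nhdsWithin_le_nhds, by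
          filter_upwards [self_mem_nhdsWithin] with x hx
          exact ⟨x, hx, rfl⟩⟩
    have h2 := htd.eventually hmax
    show ∀ᶠ x in 𝓝[F] q, ‖x‖ ≤ ‖q‖
    filter_upwards [h2, self_mem_nhdsWithin] with x hx hxF
    rw [(hR.map x (hd hxF)).2.1, (hR.map q (hd hq)).2.1] at hx
    exact hx
  obtain ⟨ε, hε, hε2⟩ := sstab s1 hξ miss m hmor hcnt
  refine ⟨pull ξ '' F, s1, ⟨s2, pull ξ, push ξ, rfl, fun x hx => ?_⟩, ξ, ε, hξ, hε, hε2⟩
  have hx' := hd hx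
  obtain ⟨a1, a2, a3⟩ := hR.map x hx'
  exact ⟨a3, (hR.map' _ a1).2.2, a2, hR.fix x hx'⟩

/-- the pushed surface for a generic point -/
lemma SGeneric.sameType {F : Set E4} {ξ : E4} (hξ : ‖ξ‖ = 1) (h : SGeneric F ξ) :
    SameType F (push ξ '' F) ∧ (0 : E4) ∉ push ξ '' F := by
  have hneF : ∀ x ∈ F, x ≠ ξ := fun x hx he => h.miss (he ▸ hx)
  refine ⟨⟨h.bdry, push ξ, pull ξ, rfl, fun x hx => ?_⟩, ?_⟩
  · obtain ⟨-, h2, h3, h4, h5⟩ := Pool.Agent.Y614.RB.theta ξ hξ x (hneF x hx)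
    exact ⟨h4, h5, h3, h2⟩
  · rintro ⟨x, hx, hx0⟩
    exact push_ne_zero hξ (hneF x hx) hx0

theorem smaxima_tfae (F : Set E4) (m : ℕ) :
    List.TFAE [
      ∃ F' : Set E4, PSurf F' ∧ SameType F F' ∧ (0 : E4) ∉ F' ∧ MorseSurf F' m,
      ∃ F' : Set E4, PSurf F' ∧ SameType F F' ∧ ∃ E : Set E4, MeasurableSet E ∧ scurvTo F' E <
          (m + 1) * (volume : Measure E4).toSphere {ξ : sphere (0 : E4) 1 | (ξ : E4) ∈ E},
      ∃ F' : Set E4, PSurf F' ∧ SameType F F' ∧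
        ¬ ∀ᵐ ξ : sphere (0 : E4) 1 ∂(volume : Measure E4).toSphere,
          (m : ℕ∞) + 1 ≤ (sinn F' (ξ : E4)).encard,
      ∃ F' : Set E4, PSurf F' ∧ SameType F F' ∧ ∃ (ξ : E4) (ε : ℝ), ‖ξ‖ = 1 ∧ 0 < ε ∧
          ∀ η : E4, ‖η‖ = 1 → ‖η - ξ‖ < ε → (sinn F' η).encard ≤ m] := by
  tfae_have 1 → 4 := by
    rintro ⟨F', h1, h2, h3, h4⟩
    obtain ⟨F'', s1, s2, s3⟩ := sopen_of_morse h1 h3 h4
    exact ⟨F'', s1, h2.trans s2, s3⟩
  tfae_have 4 → 2 := by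
    rintro ⟨F', h1, h2, ξ, ε, hξ, hε, h3⟩
    have hEm : MeasurableSet {η : E4 | ‖η - ξ‖ < ε} :=
      (isOpen_lt (continuous_id.sub continuous_const).norm continuous_const).measurableSet
    refine ⟨F', h1, h2, {η | ‖η - ξ‖ < ε}, hEm, ?_⟩
    rw [← sformula h1 hEm]
    obtain ⟨S, hS⟩ : ∃ S, S = {ζ : sphere (0 : E4) 1 | (ζ : E4) ∈ {η : E4 | ‖η - ξ‖ < ε}} :=
      ⟨_, rfl⟩
    rw [← hS]
    have hSo : IsOpen S := by
      rw [hS]
      exact (isOpen_lt (continuous_id.sub continuous_const).norm continuous_const).preimage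
        continuous_subtype_val
    have hSn : S.Nonempty := ⟨⟨ξ, by simpa using hξ⟩, by rw [hS]; simpa using hε⟩
    have hpos : 0 < (volume : Measure E4).toSphere S := hSo.measure_pos _ hSn
    have hfin : (volume : Measure E4).toSphere S < ⊤ := measure_lt_top _ _
    calc ∫⁻ ζ in S, crd (sinn F' (ζ : E4)) ∂(volume : Measure E4).toSphere
        ≤ ∫⁻ _ in S, (m : ℝ≥0∞) ∂(volume : Measure E4).toSphere := by
          refine setLIntegral_mono' hSo.measurableSet fun ζ hζ => ?_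
          rw [hS] at hζ
          have := h3 ζ (by simp) hζ
          unfold crd
          exact_mod_cast ENat.toENNReal_le.2 this
      _ = m * (volume : Measure E4).toSphere S := by rw [setLIntegral_const]
      _ < (m + 1) * (volume : Measure E4).toSphere S := by
          refine ENNReal.mul_lt_mul_left hpos.ne' hfin.ne ?_
          exact ENNReal.lt_add_right (ENNReal.natCast_ne_top m) one_ne_zero
  tfae_have 2 → 3 := by
    rintro ⟨F', h1, h2, E, hE, hT⟩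
    refine ⟨F', h1, h2, fun hae => ?_⟩
    rw [← sformula h1 hE] at hT
    refine absurd hT (not_lt.2 ?_)
    have hS : MeasurableSet {ξ : sphere (0 : E4) 1 | (ξ : E4) ∈ E} := measurable_subtype_coe hE
    rw [← setLIntegral_const]
    refine setLIntegral_mono_ae' hS ?_
    filter_upwards [hae] with ξ hξ _
    unfold crd
    have h4 : (((m : ℕ∞) + 1 : ℕ∞) : ℝ≥0∞) ≤ ((sinn F' (ξ : E4)).encard : ℝ≥0∞) :=
      ENat.toENNReal_le.2 hξ
    simpa using h4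
  tfae_have 3 → 1 := by
    rintro ⟨F', h1, h2, h3⟩
    have h4 : ∃ ξ : sphere (0 : E4) 1, SGeneric F' ξ ∧ (sinn F' (ξ : E4)).encard ≤ m := by
      by_contra hcon
      push Not at hcon
      apply h3
      filter_upwards [sgeneric_ae h1] with ξ hξ
      exact Order.add_one_le_of_lt (hcon ξ hξ)
    obtain ⟨ξ, hξ, hξ0⟩ := h4
    have hξ1 : ‖(ξ : E4)‖ = 1 := by simp
    obtain ⟨h5, h6⟩ := hξ.sameType hξ1
    exact ⟨_, hξ.surf, h2.trans h5, h6, (hξ.morseSurf m).2 hξ0⟩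
  tfae_finish

/-- ribbon surfaces -/
theorem sribbon_iff (F : Set E4) :
    (∃ F' : Set E4, PSurf F' ∧ SameType F F' ∧ (0 : E4) ∉ F' ∧ MorseSurf F' 0) ↔
      ∃ F' : Set E4, PSurf F' ∧ SameType F F' ∧ ∀ ξ : E4, sinn F' ξ = ∅ := by
  constructor
  · intro h
    obtain ⟨F', h1, h2, h3⟩ := ((gapSurf F).out 0 2).1 h
    rw [← scurvTo_univ] at h3
    exact ⟨F', h1, h2, fun ξ => sempty_of_ae h3 h1 ξ⟩
  · rintro ⟨F', h1, h2, h3⟩
    have hne0 : (volume : Measure E4).toSphere ≠ 0 := Measure.toSphere_ne_zero _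
    have key : ∃ F' : Set E4, PSurf F' ∧ SameType F F' ∧
        ¬ ∀ᵐ ξ : sphere (0 : E4) 1 ∂(volume : Measure E4).toSphere,
          ((0 : ℕ) : ℕ∞) + 1 ≤ (sinn F' (ξ : E4)).encard := by
      refine ⟨F', h1, h2, fun h4 => ?_⟩
      have h5 : ∀ᵐ ξ : sphere (0 : E4) 1 ∂(volume : Measure E4).toSphere, False := by
        filter_upwards [h4] with ξ hξ
        rw [h3] at hξ
        simp at hξ
      exact hne0 (ae_eq_bot.1 (Filter.eventually_false_iff_eq_bot.1 h5))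
    exact ((smaxima_tfae F 0).out 2 0).1 key

end Pool.Agent.H55HC
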