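import Pool.Agent.H55HC.One
import Pool.Agent.H55HC.STfae

/-!
Surfaces: stability of inner normals, one surface, quantisation.
-/

set_option autoImplicit false

namespace Pool.Agent.H55HC

open Pool.Agent.Y503.RB
open scoped ContDiff RealInnerProductSpace ENNReal Topology
open MeasureTheory Set Metric Filter

/-- The number of inner normals of a surface is lower semicontinuous. -/
theorem slsc {F : Set E4} {ξ : E4} (hξ : ‖ξ‖ = 1) {k : ℕ}
    (hk : (k : ℕ∞) ≤ (sinn F ξ).encard) :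
    ∀ᶠ η in 𝓝 ξ, ‖η‖ = 1 → (k : ℕ∞) ≤ (sinn F η).encard := by
  classical
  obtain ⟨t, hts, hcard⟩ := Set.exists_subset_encard_eq hk
  have hfin : t.Finite := Set.finite_of_encard_eq_coe hcard
  have hinj : InjOn Prod.fst t := by
    rintro ⟨z, n⟩ ha ⟨z', n'⟩ hb hab
    have a := hts ha
    have b := hts hb
    simp only at hab
    subst hab
    have h4 : foot z n = ξ := a.2
    have h5 : foot z n' = ξ := b.2
    have h6 : n = n' := foot_inj (p := z) a.1.1 a.1.2.1 b.1.2.1 (by rw [h4, h5])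
    rw [h6]
  obtain ⟨O, hO, hOd⟩ := (hfin.image Prod.fst).t2_separation
  have hall : ∀ᶠ η in 𝓝 ξ, ∀ p ∈ t, ‖η‖ = 1 → ∃ q : E4 × E4, q ∈ sinn F η ∧ q.1 ∈ O p.1 := by
    rw [hfin.eventually_all]
    intro p hp
    obtain ⟨⟨a1, a2, φ, U, V, z, hB, hV, hpV, hFV, hz, hzp, a3, a4⟩, a5⟩ := hts hp
    have hc : φ ⁻¹' O p.1 ∈ 𝓝 z := by
      have h1 : ContinuousAt φ z := (hB.smooth.contDiffAt (hB.isOpen.mem_nhds hz)).continuousAt
      refine h1.preimage_mem_nhds ?_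
      rw [hzp]
      exact (hO p.1).2.mem_nhds (hO p.1).1
    have h1 := lsc_at hB.isOpen hB.smooth hξ hz (by rw [hzp]; exact a1) a2 a3 a4
      (by rw [hzp]; exact a5) hc
    filter_upwards [h1] with η hη hη1
    obtain ⟨q, q1, q2, q3⟩ := hη hη1
    obtain ⟨b1, b2, b3, b4, b5⟩ := q1
    refine ⟨(φ q.1, q.2), ⟨⟨q3, b2, φ, U, V, q.1, hB, hV, ?_, hFV, b1, rfl, b3, b4⟩, b5⟩, q2⟩
    have : φ q.1 ∈ F ∩ V := by
      rw [hFV]
      exact ⟨q.1, b1, rfl⟩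
    exact this.2
  filter_upwards [hall] with η hη hη1
  have hex : ∀ p : E4 × E4, ∃ q : E4 × E4, p ∈ t → q ∈ sinn F η ∧ q.1 ∈ O p.1 := by
    intro p
    by_cases hp : p ∈ t
    · obtain ⟨q, q1⟩ := hη p hp hη1
      exact ⟨q, fun _ => q1⟩
    · exact ⟨p, fun h' => absurd h' hp⟩
  choose f hf using hex
  have hfi : InjOn f t := by
    intro p hp p' hp' he
    by_contra hne
    have h1 : p.1 ≠ p'.1 := fun h2 => hne (hinj hp hp' h2)
    have h2 := hOd (mem_image_of_mem _ hp) (mem_image_of_mem _ hp') h1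
    have h3 := (hf p hp).2
    have h4 := (hf p' hp').2
    rw [he] at h3
    exact Set.disjoint_left.1 h2 h3 h4
  have h5 : f '' t ⊆ sinn F η := by
    rintro _ ⟨p, hp, rfl⟩
    exact (hf p hp).1
  calc (k : ℕ∞) = t.encard := hcard.symm
    _ = (f '' t).encard := (hfi.encard_image).symm
    _ ≤ _ := encard_le_encard h5

/-- charts of the pulled surface -/
theorem smorse_pull {F : Set E4} {ξ : E4} (hξ : ‖ξ‖ = 1) (hd : F ⊆ pdom ξ)
    (hM : ∀ p ∈ F, ‖p‖ < 1 → ∃ (φ : ℂ → E4) (U : Set ℂ) (V : Set E4) (z : ℂ), BPatch φ U ∧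
      IsOpen V ∧ p ∈ V ∧ F ∩ V = φ '' U ∧ z ∈ U ∧ φ z = p ∧
      (fderiv ℝ (fun w => ‖φ w‖ ^ 2) z = 0 → ∀ u : ℂ,
        (∀ v : ℂ, fderiv ℝ (fderiv ℝ (fun w => ‖φ w‖ ^ 2)) z u v = 0) → u = 0)) :
    ∀ p ∈ pull ξ '' F, ‖p‖ < 1 → ∃ (φ : ℂ → E4) (U : Set ℂ) (V : Set E4) (z : ℂ),
      BPatch φ U ∧ IsOpen V ∧ p ∈ V ∧ pull ξ '' F ∩ V = φ '' U ∧ z ∈ U ∧ φ z = p ∧
      (fderiv ℝ (fun w => ht ξ (φ w)) z = 0 → ∀ u : ℂ,
        (∀ v : ℂ, fderiv ℝ (fderiv ℝ (fun w => ht ξ (φ w))) z u v = 0) → u = 0) := by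
  have hR := pull_diffeo hξ
  have hTh := Pool.Agent.Y614.RB.theta
  rintro p ⟨q, hq, rfl⟩ hp1
  have hq1 : ‖q‖ < 1 := (hR.lt_one q (hd hq)).1 hp1
  obtain ⟨φ, U, V, z, hB, hV, hqV, hFV, hz, hzq, hnd⟩ := hM q hq hq1
  have hUF : ∀ w ∈ U, φ w ∈ F := by
    intro w hw
    have : φ w ∈ F ∩ V := by
      rw [hFV]
      exact ⟨w, hw, rfl⟩
    exact this.1
  have hpc : ContinuousOn (push ξ) {x : E4 | x ≠ ξ} := fun w hw =>
    ((hR.map' w hw).2.2.continuousAt).continuousWithinAt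
  have hB' := Pool.Agent.Y794.RB.bpatch_comp hR hB (fun w hw => hd (hUF w hw))
  refine ⟨fun w => pull ξ (φ w), U, {x : E4 | x ≠ ξ} ∩ push ξ ⁻¹' V, z, hB',
    hpc.isOpen_inter_preimage isOpen_ne hV, ⟨(hR.map q (hd hq)).1, ?_⟩, ?_, hz, ?_, ?_⟩
  · show push ξ (pull ξ q) ∈ V
    rw [(hR.map q (hd hq)).2.1]
    exact hqV
  · ext x
    constructor
    · rintro ⟨⟨w, hw, rfl⟩, -, h2⟩
      have h3 : push ξ (pull ξ w) ∈ V := h2
      rw [(hR.map w (hd hw)).2.1] at h3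
      have h4 : w ∈ F ∩ V := ⟨hw, h3⟩
      rw [hFV] at h4
      obtain ⟨y, hy, rfl⟩ := h4
      exact ⟨y, hy, rfl⟩
    · rintro ⟨y, hy, rfl⟩
      have h4 : φ y ∈ F ∩ V := by
        rw [hFV]
        exact ⟨y, hy, rfl⟩
      refine ⟨⟨φ y, h4.1, rfl⟩, (hR.map _ (hd h4.1)).1, ?_⟩
      show push ξ (pull ξ (φ y)) ∈ V
      rw [(hR.map _ (hd h4.1)).2.1]
      exact h4.2
  · rw [← hzq]
  · intro hc u hu
    have hne : pull ξ (φ z) ≠ ξ := (hR.map _ (hd (hUF z hz))).1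
    have hsm : ContDiffAt ℝ ∞ (fun w => pull ξ (φ w)) z :=
      hB'.smooth.contDiffAt (hB'.isOpen.mem_nhds hz)
    have hts : ContDiffAt ℝ ∞ (fun w => ht ξ (pull ξ (φ w))) z :=
      ContDiffAt.comp (g := ht ξ) (f := fun w => pull ξ (φ w)) z (ht_smooth hne) hsm
    have hev : (fun w => ‖φ w‖ ^ 2) =ᶠ[𝓝 z]
        fun w => Real.exp (-ht ξ (pull ξ (φ w))) ^ 2 := by
      have h1 := normsq_eventually hTh hξ hsm.continuousAt hne
      filter_upwards [h1, hB.isOpen.mem_nhds hz] with w hw hwU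
      rw [(hR.map _ (hd (hUF w hwU))).2.1] at hw
      exact hw
    obtain ⟨e1, e2, -⟩ := Pool.Agent.Y640.RB.expf _ z hts
    refine hnd ?_ u fun v => ?_
    · rw [hev.fderiv_eq]
      exact e1.2 hc
    · rw [(hev.fderiv (𝕜 := ℝ)).fderiv_eq, e2 hc, hu v, mul_zero]

lemma pull_push_image {F : Set E4} {ξ : E4} (hξ : ‖ξ‖ = 1) (hne : ξ ∉ F) :
    push ξ '' F ⊆ pdom ξ ∧ pull ξ '' (push ξ '' F) = F := by
  have hneF : ∀ x ∈ F, x ≠ ξ := fun x hx he => hne (he ▸ hx)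
  have hR := pull_diffeo hξ
  constructor
  · rintro _ ⟨x, hx, rfl⟩
    exact (hR.map' x (hneF x hx)).1
  · ext x
    constructor
    · rintro ⟨_, ⟨y, hy, rfl⟩, rfl⟩
      rw [(hR.map' y (hneF y hy)).2.1]
      exact hy
    · intro hx
      exact ⟨_, ⟨x, hx, rfl⟩, (hR.map' x (hneF x hx)).2.1⟩

/-- Morse charts in terms of the height. -/
theorem smorse_ht {F : Set E4} {ξ : E4} (hξ : ‖ξ‖ = 1) (hne : ξ ∉ F)
    (hM : ∀ p ∈ push ξ '' F, ‖p‖ < 1 → ∃ (φ : ℂ → E4) (U : Set ℂ) (V : Set E4) (z : ℂ),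
      BPatch φ U ∧ IsOpen V ∧ p ∈ V ∧ push ξ '' F ∩ V = φ '' U ∧ z ∈ U ∧ φ z = p ∧
      (fderiv ℝ (fun w => ‖φ w‖ ^ 2) z = 0 → ∀ u : ℂ,
        (∀ v : ℂ, fderiv ℝ (fderiv ℝ (fun w => ‖φ w‖ ^ 2)) z u v = 0) → u = 0)) :
    ∀ p ∈ F, ‖p‖ < 1 → ∃ (φ : ℂ → E4) (U : Set ℂ) (V : Set E4) (z : ℂ), BPatch φ U ∧
      IsOpen V ∧ p ∈ V ∧ F ∩ V = φ '' U ∧ z ∈ U ∧ φ z = p ∧
      (fderiv ℝ (fun w => ht ξ (φ w)) z = 0 → ∀ u : ℂ,
        (∀ v : ℂ, fderiv ℝ (fderiv ℝ (fun w => ht ξ (φ w))) z u v = 0) → u = 0) := by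
  obtain ⟨h1, h2⟩ := pull_push_image hξ hne
  have h3 := smorse_pull hξ h1 hM
  rw [h2] at h3
  exact h3

/-- Near `ξ` there are not more inner normals than maxima of the pushed surface. -/
theorem supper {F : Set E4} (h : PSurf F) {ξ : E4} (hξ : ‖ξ‖ = 1) (hne : ξ ∉ F) {m : ℕ}
    (hM : MorseSurf (push ξ '' F) m) :
    ∃ ε : ℝ, 0 < ε ∧ ∀ η : E4, ‖η‖ = 1 → ‖η - ξ‖ < ε → (sinn F η).encard ≤ m := by
  have hneF : ∀ x ∈ F, x ≠ ξ := fun x hx he => hne (he ▸ hx)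
  have hR := pull_diffeo hξ
  refine sstab h hξ hne m (smorse_ht hξ hne hM.morse) ?_
  have hinj : InjOn (push ξ) {p : E4 | p ∈ F ∧ ‖p‖ < 1 ∧
      IsLocalMaxOn (fun x => ‖push ξ x‖) F p} := by
    intro x hx y hy hxy
    rw [← (hR.map' x (hneF x hx.1)).2.1, ← (hR.map' y (hneF y hy.1)).2.1, hxy]
  rw [← hinj.encard_image]
  refine (encard_le_encard ?_).trans hM.maxima
  rintro _ ⟨p, ⟨hp, hp1, hmax⟩, rfl⟩
  have hx' := hR.map' p (hneF p hp)
  have hdp : push ξ p ∈ pdom ξ := hx'.1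
  refine ⟨⟨p, hp, rfl⟩, ?_, ?_⟩
  · refine (hR.lt_one _ hdp).1 ?_
    rw [hx'.2.1]
    exact hp1
  · have hct : ContinuousAt (pull ξ) (push ξ p) := (hR.map _ hdp).2.2.continuousAt
    have htd : Tendsto (pull ξ) (𝓝[push ξ '' F] (push ξ p)) (𝓝[F] p) := by
      refine tendsto_nhdsWithin_iff.mpr ⟨?_, ?_⟩
      · have h2 := hct.tendsto
        rw [hx'.2.1] at h2
        exact h2.mono_left nhdsWithin_le_nhds
      · filter_upwards [self_mem_nhdsWithin] with x hx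
        obtain ⟨y, hy, rfl⟩ := hx
        rw [(hR.map' y (hneF y hy)).2.1]
        exact hy
    have h2 := htd.eventually hmax
    show ∀ᶠ x in 𝓝[push ξ '' F] (push ξ p), ‖x‖ ≤ ‖push ξ p‖
    filter_upwards [h2, self_mem_nhdsWithin] with x hx hxF
    obtain ⟨y, hy, rfl⟩ := hxF
    rw [(hR.map' y (hneF y hy)).2.1] at hx
    exact hx

/-- limits of local maxima are inside -/
lemma lim_inside {F : Set E4} (h : PSurf F) {ξ : E4} (hξ : ‖ξ‖ = 1) (miss : ξ ∉ F)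
    {p : ℕ → E4} {a : E4} (haF : a ∈ F) (hp : Tendsto p atTop (𝓝 a))
    (hpm : ∀ k, p k ∈ F ∧ ‖p k‖ < 1 ∧ IsLocalMaxOn (fun x => ‖push ξ x‖) F (p k)) : ‖a‖ < 1 := by
  have hle : ‖a‖ ≤ 1 := by simpa using h.sub haF
  rcases hle.lt_or_eq with h4 | h4
  · exact h4
  · exfalso
    obtain ⟨φ, U, V, hB, hV, haV, hFV⟩ := h.loc a haF
    have h5 : a ∈ φ '' U ∩ closedBall 0 1 := by
      rw [← hFV]
      exact ⟨haF, haV⟩
    obtain ⟨⟨z, hz, hza⟩, -⟩ := h5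
    obtain ⟨w, hw, hw2⟩ := loc_seq hB hV hFV hz (by rw [hza]; exact haV)
      (η := fun _ => ξ) (p := p) (fun _ => hξ) (by rw [hza]; exact hp) hpm
    have hsm : ContDiffAt ℝ ∞ φ z := hB.smooth.contDiffAt (hB.isOpen.mem_nhds hz)
    have hne : φ z ≠ ξ := by
      rw [hza]
      intro hh
      exact miss (hh ▸ haF)
    have h6 : jg φ (ξ, z) = 0 := by
      have hc := (jg_smooth hsm hne).continuousAt.tendsto.comp
        ((tendsto_const_nhds (x := ξ)).prodMk_nhds hw)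
      refine tendsto_nhds_unique hc ?_
      refine tendsto_const_nhds.congr' ?_
      filter_upwards [hw2] with k hk
      exact hk.2.1.symm
    have hc : fderiv ℝ (fun w => ht ξ (φ w)) z = 0 := by rw [jg_eq hsm hne, h6]
    have htsm : ContDiffAt ℝ ∞ (fun w => ht ξ (φ w)) z := (ht_smooth hne).comp _ hsm
    have hev := normsq_eventually Pool.Agent.Y614.RB.theta hξ hsm.continuousAt hne
    obtain ⟨e1, -, -⟩ := Pool.Agent.Y640.RB.expf (fun w => ht ξ (φ w)) _ htsm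
    have hz0 : fderiv ℝ (fun w => ‖push ξ (φ w)‖ ^ 2) z = 0 := by
      rw [hev.fderiv_eq]
      exact e1.2 hc
    have h7 := hB.trans z hz (by rw [hza]; exact h4)
    obtain ⟨v, hv⟩ : ∃ v, 0 < fderiv ℝ (fun w => ‖φ w‖ ^ 2) z v := by
      by_contra hcon2
      push Not at hcon2
      apply h7
      ext v
      have b1 := hcon2 v
      have b2 := hcon2 (-v)
      rw [map_neg] at b2
      have : fderiv ℝ (fun w => ‖φ w‖ ^ 2) z v = 0 := le_antisymm b1 (by linarith)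
      simpa using this
    have h8 := Pool.Agent.Y977.RB.trans ξ φ z v hξ hsm (by rw [hza]; exact h4) hne hv
    rw [hz0] at h8
    simp at h8

/-- For a generic point there are only finitely many inner normals. -/
theorem SGeneric.finite {F : Set E4} (h : PSurf F) {ξ : E4} (hξ : ‖ξ‖ = 1)
    (hg : SGeneric F ξ) : (sinn F ξ).Finite := by
  by_contra hinf
  have hinf' : (sinn F ξ).Infinite := hinf
  let p : ℕ → E4 × E4 := fun k => (hinf'.natEmbedding _ k : E4 × E4)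
  have hp : ∀ k, p k ∈ sinn F ξ := fun k => (hinf'.natEmbedding _ k).2
  have hpi : ∀ i j, (p i).1 = (p j).1 → i = j := by
    intro i j hij
    have a := hp i
    have b := hp j
    have h2 : (p i).2 = (p j).2 := by
      refine foot_inj a.1.1 a.1.2.1 b.1.2.1 ?_
      have h4 := a.2
      have h5 := b.2
      rw [← hij] at h5
      rw [h4, h5]
    have h3 : p i = p j := Prod.ext hij h2
    exact (hinf'.natEmbedding _).injective (Subtype.ext h3)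
  have hpm := fun k => smax_of_inn hξ (hp k)
  obtain ⟨a, ha, σ, hσ, hlim⟩ := h.compact.tendsto_subseq
    (x := fun k => (p k).1) (fun k => (hpm k).1)
  have hlim' : Tendsto (fun k => (p (σ k)).1) atTop (𝓝 a) := hlim
  have ha1 := lim_inside h hξ hg.miss ha hlim' (fun k => hpm (σ k))
  obtain ⟨φ, U, V, z, hB, hV, haV, hFV, hz, hza, hnd⟩ := smorse_ht hξ hg.miss hg.morse a ha ha1
  have hFV' : F ∩ V = φ '' U ∩ closedBall 0 1 := by
    rw [hFV]
    refine (inter_eq_left.2 ?_).symm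
    rintro y hy
    rw [← hFV] at hy
    exact h.sub hy.1
  have hsm : ContDiffAt ℝ ∞ φ z := hB.smooth.contDiffAt (hB.isOpen.mem_nhds hz)
  have hne : φ z ≠ ξ := by
    rw [hza]
    intro hh
    exact hg.miss (hh ▸ ha)
  obtain ⟨w, hw, hw2⟩ := loc_seq hB hV hFV' hz (by rw [hza]; exact haV)
    (η := fun _ => ξ) (p := fun k => (p (σ k)).1) (fun _ => hξ) (by rw [hza]; exact hlim')
    (fun k => hpm (σ k))
  obtain ⟨w', hw', hw2'⟩ := loc_seq hB hV hFV' hz (by rw [hza]; exact haV)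
    (η := fun _ => ξ) (p := fun k => (p (σ (k + 1))).1) (fun _ => hξ)
    (by rw [hza]; exact hlim'.comp (tendsto_add_atTop_nat 1)) (fun k => hpm (σ (k + 1)))
  have hj : jg φ (ξ, z) = 0 := by
    have hc := (jg_smooth hsm hne).continuousAt.tendsto.comp
      ((tendsto_const_nhds (x := ξ)).prodMk_nhds hw)
    refine tendsto_nhds_unique hc ?_
    refine tendsto_const_nhds.congr' ?_
    filter_upwards [hw2] with k hk
    exact hk.2.1.symm
  have hc : fderiv ℝ (fun w => ht ξ (φ w)) z = 0 := by rw [jg_eq hsm hne, hj]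
  have hfin := inj_seq hsm hne (fun u hu => hnd hc u fun v => by
      rw [jg2_eq hB.isOpen hB.smooth hz hne, hu]
      rfl) (tendsto_const_nhds (x := ξ)) hw hw' (hw2.mono fun k hk => hk.2.1)
    (hw2'.mono fun k hk => hk.2.1)
  obtain ⟨k, k1, k2, k3⟩ := (hfin.and (hw2.and hw2')).exists
  have h6 : (p (σ k)).1 = (p (σ (k + 1))).1 := by
    rw [← k2.1, ← k3.1, k1]
  have h7 := hσ.injective (hpi _ _ h6)
  omega

/-- Near a generic point the number of inner normals is constant. -/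
theorem SGeneric.const {F : Set E4} (h : PSurf F) {ξ : E4} (hξ : ‖ξ‖ = 1)
    (hg : SGeneric F ξ) : ∃ (N : ℕ) (ε : ℝ), 0 < ε ∧ (sinn F ξ).encard = N ∧
      ∀ η : E4, ‖η‖ = 1 → ‖η - ξ‖ < ε → (sinn F η).encard = N := by
  have hf := hg.finite h hξ
  have hN := hf.encard_eq_coe_toFinset_card
  obtain ⟨N, hN'⟩ : ∃ N : ℕ, N = hf.toFinset.card := ⟨_, rfl⟩
  rw [← hN'] at hN
  obtain ⟨ε₁, hε₁, h1⟩ := supper h hξ hg.miss ((hg.morseSurf N).2 hN.le)
  have h2 := slsc (F := F) hξ (k := N) hN.ge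
  obtain ⟨ε₂, hε₂, h3⟩ := Metric.eventually_nhds_iff.1 h2
  refine ⟨N, min ε₁ ε₂, lt_min hε₁ hε₂, hN, fun η hη hd => le_antisymm ?_ ?_⟩
  · exact h1 η hη (hd.trans_le (min_le_left _ _))
  · refine h3 ?_ hη
    rw [dist_eq_norm]
    exact hd.trans_le (min_le_right _ _)

theorem sone_tfae {F : Set E4} (h : PSurf F) (m : ℕ) :
    List.TFAE [
      ∃ ξ : E4, ‖ξ‖ = 1 ∧ ξ ∉ F ∧ PSurf (push ξ '' F) ∧ SameType F (push ξ '' F) ∧
        MorseSurf (push ξ '' F) m,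
      ∃ E : Set E4, MeasurableSet E ∧ scurvTo F E <
          (m + 1) * (volume : Measure E4).toSphere {ξ : sphere (0 : E4) 1 | (ξ : E4) ∈ E},
      ¬ ∀ᵐ ξ : sphere (0 : E4) 1 ∂(volume : Measure E4).toSphere,
          (m : ℕ∞) + 1 ≤ (sinn F (ξ : E4)).encard,
      ∃ (ξ : E4) (ε : ℝ), ‖ξ‖ = 1 ∧ 0 < ε ∧
          ∀ η : E4, ‖η‖ = 1 → ‖η - ξ‖ < ε → (sinn F η).encard ≤ m] := by
  tfae_have 1 → 4 := by
    rintro ⟨ξ, hξ, h1, -, -, h4⟩
    obtain ⟨ε, hε, h5⟩ := supper h hξ h1 h4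
    exact ⟨ξ, ε, hξ, hε, h5⟩
  tfae_have 4 → 2 := by
    rintro ⟨ξ, ε, hξ, hε, h3⟩
    obtain ⟨hEm, hEo⟩ := cap_open ξ ε
    refine ⟨{η | ‖η - ξ‖ < ε}, hEm, ?_⟩
    rw [← sformula h hEm]
    refine strict_of_le hEo ⟨⟨ξ, by simpa using hξ⟩, by simpa using hε⟩ fun ζ hζ => ?_
    have := h3 ζ (by simp) hζ
    unfold crd
    exact_mod_cast ENat.toENNReal_le.2 this
  tfae_have 2 → 3 := by
    rintro ⟨E, hE, hT⟩ hae
    rw [← sformula h hE] at hT
    refine absurd hT (not_lt.2 ?_)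
    have hS : MeasurableSet {ξ : sphere (0 : E4) 1 | (ξ : E4) ∈ E} := measurable_subtype_coe hE
    rw [← setLIntegral_const]
    refine setLIntegral_mono_ae' hS ?_
    filter_upwards [hae] with ξ hξ _
    unfold crd
    have h4 : (((m : ℕ∞) + 1 : ℕ∞) : ℝ≥0∞) ≤ ((sinn F (ξ : E4)).encard : ℝ≥0∞) :=
      ENat.toENNReal_le.2 hξ
    simpa using h4
  tfae_have 3 → 1 := by
    intro h3
    have h4 : ∃ ξ : sphere (0 : E4) 1, SGeneric F ξ ∧ (sinn F (ξ : E4)).encard ≤ m := by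
      by_contra hcon
      push Not at hcon
      apply h3
      filter_upwards [sgeneric_ae h] with ξ hξ
      exact Order.add_one_le_of_lt (hcon ξ hξ)
    obtain ⟨ξ, hξ, hξ0⟩ := h4
    exact ⟨ξ, by simp, hξ.miss, hξ.surf, (hξ.sameType (by simp)).1, (hξ.morseSurf m).2 hξ0⟩
  tfae_finish

/-- Quantisation. -/
theorem squant {F : Set E4} (h : PSurf F) :
    ∀ᵐ ξ : sphere (0 : E4) 1 ∂(volume : Measure E4).toSphere, ∃ (N : ℕ) (ε : ℝ), 0 < ε ∧
      (∀ η : E4, ‖η‖ = 1 → ‖η - ξ‖ < ε → (sinn F η).encard = N) ∧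
      ∀ E : Set E4, MeasurableSet E → (∀ η ∈ E, ‖η - ξ‖ < ε) →
        scurvTo F E =
          N * (volume : Measure E4).toSphere {ξ : sphere (0 : E4) 1 | (ξ : E4) ∈ E} := by
  filter_upwards [sgeneric_ae h] with ξ hξ
  obtain ⟨N, ε, hε, -, h2⟩ := hξ.const h (by simp)
  refine ⟨N, ε, hε, h2, fun E hE hEε => ?_⟩
  rw [← sformula h hE]
  have hS : MeasurableSet {ξ : sphere (0 : E4) 1 | (ξ : E4) ∈ E} := measurable_subtype_coe hE
  rw [← setLIntegral_const]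
  refine setLIntegral_congr_fun hS fun ζ hζ => ?_
  have := h2 ζ (by simp) (hEε ζ hζ)
  unfold crd
  rw [this]
  simp

end Pool.Agent.H55HC
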