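import Pool.Agent.H55HC.Stab
import Pool.Agent.H55HC.SInt

/-!
Stability of the number of inner normals of surfaces.
-/

set_option autoImplicit false

namespace Pool.Agent.H55HC

open Pool.Agent.Y503.RB
open scoped ContDiff RealInnerProductSpace ENNReal Topology
open MeasureTheory Set Metric Filter

/-- local injectivity -/
lemma inj_seq {φ : ℂ → E4} {ξ : E4} {z : ℂ} (hφ : ContDiffAt ℝ ∞ φ z) (hne : φ z ≠ ξ)
    (hnd : ∀ u : ℂ, fderiv ℝ (jg φ) (ξ, z) (0, u) = 0 → u = 0) {η : ℕ → E4} {w w' : ℕ → ℂ}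
    (hη : Tendsto η atTop (𝓝 ξ)) (hw : Tendsto w atTop (𝓝 z)) (hw' : Tendsto w' atTop (𝓝 z))
    (h0 : ∀ᶠ k in atTop, jg φ (η k, w k) = 0) (h0' : ∀ᶠ k in atTop, jg φ (η k, w' k) = 0) :
    ∀ᶠ k in atTop, w k = w' k := by
  have hstr : HasStrictFDerivAt (jg φ) (fderiv ℝ (jg φ) (ξ, z)) (ξ, z) :=
    (jg_smooth hφ hne).hasStrictFDerivAt (by simp)
  have hker : LinearMap.ker ((fderiv ℝ (jg φ) (ξ, z)).comp
      (ContinuousLinearMap.inr ℝ E4 ℂ) : ℂ →ₗ[ℝ] (ℂ →L[ℝ] ℝ)) = ⊥ := by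
    rw [LinearMap.ker_eq_bot']
    intro u hu
    exact hnd u hu
  obtain ⟨K, hK, hKl⟩ := LinearMap.exists_antilipschitzWith _ hker
  have hseq : Tendsto (fun k => ((η k, w k), (η k, w' k))) atTop (𝓝 ((ξ, z), (ξ, z))) :=
    (hη.prodMk_nhds hw).prodMk_nhds (hη.prodMk_nhds hw')
  have hlo := hstr.isLittleO.comp_tendsto hseq
  have hK0 : (0 : ℝ) < K := by exact_mod_cast hK
  have hev := (Asymptotics.isLittleO_iff.1 hlo) (show (0 : ℝ) < 1 / (2 * K) by positivity)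
  filter_upwards [hev, h0, h0'] with k hk hk0 hk0'
  simp only [Function.comp_apply] at hk
  rw [hk0, hk0'] at hk
  have h6 : ((η k, w k) : E4 × ℂ) - (η k, w' k) = (0, w k - w' k) := by
    ext <;> simp
  rw [h6] at hk
  have h7 : ‖((0, w k - w' k) : E4 × ℂ)‖ = ‖w k - w' k‖ := by
    rw [Prod.norm_def]
    simp
  rw [h7, sub_zero, zero_sub, norm_neg] at hk
  have h8 := hKl.le_mul_dist (w k - w' k) 0
  rw [dist_zero_right, map_zero, dist_zero_right] at h8
  have h9 : ‖w k - w' k‖ ≤ K * ‖fderiv ℝ (jg φ) (ξ, z) (0, w k - w' k)‖ := h8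
  have h10 : (K : ℝ) * (1 / (2 * K) * ‖w k - w' k‖) = ‖w k - w' k‖ / 2 := by
    field_simp
  have h11 : ‖w k - w' k‖ ≤ ‖w k - w' k‖ / 2 := by
    rw [← h10]
    exact h9.trans (mul_le_mul_of_nonneg_left hk hK0.le)
  have h12 : ‖w k - w' k‖ = 0 := by
    have := norm_nonneg (w k - w' k)
    linarith
  exact sub_eq_zero.1 (norm_eq_zero.1 h12)

/-- sequences in a chart -/
lemma loc_seq {F : Set E4} {φ : ℂ → E4} {U : Set ℂ} {V : Set E4} (hB : BPatch φ U)
    (hV : IsOpen V) (hFV : F ∩ V = φ '' U ∩ closedBall 0 1) {z : ℂ} (hz : z ∈ U)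
    (hzV : φ z ∈ V) {η p : ℕ → E4} (hη : ∀ k, ‖η k‖ = 1) (hp : Tendsto p atTop (𝓝 (φ z)))
    (hpm : ∀ k, p k ∈ F ∧ ‖p k‖ < 1 ∧ IsLocalMaxOn (fun x => ‖push (η k) x‖) F (p k)) :
    ∃ w : ℕ → ℂ, Tendsto w atTop (𝓝 z) ∧ ∀ᶠ k in atTop, φ (w k) = p k ∧
      jg φ (η k, w k) = 0 ∧ ∀ u : ℂ, 0 ≤ fderiv ℝ (jg φ) (η k, w k) (0, u) u := by
  classical
  have hex : ∀ k, ∃ w : U, p k ∈ V → φ w = p k := by
    intro k
    by_cases h : p k ∈ V
    · have h1 : p k ∈ φ '' U ∩ closedBall 0 1 := by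
        rw [← hFV]
        exact ⟨(hpm k).1, h⟩
      obtain ⟨⟨w, hw, hwp⟩, -⟩ := h1
      exact ⟨⟨w, hw⟩, fun _ => hwp⟩
    · exact ⟨⟨z, hz⟩, fun h' => absurd h' h⟩
  choose w hw using hex
  have hpV : ∀ᶠ k in atTop, p k ∈ V := hp.eventually (hV.mem_nhds hzV)
  have hlim : Tendsto w atTop (𝓝 (⟨z, hz⟩ : U)) := by
    rw [hB.emb.tendsto_nhds_iff]
    refine hp.congr' ?_
    filter_upwards [hpV] with k hk
    exact (hw k hk).symm
  have hlim2 : Tendsto (fun k => (w k : ℂ)) atTop (𝓝 z) :=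
    (continuous_subtype_val.tendsto (⟨z, hz⟩ : U)).comp hlim
  refine ⟨fun k => w k, hlim2, ?_⟩
  filter_upwards [hpV] with k hk
  have hwk : φ (w k) = p k := hw k hk
  have hwU : (w k : ℂ) ∈ U := (w k).2
  obtain ⟨h1, h2, h3⟩ := hpm k
  have hsm : ContDiffAt ℝ ∞ φ (w k) := hB.smooth.contDiffAt (hB.isOpen.mem_nhds hwU)
  have hne : φ (w k) ≠ η k := by
    intro h
    rw [hwk] at h
    rw [h, hη k] at h2
    exact lt_irrefl _ h2
  have hUo : IsOpen (U ∩ φ ⁻¹' ball 0 1) :=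
    hB.smooth.continuousOn.isOpen_inter_preimage hB.isOpen isOpen_ball
  have hsub : φ '' (U ∩ φ ⁻¹' ball 0 1) ⊆ F := by
    rintro _ ⟨y, hy, rfl⟩
    have : φ y ∈ F ∩ V := by
      rw [hFV]
      exact ⟨⟨y, hy.1, rfl⟩, ball_subset_closedBall hy.2⟩
    exact this.1
  have hmx := max_comp (f := fun x => ‖push (η k) x‖) hUo
    (hB.smooth.continuousOn.mono inter_subset_left) hsub (z := w k)
    ⟨hwU, by
      show φ (w k) ∈ ball (0 : E4) 1
      rw [hwk]
      simpa using h2⟩ (by rw [hwk]; exact h3)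
  have hmax : IsLocalMax (fun y => ‖push (η k) (φ y)‖ ^ 2) (w k : ℂ) := by
    filter_upwards [hmx] with y hy
    exact pow_le_pow_left₀ (norm_nonneg _) hy 2
  have htsm : ContDiffAt ℝ ∞ (fun y => ht (η k) (φ y)) (w k : ℂ) := (ht_smooth hne).comp _ hsm
  have hev := normsq_eventually Pool.Agent.Y614.RB.theta (hη k) hsm.continuousAt hne
  obtain ⟨-, -, e3⟩ := Pool.Agent.Y640.RB.expf (fun y => ht (η k) (φ y)) _ htsm
  have hmin : IsLocalMin (fun y => ht (η k) (φ y)) (w k : ℂ) := e3.1 (hmax.congr hev)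
  refine ⟨hwk, ?_, fun u => ?_⟩
  · rw [← jg_eq hsm hne]
    exact hmin.fderiv_eq_zero
  · rw [← jg2_eq hB.isOpen hB.smooth hwU hne]
    exact Pool.Agent.Y640.RB.soc _ _ htsm hmin u

theorem sstab {F : Set E4} (h : PSurf F) {ξ : E4} (hξ : ‖ξ‖ = 1) (miss : ξ ∉ F) (m : ℕ)
    (hmorse : ∀ p ∈ F, ‖p‖ < 1 → ∃ (φ : ℂ → E4) (U : Set ℂ) (V : Set E4) (z : ℂ), BPatch φ U ∧
      IsOpen V ∧ p ∈ V ∧ F ∩ V = φ '' U ∧ z ∈ U ∧ φ z = p ∧
      (fderiv ℝ (fun w => ht ξ (φ w)) z = 0 → ∀ u : ℂ,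
        (∀ v : ℂ, fderiv ℝ (fderiv ℝ (fun w => ht ξ (φ w))) z u v = 0) → u = 0))
    (hcount : {p : E4 | p ∈ F ∧ ‖p‖ < 1 ∧ IsLocalMaxOn (fun x => ‖push ξ x‖) F p}.encard ≤ m) :
    ∃ ε : ℝ, 0 < ε ∧ ∀ η : E4, ‖η‖ = 1 → ‖η - ξ‖ < ε → (sinn F η).encard ≤ m := by
  by_contra hcon
  push Not at hcon
  have hk : ∀ k : ℕ, ∃ (η : E4) (P : Fin (m + 1) → E4), ‖η‖ = 1 ∧ ‖η - ξ‖ < 1 / ((k : ℝ) + 1) ∧
      Function.Injective P ∧ ∀ i, P i ∈ F ∧ ‖P i‖ < 1 ∧
        IsLocalMaxOn (fun x => ‖push η x‖) F (P i) := by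
    intro k
    obtain ⟨η, hη, hη2, hη3⟩ := hcon (1 / ((k : ℝ) + 1)) (by positivity)
    have h1 : ((m + 1 : ℕ) : ℕ∞) ≤ (sinn F η).encard := by
      have := Order.add_one_le_of_lt hη3
      exact_mod_cast this
    obtain ⟨t, hts, hcard⟩ := Set.exists_subset_encard_eq h1
    have hfin : t.Finite := Set.finite_of_encard_eq_coe hcard
    have hc2 : hfin.toFinset.card = m + 1 := by
      have := hfin.encard_eq_coe_toFinset_card
      rw [hcard] at this
      exact_mod_cast this.symm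
    let e := (hfin.toFinset.equivFinOfCardEq hc2).symm
    have hmem : ∀ i, ((e i : E4 × E4)) ∈ sinn F η := fun i =>
      hts (hfin.mem_toFinset.1 (e i).2)
    refine ⟨η, fun i => (e i : E4 × E4).1, hη, hη2, ?_, ?_⟩
    · intro i j hij
      have a := hmem i
      have b := hmem j
      simp only at hij
      have h2 : (e i : E4 × E4).2 = (e j : E4 × E4).2 := by
        refine foot_inj a.1.1 a.1.2.1 b.1.2.1 ?_
        have h4 := a.2
        have h5 := b.2
        rw [← hij] at h5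
        rw [h4, h5]
      have h3 : (e i : E4 × E4) = (e j : E4 × E4) := Prod.ext hij h2
      exact e.injective (Subtype.ext h3)
    · exact fun i => smax_of_inn hη (hmem i)
  choose η P h0 h1 h2 h3 using hk
  have hcomp : IsCompact (Set.pi univ fun _ : Fin (m + 1) => F) :=
    isCompact_univ_pi fun _ => h.compact
  obtain ⟨a, ha, σ, hσ, hlim⟩ := hcomp.tendsto_subseq (x := P) (fun k i _ => (h3 k i).1)
  have hηlim : Tendsto (fun k => η (σ k)) atTop (𝓝 ξ) := by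
    have h4 : Tendsto η atTop (𝓝 ξ) := by
      rw [tendsto_iff_norm_sub_tendsto_zero]
      exact squeeze_zero (fun k => norm_nonneg _) (fun k => (h1 k).le)
        tendsto_one_div_add_atTop_nhds_zero_nat
    exact h4.comp hσ.tendsto_atTop
  have hPlim : ∀ i, Tendsto (fun k => P (σ k) i) atTop (𝓝 (a i)) := fun i =>
    (continuous_apply i).continuousAt.tendsto.comp hlim
  have haF : ∀ i, a i ∈ F := fun i => ha i (mem_univ i)
  -- limits in a chart
  have hlimit : ∀ i, ∀ (φ : ℂ → E4) (U : Set ℂ) (V : Set E4) (z : ℂ), BPatch φ U → IsOpen V →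
      F ∩ V = φ '' U ∩ closedBall 0 1 → z ∈ U → φ z = a i → a i ∈ V →
      jg φ (ξ, z) = 0 ∧ ∀ u : ℂ, 0 ≤ fderiv ℝ (jg φ) (ξ, z) (0, u) u := by
    intro i φ U V z hB hV hFV hz hza haV
    obtain ⟨w, hw, hw2⟩ := loc_seq hB hV hFV hz (by rw [hza]; exact haV)
      (η := fun k => η (σ k)) (p := fun k => P (σ k) i) (fun k => h0 (σ k))
      (by rw [hza]; exact hPlim i) (fun k => h3 (σ k) i)
    have hsm : ContDiffAt ℝ ∞ φ z := hB.smooth.contDiffAt (hB.isOpen.mem_nhds hz)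
    have hne : φ z ≠ ξ := by
      rw [hza]
      intro hh
      exact miss (hh ▸ haF i)
    have hpl : Tendsto (fun k => (η (σ k), w k)) atTop (𝓝 (ξ, z)) := hηlim.prodMk_nhds hw
    constructor
    · have hc := (jg_smooth hsm hne).continuousAt.tendsto.comp hpl
      refine tendsto_nhds_unique hc ?_
      refine tendsto_const_nhds.congr' ?_
      filter_upwards [hw2] with k hk
      exact hk.2.1.symm
    · intro u
      have hc := (((jg_smooth hsm hne).fderiv_right (m := ∞)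
        (by simp)).continuousAt).tendsto.comp hpl
      have hc2 : Tendsto (fun k => fderiv ℝ (jg φ) (η (σ k), w k) (0, u) u) atTop
          (𝓝 (fderiv ℝ (jg φ) (ξ, z) (0, u) u)) := by
        have c1 : Continuous fun L : (E4 × ℂ) →L[ℝ] (ℂ →L[ℝ] ℝ) => L (0, u) u := by fun_prop
        exact c1.continuousAt.tendsto.comp hc
      refine ge_of_tendsto hc2 ?_
      filter_upwards [hw2] with k hk
      exact hk.2.2 u
  have hin : ∀ i, ‖a i‖ < 1 := by
    intro i
    have hle : ‖a i‖ ≤ 1 := by simpa using h.sub (haF i)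
    rcases hle.lt_or_eq with h4 | h4
    · exact h4
    · exfalso
      obtain ⟨φ, U, V, hB, hV, haV, hFV⟩ := h.loc (a i) (haF i)
      have h5 : a i ∈ φ '' U ∩ closedBall 0 1 := by
        rw [← hFV]
        exact ⟨haF i, haV⟩
      obtain ⟨⟨z, hz, hza⟩, -⟩ := h5
      obtain ⟨h6, -⟩ := hlimit i φ U V z hB hV hFV hz hza haV
      have hsm : ContDiffAt ℝ ∞ φ z := hB.smooth.contDiffAt (hB.isOpen.mem_nhds hz)
      have hne : φ z ≠ ξ := by
        rw [hza]
        intro hh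
        exact miss (hh ▸ haF i)
      have hc : fderiv ℝ (fun w => ht ξ (φ w)) z = 0 := by rw [jg_eq hsm hne, h6]
      have htsm : ContDiffAt ℝ ∞ (fun w => ht ξ (φ w)) z := (ht_smooth hne).comp _ hsm
      have hev := normsq_eventually Pool.Agent.Y614.RB.theta hξ hsm.continuousAt hne
      obtain ⟨e1, -, -⟩ := Pool.Agent.Y640.RB.expf (fun w => ht ξ (φ w)) _ htsm
      have hz0 : fderiv ℝ (fun w => ‖push ξ (φ w)‖ ^ 2) z = 0 := by
        rw [hev.fderiv_eq]
        exact e1.2 hc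
      have h7 := hB.trans z hz (by rw [hza]; exact h4)
      obtain ⟨v, hv⟩ : ∃ v, 0 < fderiv ℝ (fun w => ‖φ w‖ ^ 2) z v := by
        by_contra hcon2
        push Not at hcon2
        apply h7
        ext v
        have b1 := hcon2 v
        have b2 := hcon2 (-v)
        rw [map_neg] at b2
        have : fderiv ℝ (fun w => ‖φ w‖ ^ 2) z v = 0 := le_antisymm b1 (by linarith)
        simpa using this
      have h8 := Pool.Agent.Y977.RB.trans ξ φ z v hξ hsm (by rw [hza]; exact h4) hne hv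
      rw [hz0] at h8
      simp at h8
  choose φ U V z hB hV haV hFV hz hza hnd using fun i => hmorse (a i) (haF i) (hin i)
  have hFV' : ∀ i, F ∩ V i = φ i '' U i ∩ closedBall 0 1 := by
    intro i
    rw [hFV i]
    refine (inter_eq_left.2 ?_).symm
    rintro y hy
    rw [← hFV i] at hy
    exact h.sub hy.1
  have hsm : ∀ i, ContDiffAt ℝ ∞ (φ i) (z i) := fun i =>
    (hB i).smooth.contDiffAt ((hB i).isOpen.mem_nhds (hz i))
  have hne : ∀ i, φ i (z i) ≠ ξ := by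
    intro i
    rw [hza i]
    intro hh
    exact miss (hh ▸ haF i)
  have hcr : ∀ i, fderiv ℝ (fun w => ht ξ (φ i w)) (z i) = 0 := by
    intro i
    obtain ⟨h6, -⟩ := hlimit i (φ i) (U i) (V i) (z i) (hB i) (hV i) (hFV' i) (hz i) (hza i) (haV i)
    rw [jg_eq (hsm i) (hne i), h6]
  have haM : ∀ i, a i ∈ {p : E4 | p ∈ F ∧ ‖p‖ < 1 ∧ IsLocalMaxOn (fun x => ‖push ξ x‖) F p} := by
    intro i
    obtain ⟨-, h7⟩ := hlimit i (φ i) (U i) (V i) (z i) (hB i) (hV i) (hFV' i) (hz i) (hza i) (haV i)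
    have htsm : ContDiffAt ℝ ∞ (fun w => ht ξ (φ i w)) (z i) := (ht_smooth (hne i)).comp _ (hsm i)
    have hmin : IsLocalMin (fun w => ht ξ (φ i w)) (z i) := by
      refine min_of_psd htsm (hcr i) (hnd i (hcr i)) fun u => ?_
      rw [jg2_eq (hB i).isOpen (hB i).smooth (hz i) (hne i)]
      exact h7 u
    have hev := normsq_eventually Pool.Agent.Y614.RB.theta hξ (hsm i).continuousAt (hne i)
    obtain ⟨-, -, e3⟩ := Pool.Agent.Y640.RB.expf (fun w => ht ξ (φ i w)) _ htsm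
    have hmax : IsLocalMax (fun w => ‖push ξ (φ i w)‖ ^ 2) (z i) := (e3.2 hmin).congr hev.symm
    refine ⟨haF i, hin i, ?_⟩
    rw [← hza i]
    refine Pool.Agent.Y987.RB.locmax (N := fun x => ‖push ξ x‖) (hB i).emb (hV i) (hFV i) (hz i)
      (by rw [hza i]; exact haV i) ?_
    filter_upwards [hmax] with w hw
    exact (pow_le_pow_iff_left₀ (norm_nonneg _) (norm_nonneg _) two_ne_zero).1 hw
  have hninj : ¬ Function.Injective a := by
    intro hinj
    have h4 : ((m + 1 : ℕ) : ℕ∞) ≤ (range a).encard := by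
      have := hinj.encard_range
      simpa using this
    have h5 := h4.trans ((encard_le_encard (range_subset_iff.2 haM)).trans hcount)
    have h6 : m + 1 ≤ m := by exact_mod_cast h5
    omega
  obtain ⟨i, j, hij, hneij⟩ : ∃ i j, a i = a j ∧ i ≠ j := by
    by_contra hcon2
    push Not at hcon2
    exact hninj fun i j hij => hcon2 i j hij
  obtain ⟨w, hw, hw2⟩ := loc_seq (hB i) (hV i) (hFV' i) (hz i) (by rw [hza i]; exact haV i)
    (η := fun k => η (σ k)) (p := fun k => P (σ k) i) (fun k => h0 (σ k))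
    (by rw [hza i]; exact hPlim i) (fun k => h3 (σ k) i)
  obtain ⟨w', hw', hw2'⟩ := loc_seq (hB i) (hV i) (hFV' i) (hz i) (by rw [hza i]; exact haV i)
    (η := fun k => η (σ k)) (p := fun k => P (σ k) j) (fun k => h0 (σ k))
    (by rw [hza i, hij]; exact hPlim j) (fun k => h3 (σ k) j)
  have hfin := inj_seq (hsm i) (hne i) (fun u hu => hnd i (hcr i) u fun v => by
      rw [jg2_eq (hB i).isOpen (hB i).smooth (hz i) (hne i), hu]
      rfl) hηlim hw hw' (hw2.mono fun k hk => hk.2.1) (hw2'.mono fun k hk => hk.2.1)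
  obtain ⟨k, k1, k2, k3⟩ := (hfin.and (hw2.and hw2')).exists
  have h5 : P (σ k) i = P (σ k) j := by
    rw [← k2.1, ← k3.1, k1]
  exact hneij (h2 (σ k) h5)

end Pool.Agent.H55HC
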