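import Pool.Agent.H55HC.Pull

/-!
Stability of the number of inner normals.
-/

set_option autoImplicit false

namespace Pool.Agent.H55HC

open Pool.Agent.Y503.RB
open scoped ContDiff RealInnerProductSpace ENNReal Topology
open MeasureTheory Set Metric Filter

/-- The height as a function of the point at infinity and the point of the disc. -/
noncomputable def jh (φ : ℂ → E4) (p : E4 × ℂ) : ℝ := ht p.1 (φ p.2)

lemma jh_smooth {φ : ℂ → E4} {ξ : E4} {z : ℂ} (hφ : ContDiffAt ℝ ∞ φ z) (hne : φ z ≠ ξ) :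
    ContDiffAt ℝ ∞ (jh φ) (ξ, z) := by
  have h1 : ContDiffAt ℝ ∞ (fun p : E4 × ℂ => φ p.2) (ξ, z) :=
    ContDiffAt.comp (g := φ) (f := Prod.snd) (ξ, z) hφ contDiffAt_snd
  have h2 : ContDiffAt ℝ ∞ (fun p : E4 × ℂ => φ p.2 - p.1) (ξ, z) := h1.sub contDiffAt_fst
  have h3 : ‖φ z - ξ‖ ^ 2 ≠ 0 := pow_ne_zero _ (norm_ne_zero_iff.2 (sub_ne_zero.2 hne))
  exact (contDiffAt_const.sub (h1.norm_sq ℝ)).div (h2.norm_sq ℝ) h3

/-- Its derivative along the disc. -/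
noncomputable def jg (φ : ℂ → E4) (p : E4 × ℂ) : ℂ →L[ℝ] ℝ :=
  (fderiv ℝ (jh φ) p).comp (ContinuousLinearMap.inr ℝ E4 ℂ)

lemma jg_smooth {φ : ℂ → E4} {ξ : E4} {z : ℂ} (hφ : ContDiffAt ℝ ∞ φ z) (hne : φ z ≠ ξ) :
    ContDiffAt ℝ ∞ (jg φ) (ξ, z) :=
  ((jh_smooth hφ hne).fderiv_right (m := ∞) (by simp)).clm_comp contDiffAt_const

lemma jg_eq {φ : ℂ → E4} {ξ : E4} {z : ℂ} (hφ : ContDiffAt ℝ ∞ φ z) (hne : φ z ≠ ξ) :
    fderiv ℝ (fun w => ht ξ (φ w)) z = jg φ (ξ, z) := by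
  have h1 : HasFDerivAt (fun w : ℂ => ((ξ, w) : E4 × ℂ)) (ContinuousLinearMap.inr ℝ E4 ℂ) z :=
    hasFDerivAt_prodMk_right ξ z
  have h2 : HasFDerivAt (jh φ) (fderiv ℝ (jh φ) (ξ, z)) (ξ, z) :=
    ((jh_smooth hφ hne).differentiableAt (by simp)).hasFDerivAt
  exact (HasFDerivAt.comp (g := jh φ) z h2 h1).fderiv

lemma jg2_eq {φ : ℂ → E4} {W : Set ℂ} (hW : IsOpen W) (hs : ContDiffOn ℝ ∞ φ W) {ξ : E4} {z : ℂ}
    (hz : z ∈ W) (hne : φ z ≠ ξ) (u : ℂ) :
    fderiv ℝ (fderiv ℝ (fun w => ht ξ (φ w))) z u = fderiv ℝ (jg φ) (ξ, z) (0, u) := by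
  have hat : ∀ w ∈ W, ContDiffAt ℝ ∞ φ w := fun w hw => hs.contDiffAt (hW.mem_nhds hw)
  have hev : fderiv ℝ (fun w => ht ξ (φ w)) =ᶠ[𝓝 z] fun w => jg φ (ξ, w) := by
    filter_upwards [hW.mem_nhds hz, (hat z hz).continuousAt.eventually_ne hne] with w hw hw2
    exact jg_eq (hat w hw) hw2
  rw [hev.fderiv_eq]
  have h1 : HasFDerivAt (fun w : ℂ => ((ξ, w) : E4 × ℂ)) (ContinuousLinearMap.inr ℝ E4 ℂ) z :=
    hasFDerivAt_prodMk_right ξ z
  have h2 : HasFDerivAt (jg φ) (fderiv ℝ (jg φ) (ξ, z)) (ξ, z) :=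
    ((jg_smooth (hat z hz) hne).differentiableAt (by simp)).hasFDerivAt
  have h3 := (HasFDerivAt.comp (g := jg φ) z h2 h1).fderiv
  have h4 : fderiv ℝ (fun w => jg φ (ξ, w)) z =
      (fderiv ℝ (jg φ) (ξ, z)).comp (ContinuousLinearMap.inr ℝ E4 ℂ) := h3
  rw [h4]
  rfl

/-- critical points with semidefinite second derivative are local minima if they are not degenerate -/
lemma min_of_psd {f : ℂ → ℝ} {z : ℂ} (hf : ContDiffAt ℝ ∞ f z) (hc : fderiv ℝ f z = 0)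
    (hn : ∀ u : ℂ, (∀ v : ℂ, fderiv ℝ (fderiv ℝ f) z u v = 0) → u = 0)
    (hp : ∀ u : ℂ, 0 ≤ fderiv ℝ (fderiv ℝ f) z u u) : IsLocalMin f z := by
  by_contra hcon
  rcases Pool.Agent.Y972.RB.type f z hf hc hn hcon with h | h
  · have h1 := h 1 one_ne_zero
    have h2 := hp 1
    linarith
  · have hsym : IsSymmSndFDerivAt ℝ f z := hf.isSymmSndFDerivAt (by
      simp only [minSmoothness_of_isRCLikeNormedField]
      show ((2 : ℕ∞) : WithTop ℕ∞) ≤ ((⊤ : ℕ∞) : WithTop ℕ∞)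
      exact WithTop.coe_le_coe.2 le_top)
    have h12 := hsym.eq 1 Complex.I
    have h3 : ∀ x : ℝ, 0 ≤ fderiv ℝ (fderiv ℝ f) z 1 1 * (x * x) +
        (2 * fderiv ℝ (fderiv ℝ f) z 1 Complex.I) * x +
        fderiv ℝ (fderiv ℝ f) z Complex.I Complex.I := by
      intro x
      have h4 := hp (x • (1 : ℂ) + Complex.I)
      simp only [map_add, map_smul, _root_.add_apply, _root_.smul_apply, smul_eq_mul] at h4
      rw [← h12] at h4
      linarith
    have h5 := discrim_le_zero h3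
    unfold discrim at h5
    unfold hdet at h
    nlinarith

theorem stab {φ : ℂ → E4} (h : SliceDisc φ) {ξ : E4} (hξ : ‖ξ‖ = 1)
    (miss : ∀ z ∈ closedBall (0 : ℂ) 1, φ z ≠ ξ) (m : ℕ)
    (hmorse : ∀ z ∈ ball (0 : ℂ) 1, fderiv ℝ (fun w => ht ξ (φ w)) z = 0 → ∀ u : ℂ,
      (∀ v : ℂ, fderiv ℝ (fderiv ℝ (fun w => ht ξ (φ w))) z u v = 0) → u = 0)
    (hcount : {z : ℂ | z ∈ ball (0 : ℂ) 1 ∧ IsLocalMin (fun w => ht ξ (φ w)) z}.encard ≤ m) :
    ∃ ε : ℝ, 0 < ε ∧ ∀ η : E4, ‖η‖ = 1 → ‖η - ξ‖ < ε → (inn φ (ball 0 1) η).encard ≤ m := by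
  obtain ⟨W, hW, hsub, hs⟩ := h.smooth
  have hat : ∀ z ∈ W, ContDiffAt ℝ ∞ φ z := fun z hz => hs.contDiffAt (hW.mem_nhds hz)
  by_contra hcon
  push Not at hcon
  have hk : ∀ k : ℕ, ∃ (η : E4) (Z : Fin (m + 1) → ℂ), ‖η - ξ‖ < 1 / ((k : ℝ) + 1) ∧
      Function.Injective Z ∧ ∀ i, Z i ∈ ball (0 : ℂ) 1 ∧ jg φ (η, Z i) = 0 ∧
        ∀ u : ℂ, 0 ≤ fderiv ℝ (jg φ) (η, Z i) (0, u) u := by
    intro k
    obtain ⟨η, hη, hη2, hη3⟩ := hcon (1 / ((k : ℝ) + 1)) (by positivity)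
    have h1 : ((m + 1 : ℕ) : ℕ∞) ≤ (inn φ (ball 0 1) η).encard := by
      have := Order.add_one_le_of_lt hη3
      exact_mod_cast this
    obtain ⟨t, hts, hcard⟩ := Set.exists_subset_encard_eq h1
    have hfin : t.Finite := Set.finite_of_encard_eq_coe hcard
    have hc2 : hfin.toFinset.card = m + 1 := by
      have := hfin.encard_eq_coe_toFinset_card
      rw [hcard] at this
      exact_mod_cast this.symm
    let e := (hfin.toFinset.equivFinOfCardEq hc2).symm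
    have hmem : ∀ i, ((e i : ℂ × E4)) ∈ inn φ (ball 0 1) η := fun i =>
      hts (hfin.mem_toFinset.1 (e i).2)
    refine ⟨η, fun i => (e i : ℂ × E4).1, hη2, ?_, ?_⟩
    · intro i j hij
      obtain ⟨a1, a2, -, -, a5⟩ := hmem i
      obtain ⟨b1, b2, -, -, b5⟩ := hmem j
      have h2 : (e i : ℂ × E4).2 = (e j : ℂ × E4).2 := by
        simp only at hij
        rw [← hij] at b5
        exact foot_inj (h.inside _ a1) a2 b2 (by rw [a5, b5])
      have h3 : (e i : ℂ × E4) = (e j : ℂ × E4) := Prod.ext hij h2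
      exact e.injective (Subtype.ext h3)
    · intro i
      obtain ⟨a1, a2, a3, a4, a5⟩ := hmem i
      have hz := hsub (ball_subset_closedBall a1)
      have hne : φ (e i : ℂ × E4).1 ≠ η := by
        intro hh
        have := h.inside _ a1
        rw [hh, hη] at this
        exact lt_irrefl _ this
      have hsm := hat _ hz
      have hc := crit_of_foot hη hsm (h.inside _ a1) a2 a3 a5
      have hmax := max_of_inner hη hsm (h.inside _ a1) a2 a3 a4 a5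
      have htsm : ContDiffAt ℝ ∞ (fun w => ht η (φ w)) (e i : ℂ × E4).1 :=
        (ht_smooth hne).comp _ hsm
      have hev := normsq_eventually Pool.Agent.Y614.RB.theta hη hsm.continuousAt hne
      obtain ⟨-, -, e3⟩ := Pool.Agent.Y640.RB.expf (fun w => ht η (φ w)) _ htsm
      have hmin : IsLocalMin (fun w => ht η (φ w)) (e i : ℂ × E4).1 := e3.1 (hmax.congr hev)
      refine ⟨a1, ?_, fun u => ?_⟩
      · rw [← jg_eq hsm hne]
        exact hc
      · rw [← jg2_eq hW hs hz hne]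
        exact Pool.Agent.Y640.RB.soc _ _ htsm hmin u
  choose η Z h1 h2 h3 using hk
  have hcomp : IsCompact (Set.pi univ fun _ : Fin (m + 1) => closedBall (0 : ℂ) 1) :=
    isCompact_univ_pi fun _ => isCompact_closedBall 0 1
  obtain ⟨a, ha, σ, hσ, hlim⟩ := hcomp.tendsto_subseq (x := Z)
    (fun k i _ => ball_subset_closedBall (h3 k i).1)
  have hηlim : Tendsto (fun k => η (σ k)) atTop (𝓝 ξ) := by
    have h4 : Tendsto η atTop (𝓝 ξ) := by
      rw [tendsto_iff_norm_sub_tendsto_zero]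
      exact squeeze_zero (fun k => norm_nonneg _) (fun k => (h1 k).le)
        tendsto_one_div_add_atTop_nhds_zero_nat
    exact h4.comp hσ.tendsto_atTop
  have hZlim : ∀ i, Tendsto (fun k => Z (σ k) i) atTop (𝓝 (a i)) := fun i =>
    (continuous_apply i).continuousAt.tendsto.comp hlim
  have hplim : ∀ i, Tendsto (fun k => (η (σ k), Z (σ k) i)) atTop (𝓝 (ξ, a i)) := fun i =>
    hηlim.prodMk_nhds (hZlim i)
  have haB : ∀ i, a i ∈ closedBall (0 : ℂ) 1 := fun i => ha i (mem_univ i)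
  have hG0 : ∀ i, jg φ (ξ, a i) = 0 := by
    intro i
    have hc := (jg_smooth (hat _ (hsub (haB i))) (miss _ (haB i))).continuousAt.tendsto.comp
      (hplim i)
    refine tendsto_nhds_unique hc ?_
    refine tendsto_const_nhds.congr fun k => ?_
    exact ((h3 (σ k) i).2.1).symm
  have hcont : ∀ i, ContinuousAt (fderiv ℝ (jg φ)) (ξ, a i) := fun i =>
    ((jg_smooth (hat _ (hsub (haB i))) (miss _ (haB i))).fderiv_right (m := ∞)
      (by simp)).continuousAt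
  have hG2 : ∀ i, ∀ u : ℂ, 0 ≤ fderiv ℝ (jg φ) (ξ, a i) (0, u) u := by
    intro i u
    have hc := (hcont i).tendsto.comp (hplim i)
    have hc2 : Tendsto (fun k => fderiv ℝ (jg φ) (η (σ k), Z (σ k) i) (0, u) u) atTop
        (𝓝 (fderiv ℝ (jg φ) (ξ, a i) (0, u) u)) := by
      have c1 : Continuous fun L : (E4 × ℂ) →L[ℝ] (ℂ →L[ℝ] ℝ) => L (0, u) u := by fun_prop
      exact c1.continuousAt.tendsto.comp hc
    exact ge_of_tendsto' hc2 fun k => (h3 (σ k) i).2.2 u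
  have haM : ∀ i, a i ∈ {z : ℂ | z ∈ ball (0 : ℂ) 1 ∧ IsLocalMin (fun w => ht ξ (φ w)) z} := by
    intro i
    have hz := hsub (haB i)
    have hsm := hat _ hz
    have hne := miss _ (haB i)
    have htsm : ContDiffAt ℝ ∞ (fun w => ht ξ (φ w)) (a i) := (ht_smooth hne).comp _ hsm
    have hc : fderiv ℝ (fun w => ht ξ (φ w)) (a i) = 0 := by rw [jg_eq hsm hne, hG0 i]
    have hball : a i ∈ ball (0 : ℂ) 1 := by
      rcases (mem_closedBall.1 (haB i)).lt_or_eq with h4 | h4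
      · exact h4
      · exfalso
        have h5 := Pool.Agent.Y977.RB.trans ξ φ (a i) (a i) hξ hsm (h.bdry _ h4) hne
          (h.trans _ h4)
        have hev := normsq_eventually Pool.Agent.Y614.RB.theta hξ hsm.continuousAt hne
        obtain ⟨e1, -, -⟩ := Pool.Agent.Y640.RB.expf (fun w => ht ξ (φ w)) _ htsm
        rw [hev.fderiv_eq, e1.2 hc] at h5
        simp at h5
    refine ⟨hball, min_of_psd htsm hc (hmorse _ hball hc) fun u => ?_⟩
    rw [jg2_eq hW hs hz hne]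
    exact hG2 i u
  have hninj : ¬ Function.Injective a := by
    intro hinj
    have h4 : ((m + 1 : ℕ) : ℕ∞) ≤ (range a).encard := by
      have := hinj.encard_range
      simpa using this
    have h5 := h4.trans ((encard_le_encard (range_subset_iff.2 haM)).trans hcount)
    have h6 : m + 1 ≤ m := by exact_mod_cast h5
    omega
  obtain ⟨i, j, hij, hne⟩ : ∃ i j, a i = a j ∧ i ≠ j := by
    by_contra hcon2
    push Not at hcon2
    exact hninj fun i j hij => hcon2 i j hij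
  -- local injectivity
  have hz := hsub (haB i)
  have hsm := hat _ hz
  have hmiss := miss _ (haB i)
  have hstr : HasStrictFDerivAt (jg φ) (fderiv ℝ (jg φ) (ξ, a i)) (ξ, a i) :=
    (jg_smooth hsm hmiss).hasStrictFDerivAt (by simp)
  have hker : LinearMap.ker ((fderiv ℝ (jg φ) (ξ, a i)).comp
      (ContinuousLinearMap.inr ℝ E4 ℂ) : ℂ →ₗ[ℝ] (ℂ →L[ℝ] ℝ)) = ⊥ := by
    rw [LinearMap.ker_eq_bot']
    intro u hu
    have hu' : fderiv ℝ (jg φ) (ξ, a i) (0, u) = 0 := hu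
    refine hmorse _ (haM i).1 ?_ u fun v => ?_
    · rw [jg_eq hsm hmiss, hG0 i]
    · rw [jg2_eq hW hs hz hmiss, hu']
      rfl
  obtain ⟨K, hK, hKl⟩ := LinearMap.exists_antilipschitzWith _ hker
  have hseq : Tendsto (fun k => ((η (σ k), Z (σ k) i), (η (σ k), Z (σ k) j))) atTop
      (𝓝 ((ξ, a i), (ξ, a i))) := by
    have h4 := (hplim i).prodMk_nhds (hplim j)
    rwa [← hij] at h4
  have hlo := hstr.isLittleO.comp_tendsto hseq
  have hK0 : (0 : ℝ) < K := by exact_mod_cast hK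
  have hev := (Asymptotics.isLittleO_iff.1 hlo) (show (0 : ℝ) < 1 / (2 * K) by positivity)
  obtain ⟨k, hk⟩ := hev.exists
  simp only [Function.comp_apply] at hk
  rw [(h3 (σ k) i).2.1, (h3 (σ k) j).2.1] at hk
  have h6 : ((η (σ k), Z (σ k) i) : E4 × ℂ) - (η (σ k), Z (σ k) j) =
      (0, Z (σ k) i - Z (σ k) j) := by
    ext <;> simp
  rw [h6] at hk
  have h7 : ‖((0, Z (σ k) i - Z (σ k) j) : E4 × ℂ)‖ = ‖Z (σ k) i - Z (σ k) j‖ := by
    rw [Prod.norm_def]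
    simp
  rw [h7, sub_zero, zero_sub, norm_neg] at hk
  have h8 := hKl.le_mul_dist (Z (σ k) i - Z (σ k) j) 0
  rw [dist_zero_right, map_zero, dist_zero_right] at h8
  have h9 : ‖Z (σ k) i - Z (σ k) j‖ ≤
      K * ‖fderiv ℝ (jg φ) (ξ, a i) (0, Z (σ k) i - Z (σ k) j)‖ := h8
  have h10 : (K : ℝ) * (1 / (2 * K) * ‖Z (σ k) i - Z (σ k) j‖) = ‖Z (σ k) i - Z (σ k) j‖ / 2 := by
    field_simp
  have h11 : ‖Z (σ k) i - Z (σ k) j‖ ≤ ‖Z (σ k) i - Z (σ k) j‖ / 2 := by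
    rw [← h10]
    exact h9.trans (mul_le_mul_of_nonneg_left hk hK0.le)
  have h12 : ‖Z (σ k) i - Z (σ k) j‖ = 0 := by
    have := norm_nonneg (Z (σ k) i - Z (σ k) j)
    linarith
  exact hne (h2 (σ k) (sub_eq_zero.1 (norm_eq_zero.1 h12)))

end Pool.Agent.H55HC
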